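import Pool.Agent.Helper76.IF.St

/-!
A0: calculus of trigonometric polynomials.
-/

set_option autoImplicit false
set_option maxSynthPendingDepth 3

open MeasureTheory Complex Filter Topology
open scoped ENNReal NNReal ComplexConjugate

noncomputable section

namespace Helper76.IF

open Helper87.NF

/-- the real linear form `k₁ x + k₂ y` -/
def lk (k : ℤ × ℤ) : ℂ →L[ℝ] ℝ := (k.1 : ℝ) • Complex.reCLM + (k.2 : ℝ) • Complex.imCLM

theorem lk_apply (k : ℤ × ℤ) (z : ℂ) : lk k z = (k.1 : ℝ) * z.re + (k.2 : ℝ) * z.im := by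
  simp [lk]

/-- the derivative of `ek k` -/
def Dek (k : ℤ × ℤ) (z : ℂ) : ℂ →L[ℝ] ℂ :=
  ek k z • ((2 * (Real.pi : ℂ) * I) • (Complex.ofRealCLM.comp (lk k)))

theorem ek_eq (k : ℤ × ℤ) (z : ℂ) :
    ek k z = Complex.exp ((2 * (Real.pi : ℂ) * I) * ((lk k z : ℝ) : ℂ)) := by
  rw [lk_apply]; rfl

theorem hasFDerivAt_ek (k : ℤ × ℤ) (z : ℂ) : HasFDerivAt (ek k) (Dek k z) z := by
  have h1 : HasFDerivAt (fun z : ℂ => (2 * (Real.pi : ℂ) * I) * ((lk k z : ℝ) : ℂ))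
      ((2 * (Real.pi : ℂ) * I) • (Complex.ofRealCLM.comp (lk k))) z :=
    ((Complex.ofRealCLM.comp (lk k)).hasFDerivAt (x := z)).const_mul _
  have h2 := h1.cexp
  have h3 : (fun z : ℂ => Complex.exp ((2 * (Real.pi : ℂ) * I) * ((lk k z : ℝ) : ℂ))) = ek k := by
    funext w; rw [ek_eq]
  rw [h3] at h2
  have h4 : Complex.exp ((2 * (Real.pi : ℂ) * I) * ((lk k z : ℝ) : ℂ)) = ek k z := (ek_eq k z).symm
  rw [h4] at h2
  exact h2

theorem contDiff_ek (k : ℤ × ℤ) (n : WithTop ℕ∞) : ContDiff ℝ n (ek k) := by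
  have h3 : (fun z : ℂ => Complex.exp ((2 * (Real.pi : ℂ) * I) * ((lk k z : ℝ) : ℂ))) = ek k := by
    funext w; rw [ek_eq]
  rw [← h3]
  exact (contDiff_const.mul (Complex.ofRealCLM.comp (lk k)).contDiff).cexp

theorem Dek_one (k : ℤ × ℤ) (z : ℂ) :
    Dek k z 1 = 2 * (Real.pi : ℂ) * I * (k.1 : ℂ) * ek k z := by
  simp only [Dek, _root_.smul_apply, ContinuousLinearMap.comp_apply, lk_apply,
    smul_eq_mul, Complex.ofRealCLM_apply, Complex.one_re, Complex.one_im]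
  push_cast
  ring

theorem Dek_I (k : ℤ × ℤ) (z : ℂ) :
    Dek k z I = 2 * (Real.pi : ℂ) * I * (k.2 : ℂ) * ek k z := by
  simp only [Dek, _root_.smul_apply, ContinuousLinearMap.comp_apply, lk_apply,
    smul_eq_mul, Complex.ofRealCLM_apply, Complex.I_re, Complex.I_im]
  push_cast
  ring

theorem exp_two_pi_int (n : ℤ) : Complex.exp (2 * (Real.pi : ℂ) * I * (n : ℂ)) = 1 := by
  have h := Complex.exp_int_mul_two_pi_mul_I n
  rw [← h]
  congr 1
  ring

theorem ek_add_one (k : ℤ × ℤ) (z : ℂ) : ek k (z + 1) = ek k z := by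
  unfold ek
  have : (2 * (Real.pi : ℂ) * I * ((((k.1 : ℝ) * (z + 1).re + (k.2 : ℝ) * (z + 1).im : ℝ)) : ℂ))
      = (2 * (Real.pi : ℂ) * I * ((((k.1 : ℝ) * z.re + (k.2 : ℝ) * z.im : ℝ)) : ℂ))
        + 2 * (Real.pi : ℂ) * I * (k.1 : ℂ) := by
    rw [Complex.add_re, Complex.add_im, Complex.one_re, Complex.one_im]
    push_cast
    ring
  rw [this, Complex.exp_add, exp_two_pi_int, mul_one]

theorem ek_add_I (k : ℤ × ℤ) (z : ℂ) : ek k (z + I) = ek k z := by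
  unfold ek
  have : (2 * (Real.pi : ℂ) * I * ((((k.1 : ℝ) * (z + I).re + (k.2 : ℝ) * (z + I).im : ℝ)) : ℂ))
      = (2 * (Real.pi : ℂ) * I * ((((k.1 : ℝ) * z.re + (k.2 : ℝ) * z.im : ℝ)) : ℂ))
        + 2 * (Real.pi : ℂ) * I * (k.2 : ℂ) := by
    rw [Complex.add_re, Complex.add_im, Complex.I_re, Complex.I_im]
    push_cast
    ring
  rw [this, Complex.exp_add, exp_two_pi_int, mul_one]

theorem norm_ek (k : ℤ × ℤ) (z : ℂ) : ‖ek k z‖ = 1 := by
  unfold ek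
  have : (2 * (Real.pi : ℂ) * I * ((((k.1 : ℝ) * z.re + (k.2 : ℝ) * z.im : ℝ)) : ℂ))
      = ((2 * Real.pi * ((k.1 : ℝ) * z.re + (k.2 : ℝ) * z.im) : ℝ) : ℂ) * I := by
    push_cast
    ring
  rw [this, Complex.norm_exp_ofReal_mul_I]

theorem hasFDerivAt_tp (s : Finset (ℤ × ℤ)) (c : ℤ × ℤ → ℂ) (z : ℂ) :
    HasFDerivAt (tp s c) (∑ k ∈ s, c k • Dek k z) z := by
  have h : tp s c = fun z => ∑ k ∈ s, c k * ek k z := rfl
  rw [h]
  exact HasFDerivAt.fun_sum fun k _ => (hasFDerivAt_ek k z).const_mul (c k)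

theorem contDiff_tp (s : Finset (ℤ × ℤ)) (c : ℤ × ℤ → ℂ) (n : WithTop ℕ∞) :
    ContDiff ℝ n (tp s c) := by
  have h : tp s c = fun z => ∑ k ∈ s, c k * ek k z := rfl
  rw [h]
  exact ContDiff.sum fun k _ => contDiff_const.mul (contDiff_ek k n)

theorem pf_A0 : StA0 := by
  intro s c
  refine ⟨contDiff_tp s c 2, ?_, ?_, ?_, ?_, ?_⟩
  · intro z
    rw [(hasFDerivAt_tp s c z).fderiv, _root_.sum_apply]
    unfold tp
    refine Finset.sum_congr rfl fun k _ => ?_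
    rw [_root_.smul_apply, Dek_one, smul_eq_mul]
    ring
  · intro z
    rw [(hasFDerivAt_tp s c z).fderiv, _root_.sum_apply]
    unfold tp
    refine Finset.sum_congr rfl fun k _ => ?_
    rw [_root_.smul_apply, Dek_I, smul_eq_mul]
    ring
  · intro z
    unfold tp
    exact Finset.sum_congr rfl fun k _ => by rw [ek_add_one]
  · intro z
    unfold tp
    exact Finset.sum_congr rfl fun k _ => by rw [ek_add_I]
  · intro z
    unfold tp
    refine (norm_sum_le _ _).trans (Finset.sum_le_sum fun k _ => ?_)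
    rw [norm_mul, norm_ek, mul_one]

end Helper76.IF
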