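import Pool.Agent.Helper76.IF.St

/-!
# IF module A1: finite Parseval and Bessel on the unit square (helper91, MP_3dd6d4_an)
-/

set_option autoImplicit false
set_option maxSynthPendingDepth 3

open MeasureTheory Complex Filter Topology
open scoped ENNReal NNReal ComplexConjugate

noncomputable section

namespace Helper76.IF

open Helper87.NF

namespace A1

lemma cont_ek (k : ℤ × ℤ) : Continuous (ek k) := by
  unfold ek
  fun_prop

lemma norm_ek (k : ℤ × ℤ) (z : ℂ) : ‖ek k z‖ = 1 := by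
  unfold ek
  rw [show 2 * (Real.pi : ℂ) * I * ((((k.1 : ℝ) * z.re + (k.2 : ℝ) * z.im : ℝ)) : ℂ)
    = ((2 * Real.pi * ((k.1 : ℝ) * z.re + (k.2 : ℝ) * z.im) : ℝ) : ℂ) * I by push_cast; ring]
  exact Complex.norm_exp_ofReal_mul_I _

lemma conj_ek_mul (k l : ℤ × ℤ) (z : ℂ) : conj (ek k z) * ek l z = ek (l - k) z := by
  unfold ek
  rw [← Complex.exp_conj, ← Complex.exp_add]
  congr 1
  simp only [map_mul, Complex.conj_ofReal, Complex.conj_I, map_ofNat, Prod.fst_sub, Prod.snd_sub]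
  push_cast
  ring

lemma meas_sq : MeasurableSet Helper87.NF.sq := by
  unfold Helper87.NF.sq
  apply MeasurableSet.inter (measurableSet_le measurable_const Complex.measurable_re)
  apply MeasurableSet.inter (measurableSet_lt Complex.measurable_re measurable_const)
  apply MeasurableSet.inter (measurableSet_le measurable_const Complex.measurable_im)
  exact measurableSet_lt Complex.measurable_im measurable_const

lemma sq_eq : Helper87.NF.sq = Complex.measurableEquivRealProd ⁻¹' (Set.Ico (0 : ℝ) 1 ×ˢ Set.Ico (0 : ℝ) 1) := by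
  ext z
  simp only [Helper87.NF.sq, Set.mem_ofPred_eq, Set.mem_preimage, Set.mem_prod, Set.mem_Ico,
    Complex.measurableEquivRealProd_apply]
  tauto

lemma one_dim (n : ℤ) : ∫ x in Set.Ico (0 : ℝ) 1, Complex.exp (2 * (Real.pi : ℂ) * I * ((n : ℂ) * (x : ℂ)))
    = if n = 0 then 1 else 0 := by
  rw [integral_Ico_eq_integral_Ioc, ← intervalIntegral.integral_of_le zero_le_one]
  split_ifs with h
  · subst h
    simp
  · have hc : 2 * (Real.pi : ℂ) * I * (n : ℂ) ≠ 0 := by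
      have h1 : (Real.pi : ℂ) ≠ 0 := by exact_mod_cast Real.pi_ne_zero
      have h2 : (n : ℂ) ≠ 0 := by exact_mod_cast h
      simp [h1, h2, Complex.I_ne_zero]
    have h3 : (fun x : ℝ => Complex.exp (2 * (Real.pi : ℂ) * I * ((n : ℂ) * (x : ℂ))))
        = fun x : ℝ => Complex.exp (2 * (Real.pi : ℂ) * I * (n : ℂ) * (x : ℂ)) := by
      funext x
      congr 1
      ring
    rw [h3, integral_exp_mul_complex hc]
    have h4 : Complex.exp (2 * (Real.pi : ℂ) * I * (n : ℂ) * ((1 : ℝ) : ℂ)) = 1 := by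
      have := Complex.exp_int_mul_two_pi_mul_I n
      rw [← this]
      congr 1
      push_cast
      ring
    rw [h4]
    simp

lemma int_ek (m : ℤ × ℤ) : ∫ z, ek m z ∂mS = if m = 0 then 1 else 0 := by
  unfold mS
  have h1 : ∫ z in Helper87.NF.sq, ek m z = ∫ p in Set.Ico (0 : ℝ) 1 ×ˢ Set.Ico (0 : ℝ) 1,
      Complex.exp (2 * (Real.pi : ℂ) * I * ((m.1 : ℂ) * (p.1 : ℂ))) *
      Complex.exp (2 * (Real.pi : ℂ) * I * ((m.2 : ℂ) * (p.2 : ℂ))) := by
    rw [sq_eq, ← MeasurePreserving.setIntegral_preimage_emb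
      Complex.volume_preserving_equiv_real_prod (Complex.measurableEquivRealProd).measurableEmbedding]
    apply setIntegral_congr_fun
    · rw [← sq_eq]; exact meas_sq
    · intro z _
      simp only [Complex.measurableEquivRealProd_apply]
      unfold ek
      rw [← Complex.exp_add]
      congr 1
      push_cast
      ring
  rw [h1, Measure.volume_eq_prod, setIntegral_prod_mul
    (fun x : ℝ => Complex.exp (2 * (Real.pi : ℂ) * I * ((m.1 : ℂ) * (x : ℂ))))
    (fun y : ℝ => Complex.exp (2 * (Real.pi : ℂ) * I * ((m.2 : ℂ) * (y : ℂ)))), one_dim, one_dim]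
  by_cases ha : m.1 = 0
  · by_cases hb : m.2 = 0
    · rw [if_pos ha, if_pos hb, if_pos (Prod.ext ha hb)]; simp
    · have hm : ¬ m = 0 := fun h => hb (by rw [h]; rfl)
      rw [if_neg hb, if_neg hm]; simp
  · have hm : ¬ m = 0 := fun h => ha (by rw [h]; rfl)
    rw [if_neg ha, if_neg hm]; simp

lemma int_conj_ek (k l : ℤ × ℤ) : ∫ z, conj (ek k z) * ek l z ∂mS = if k = l then 1 else 0 := by
  simp only [conj_ek_mul]
  rw [int_ek]
  by_cases h : k = l
  · rw [if_pos h, if_pos (by rw [h, sub_self])]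
  · rw [if_neg h, if_neg (fun h' => h (sub_eq_zero.mp h').symm)]

instance fin_mS : IsFiniteMeasure mS := by
  refine ⟨?_⟩
  unfold mS
  rw [Measure.restrict_apply_univ, sq_eq, (Complex.volume_preserving_equiv_real_prod).measure_preimage
    ((measurableSet_Ico.prod measurableSet_Ico).nullMeasurableSet), Measure.volume_eq_prod,
    Measure.prod_prod]
  simp

lemma cont_tp (s : Finset (ℤ × ℤ)) (c : ℤ × ℤ → ℂ) : Continuous (tp s c) := by
  unfold tp
  exact continuous_finsetSum _ (fun k _ => continuous_const.mul (cont_ek k))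

lemma norm_tp (s : Finset (ℤ × ℤ)) (c : ℤ × ℤ → ℂ) (z : ℂ) : ‖tp s c z‖ ≤ ∑ k ∈ s, ‖c k‖ := by
  unfold tp
  refine (norm_sum_le _ _).trans (Finset.sum_le_sum fun k _ => ?_)
  rw [norm_mul, norm_ek, mul_one]

lemma memLp_tp (s : Finset (ℤ × ℤ)) (c : ℤ × ℤ → ℂ) (p : ℝ≥0∞) : MemLp (tp s c) p mS :=
  MemLp.of_bound (cont_tp s c).aestronglyMeasurable (∑ k ∈ s, ‖c k‖)
    (Filter.Eventually.of_forall (norm_tp s c))

lemma integ_ek_mul (k : ℤ × ℤ) (Y : ℂ → ℂ) (hY : Integrable Y mS) :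
    Integrable (fun z => conj (ek k z) * Y z) mS := by
  refine hY.bdd_mul (c := 1) ((Complex.continuous_conj.comp (cont_ek k)).aestronglyMeasurable) ?_
  refine Filter.Eventually.of_forall fun z => ?_
  simp [norm_ek]

lemma item2 (s : Finset (ℤ × ℤ)) (c : ℤ × ℤ → ℂ) (k : ℤ × ℤ) :
    cf (tp s c) k = if k ∈ s then c k else 0 := by
  unfold cf
  have h1 : ∀ z, conj (ek k z) * tp s c z = ∑ l ∈ s, c l * (conj (ek k z) * ek l z) := by
    intro z
    unfold tp
    rw [Finset.mul_sum]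
    exact Finset.sum_congr rfl fun l _ => by ring
  simp only [h1]
  rw [integral_finsetSum]
  · simp only [integral_const_mul, int_conj_ek]
    simp
  · intro l _
    apply Integrable.const_mul
    apply integ_ek_mul
    have h2 : MemLp (ek l) 1 mS := MemLp.of_bound (cont_ek l).aestronglyMeasurable 1
      (Filter.Eventually.of_forall fun z => (norm_ek l z).le)
    exact h2.integrable le_rfl

lemma item3 (s : Finset (ℤ × ℤ)) (c : ℤ × ℤ → ℂ) (Y : ℂ → ℂ) (hY : MemLp Y 2 mS) :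
    ∫ z, conj (tp s c z) * Y z ∂mS = ∑ k ∈ s, conj (c k) * cf Y k := by
  have hYi : Integrable Y mS := hY.integrable one_le_two
  have h1 : ∀ z, conj (tp s c z) * Y z = ∑ l ∈ s, conj (c l) * (conj (ek l z) * Y z) := by
    intro z
    unfold tp
    rw [map_sum, Finset.sum_mul]
    exact Finset.sum_congr rfl fun l _ => by rw [map_mul]; ring
  simp only [h1]
  rw [integral_finsetSum]
  · simp only [integral_const_mul]
    rfl
  · intro l _
    exact (integ_ek_mul l Y hYi).const_mul _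

lemma item1c (s : Finset (ℤ × ℤ)) (c : ℤ × ℤ → ℂ) :
    ∫ z, conj (tp s c z) * tp s c z ∂mS = ((∑ k ∈ s, normSq (c k) : ℝ) : ℂ) := by
  rw [item3 s c _ (memLp_tp s c 2)]
  push_cast
  refine Finset.sum_congr rfl fun k hk => ?_
  rw [item2, if_pos hk, mul_comm, Complex.mul_conj]

lemma conj_mul_norm (w : ℂ) : conj w * w = ((‖w‖ ^ 2 : ℝ) : ℂ) := by
  rw [mul_comm, Complex.mul_conj, Complex.normSq_eq_norm_sq]

lemma item1 (s : Finset (ℤ × ℤ)) (c : ℤ × ℤ → ℂ) :
    ∫ z, ‖tp s c z‖ ^ 2 ∂mS = ∑ k ∈ s, normSq (c k) := by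
  have h := item1c s c
  simp only [conj_mul_norm] at h
  have h2 : ∫ z, ((‖tp s c z‖ ^ 2 : ℝ) : ℂ) ∂mS = ((∫ z, ‖tp s c z‖ ^ 2 ∂mS : ℝ) : ℂ) :=
    integral_ofReal
  rw [h2] at h
  exact_mod_cast h

lemma integ_conj_mul (s : Finset (ℤ × ℤ)) (c : ℤ × ℤ → ℂ) (Y : ℂ → ℂ) (hY : Integrable Y mS) :
    Integrable (fun z => conj (tp s c z) * Y z) mS := by
  refine hY.bdd_mul (c := ∑ k ∈ s, ‖c k‖)
    ((Complex.continuous_conj.comp (cont_tp s c)).aestronglyMeasurable) ?_
  refine Filter.Eventually.of_forall fun z => ?_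
  simpa using norm_tp s c z

lemma item4 (s : Finset (ℤ × ℤ)) (Y : ℂ → ℂ) (hY : MemLp Y 2 mS) :
    ∫ z, ‖Y z - tp s (cf Y) z‖ ^ 2 ∂mS = (∫ z, ‖Y z‖ ^ 2 ∂mS) - ∑ k ∈ s, normSq (cf Y k) := by
  have hYi : Integrable Y mS := hY.integrable one_le_two
  have h1 : ∀ z, ‖Y z - tp s (cf Y) z‖ ^ 2
      = (‖Y z‖ ^ 2 - 2 * (conj (tp s (cf Y) z) * Y z).re) + ‖tp s (cf Y) z‖ ^ 2 := by
    intro z
    rw [← Complex.normSq_eq_norm_sq, ← Complex.normSq_eq_norm_sq, ← Complex.normSq_eq_norm_sq,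
      Complex.normSq_sub]
    rw [mul_comm (conj _) (Y z)]
    ring
  have i1 : Integrable (fun z => ‖Y z‖ ^ 2) mS := hY.integrable_norm_pow two_ne_zero
  have i2 := integ_conj_mul s (cf Y) Y hYi
  have i2' : Integrable (fun z => (conj (tp s (cf Y) z) * Y z).re) mS := i2.re
  have i3 : Integrable (fun z => ‖tp s (cf Y) z‖ ^ 2) mS :=
    (memLp_tp s (cf Y) 2).integrable_norm_pow two_ne_zero
  simp only [h1]
  have e1 : ∫ z, (‖Y z‖ ^ 2 - 2 * (conj (tp s (cf Y) z) * Y z).re + ‖tp s (cf Y) z‖ ^ 2) ∂mS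
      = (∫ z, (‖Y z‖ ^ 2 - 2 * (conj (tp s (cf Y) z) * Y z).re) ∂mS)
        + ∫ z, ‖tp s (cf Y) z‖ ^ 2 ∂mS := integral_add (i1.sub (i2'.const_mul 2)) i3
  rw [e1, integral_sub i1 (i2'.const_mul 2), integral_const_mul, item1]
  have h5 : ∫ z, (conj (tp s (cf Y) z) * Y z).re ∂mS = ∑ k ∈ s, normSq (cf Y k) := by
    have h6 : ∫ z, (conj (tp s (cf Y) z) * Y z).re ∂mS
        = (∫ z, conj (tp s (cf Y) z) * Y z ∂mS).re := integral_re i2
    rw [h6, item3 s _ Y hY, Complex.re_sum]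
    refine Finset.sum_congr rfl fun k _ => ?_
    rw [mul_comm, Complex.mul_conj, Complex.ofReal_re]
  rw [h5]
  ring

end A1

theorem pf_A1 : Helper87.NF.StA1 :=
  ⟨A1.item1, A1.item2, A1.item3, A1.item4⟩

end Helper76.IF
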