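import Pool.Agent.Helper76.IF.St

/-!
# Module A2: completeness of the exponentials on the unit square
-/

set_option autoImplicit false

open MeasureTheory Complex Filter Topology
open scoped ENNReal NNReal ComplexConjugate

noncomputable section

namespace Helper76.IF

open Helper87.NF

namespace A2Aux

/-- the measure on `ℝ / ℤ` is normalised -/
local instance : MeasureSpace UnitAddCircle := ⟨AddCircle.haarAddCircle⟩

local instance : Measure.IsAddHaarMeasure (volume : Measure UnitAddCircle) :=
  inferInstanceAs (Measure.IsAddHaarMeasure AddCircle.haarAddCircle)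

local instance : IsProbabilityMeasure (volume : Measure UnitAddCircle) :=
  inferInstanceAs (IsProbabilityMeasure AddCircle.haarAddCircle)

/-- the half-open box -/
def bxS : Set (Fin 2 → ℝ) := {x | ∀ i, x i ∈ Set.Ioc ((0 : Fin 2 → ℝ) i) ((0 : Fin 2 → ℝ) i + 1)}

/-- the other half-open box -/
def bxB : Set (Fin 2 → ℝ) := Set.pi Set.univ (fun _ => Set.Ico (0 : ℝ) 1)

theorem bxS_ae : bxS =ᵐ[volume] bxB := by
  have h1 : bxS = Set.pi Set.univ (fun _ : Fin 2 => Set.Ioc (0 : ℝ) 1) := by
    ext x
    simp [bxS, Set.mem_pi]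
  rw [h1]
  unfold bxB
  have h2 := Measure.univ_pi_Ioc_ae_eq_Icc (μ := fun _ : Fin 2 => (volume : Measure ℝ))
    (f := fun _ => 0) (g := fun _ => 1)
  have h3 := Measure.univ_pi_Ico_ae_eq_Icc (μ := fun _ : Fin 2 => (volume : Measure ℝ))
    (f := fun _ => 0) (g := fun _ => 1)
  exact h2.trans h3.symm

/-- the map from the torus to the unit square -/
def Ph (t : UnitAddTorus (Fin 2)) : ℂ :=
  Complex.measurableEquivPi.symm (UnitAddTorus.measurableEquivPiIoc (0 : Fin 2 → ℝ) t).1

theorem measS : MeasurableSet bxS :=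
  MeasurableSet.univ_pi' (fun _ => measurableSet_Ioc)

theorem measB : MeasurableSet bxB := MeasurableSet.univ_pi (fun _ => measurableSet_Ico)

theorem mp_Ph : MeasurePreserving Ph volume mS := by
  have h1 := UnitAddTorus.measurePreserving_equivPiIoc (0 : Fin 2 → ℝ)
  have h2 : MeasurePreserving (Subtype.val : bxS → (Fin 2 → ℝ))
      (Measure.comap Subtype.val volume) (volume.restrict bxS) :=
    ⟨measurable_subtype_coe, map_comap_subtype_coe measS volume⟩
  have h3 : volume.restrict bxS = volume.restrict bxB := Measure.restrict_congr_set bxS_ae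
  rw [h3] at h2
  have h4 : MeasurePreserving Complex.measurableEquivPi mS (volume.restrict bxB) := by
    have h5 := Complex.volume_preserving_equiv_pi.restrict_preimage measB
    have h6 : Complex.measurableEquivPi ⁻¹' bxB = sq := by
      ext z
      simp [bxB, Helper87.NF.sq, Set.mem_pi, Complex.measurableEquivPi_apply, and_assoc]
    rw [h6] at h5
    exact h5
  have h7 := h4.symm
  exact h7.comp (h2.comp h1)

theorem coe_Ph (t : UnitAddTorus (Fin 2)) :
    ((Ph t).re : UnitAddCircle) = t 0 ∧ ((Ph t).im : UnitAddCircle) = t 1 := by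
  have h := (UnitAddTorus.measurableEquivPiIoc (0 : Fin 2 → ℝ)).symm_apply_apply t
  have h' : (fun i => (((UnitAddTorus.measurableEquivPiIoc (0 : Fin 2 → ℝ) t).1 i : ℝ) :
      UnitAddCircle)) = t := h
  constructor
  · have := congrFun h' 0
    rw [← this]
    simp [Ph, Complex.measurableEquivPi_symm_apply]
  · have := congrFun h' 1
    rw [← this]
    simp [Ph, Complex.measurableEquivPi_symm_apply]

theorem ek_Ph (k : ℤ × ℤ) (t : UnitAddTorus (Fin 2)) :
    ek k (Ph t) = UnitAddTorus.mFourier ![k.1, k.2] t := by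
  obtain ⟨h0, h1⟩ := coe_Ph t
  simp only [UnitAddTorus.mFourier, ContinuousMap.coe_mk, Fin.prod_univ_two,
    Matrix.cons_val_zero, Matrix.cons_val_one]
  rw [← h0, ← h1, fourier_coe_apply, fourier_coe_apply, ← Complex.exp_add]
  unfold ek
  congr 1
  push_cast
  ring

end A2Aux

open A2Aux

local instance : MeasureSpace UnitAddCircle := ⟨AddCircle.haarAddCircle⟩

local instance : Measure.IsAddHaarMeasure (volume : Measure UnitAddCircle) :=
  inferInstanceAs (Measure.IsAddHaarMeasure AddCircle.haarAddCircle)

local instance : IsProbabilityMeasure (volume : Measure UnitAddCircle) :=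
  inferInstanceAs (IsProbabilityMeasure AddCircle.haarAddCircle)

theorem pf_A2 : Helper87.NF.StA2 := by
  intro Y hY
  have hmp := mp_Ph
  have hf : MemLp (fun t => Y (Ph t)) 2 volume := hY.comp_measurePreserving hmp
  have hmap : mS = Measure.map Ph volume := hmp.map_eq.symm
  have hae : AEMeasurable Ph volume := hmp.measurable.aemeasurable
  have hcoe := hf.coeFn_toLp
  have h1 : ∫ z, ‖Y z‖ ^ 2 ∂mS = ∫ t, ‖hf.toLp _ t‖ ^ 2 := by
    have hm : AEStronglyMeasurable (fun z => ‖Y z‖ ^ 2) (Measure.map Ph volume) := by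
      rw [← hmap]
      exact (hY.1.norm.pow 2)
    rw [hmap, integral_map hae hm]
    apply integral_congr_ae
    filter_upwards [hcoe] with t ht
    rw [ht]
  have h2 : ∀ k : ℤ × ℤ, cf Y k =
      UnitAddTorus.mFourierCoeff (hf.toLp _) ![k.1, k.2] := by
    intro k
    unfold cf UnitAddTorus.mFourierCoeff
    have hc : Continuous (fun z => conj (ek k z)) := by
      unfold ek
      fun_prop
    have hm : AEStronglyMeasurable (fun z => conj (ek k z) * Y z) (Measure.map Ph volume) := by
      rw [← hmap]
      exact hc.aestronglyMeasurable.mul hY.1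
    rw [hmap, integral_map hae hm]
    apply integral_congr_ae
    filter_upwards [hcoe] with t ht
    rw [ht, UnitAddTorus.mFourier_neg, smul_eq_mul, ek_Ph]
  have h3 := UnitAddTorus.hasSum_sq_mFourierCoeff (hf.toLp _)
  rw [← h1] at h3
  have h4 := ((finTwoArrowEquiv ℤ).symm.hasSum_iff).2 h3
  have h5 : (fun k : ℤ × ℤ => normSq (cf Y k)) =
      (fun i => ‖UnitAddTorus.mFourierCoeff (hf.toLp _) i‖ ^ 2) ∘ (finTwoArrowEquiv ℤ).symm := by
    funext k
    rw [Function.comp_apply, Complex.normSq_eq_norm_sq, h2 k]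
    rfl
  rw [h5]
  exact h4

end Helper76.IF
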