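import Pool.Agent.Helper76.IF.St

/-!
# Module B1 of the flow theorem for the torus (MP_3dd6d4_an): integration by parts
-/

set_option autoImplicit false
set_option maxSynthPendingDepth 3

open MeasureTheory Complex Filter Topology
open scoped ENNReal NNReal ComplexConjugate

noncomputable section

namespace Helper76.IF

open Helper87.NF Helper85.IW

namespace B1aux

/-- `lx` as a continuous linear map -/
def lxL : ℂ →L[ℝ] E :=
  ((2 : ℝ)⁻¹ • ContinuousLinearMap.id ℝ ℂ).prod ((2 : ℝ)⁻¹ • ContinuousLinearMap.id ℝ ℂ)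

/-- `ly` as a continuous linear map -/
def lyL : ℂ →L[ℝ] E :=
  (ContinuousLinearMap.mul ℝ ℂ (I / 2)).prod (-(ContinuousLinearMap.mul ℝ ℂ (I / 2)))

theorem lxL_apply (w : ℂ) : lxL w = lx w := by
  have h : ((2 : ℝ)⁻¹ : ℝ) • w = w / 2 := by
    rw [Complex.real_smul]; push_cast; ring
  show (((2 : ℝ)⁻¹ : ℝ) • w, ((2 : ℝ)⁻¹ : ℝ) • w) = (w / 2, w / 2)
  rw [h]

theorem lyL_apply (w : ℂ) : lyL w = ly w := by
  show ((I / 2) * w, -((I / 2) * w)) = (I * w / 2, -(I * w / 2))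
  have h : (I / 2) * w = I * w / 2 := by ring
  rw [h]

theorem integ {X : Type*} [NormedAddCommGroup X] (f : ℂ → X) (hf : Continuous f) :
    Integrable f mS := by
  have h : IntegrableOn f (Metric.closedBall (0 : ℂ) 2) :=
    hf.continuousOn.integrableOn_compact (isCompact_closedBall _ _)
  refine (h.mono_set ?_ : IntegrableOn f sq)
  rintro z ⟨h1, h2, h3, h4⟩
  rw [mem_closedBall_zero_iff]
  calc ‖z‖ ≤ |z.re| + |z.im| := Complex.norm_le_abs_re_add_abs_im z
    _ ≤ 2 := by rw [abs_of_nonneg h1, abs_of_nonneg h3]; linarith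

theorem tp_add (s : Finset (ℤ × ℤ)) (c d : ℤ × ℤ → ℂ) (z : ℂ) :
    tp s c z + tp s d z = tp s (fun k => c k + d k) z := by
  unfold tp
  rw [← Finset.sum_add_distrib]
  exact Finset.sum_congr rfl fun k _ => by ring

theorem tp_mul (s : Finset (ℤ × ℤ)) (a : ℂ) (c : ℤ × ℤ → ℂ) (z : ℂ) :
    a * tp s c z = tp s (fun k => a * c k) z := by
  unfold tp
  rw [Finset.mul_sum]
  exact Finset.sum_congr rfl fun k _ => by ring

theorem tp_congr (s : Finset (ℤ × ℤ)) {c d : ℤ × ℤ → ℂ} (h : ∀ k, c k = d k) (z : ℂ) :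
    tp s c z = tp s d z := by
  rw [show c = d from funext h]

theorem nsq (w : ℂ) : ((normSq w : ℝ) : ℂ) = w * conj w := (Complex.mul_conj w).symm

theorem cj (k : ℤ × ℤ) : conj (om k) = (Real.pi : ℂ) * ((k.1 : ℂ) - (k.2 : ℂ) * I) := by
  unfold om
  simp only [map_mul, map_add, Complex.conj_ofReal, Complex.conj_I, map_intCast]
  ring

theorem tp_sub (s : Finset (ℤ × ℤ)) (a : ℂ) (c d : ℤ × ℤ → ℂ) (z : ℂ) :
    a * (tp s c z - tp s d z) = tp s (fun k => a * (c k - d k)) z := by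
  unfold tp
  rw [← Finset.sum_sub_distrib, Finset.mul_sum]
  exact Finset.sum_congr rfl fun k _ => by ring

/-- derivatives of the jet map, periodicity -/
theorem dF (hA0 : StA0) (N : ℕ) (c : ℤ × ℤ → ℂ) :
    ContDiff ℝ 2 (tF N c) ∧ (∀ z, fderiv ℝ (tF N c) z 1 = tX1 N c z) ∧
      (∀ z, fderiv ℝ (tF N c) z I = tX2 N c z) ∧ (∀ z, tF N c (z + 1) = tF N c z) ∧
      (∀ z, tF N c (z + I) = tF N c z) := by
  obtain ⟨f1, f2, f3, f4, f5, _⟩ := hA0 (Bx N) (fun k => mF k * c k)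
  obtain ⟨g1, g2, g3, g4, g5, _⟩ := hA0 (Bx N) (fun k => mG k * c k)
  have hd : ∀ z v, fderiv ℝ (tF N c) z v
      = (fderiv ℝ (tp (Bx N) (fun k => mF k * c k)) z v,
          fderiv ℝ (tp (Bx N) (fun k => mG k * c k)) z v) := by
    intro z v
    have h := ((f1.differentiable (by norm_num)) z).hasFDerivAt.prodMk
      ((g1.differentiable (by norm_num)) z).hasFDerivAt
    have h2 : HasFDerivAt (tF N c) ((fderiv ℝ (tp (Bx N) (fun k => mF k * c k)) z).prod
      (fderiv ℝ (tp (Bx N) (fun k => mG k * c k)) z)) z := h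
    rw [h2.fderiv]
    rfl
  refine ⟨f1.prodMk g1, ?_, ?_, ?_, ?_⟩
  · intro z
    rw [hd, f2, g2]
    unfold tX1 tA tC tB
    rw [tp_add, tp_add]
    refine Prod.ext ?_ ?_
    · refine tp_congr _ (fun k => ?_) z
      simp only [mF, mA, mC, nsq, cj]
      unfold om
      linear_combination (2 * (Real.pi : ℂ) ^ 2 * (k.1 : ℂ) * (k.2 : ℂ) * c k * I
        + 2 * (Real.pi : ℂ) ^ 2 * (k.1 : ℂ) ^ 2 * c k) * Complex.I_sq
    · refine tp_congr _ (fun k => ?_) z
      simp only [mG, mB, mC, nsq, cj]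
      unfold om
      linear_combination (-(2 * (Real.pi : ℂ) ^ 2 * (k.1 : ℂ) * (k.2 : ℂ) * c k * I)
        + 2 * (Real.pi : ℂ) ^ 2 * (k.1 : ℂ) ^ 2 * c k) * Complex.I_sq
  · intro z
    rw [hd, f3, g3]
    unfold tX2 tA tC tB
    rw [tp_sub, tp_sub]
    refine Prod.ext ?_ ?_
    · refine tp_congr _ (fun k => ?_) z
      simp only [mF, mA, mC, nsq, cj]
      unfold om
      ring
    · refine tp_congr _ (fun k => ?_) z
      simp only [mG, mB, mC, nsq, cj]
      unfold om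
      ring
  · intro z
    exact Prod.ext (f4 z) (g4 z)
  · intro z
    exact Prod.ext (f5 z) (g5 z)

/-- the jet map in terms of the derivatives of the polynomial -/
theorem jet (hA0 : StA0) (N : ℕ) (d : ℤ × ℤ → ℂ) (z : ℂ) :
    tF N d z = lx (fderiv ℝ (tp (Bx N) d) z 1) + ly (fderiv ℝ (tp (Bx N) d) z I) := by
  obtain ⟨_, f2, f3, _⟩ := hA0 (Bx N) d
  rw [f2, f3]
  unfold tF lx ly
  have e1 : tp (Bx N) (fun k => 2 * (Real.pi : ℂ) * I * (k.1 : ℂ) * d k) z / 2
      + I * tp (Bx N) (fun k => 2 * (Real.pi : ℂ) * I * (k.2 : ℂ) * d k) z / 2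
      = tp (Bx N) (fun k => mF k * d k) z := by
    rw [div_eq_inv_mul, mul_div_right_comm, tp_mul, tp_mul, tp_add]
    refine tp_congr _ (fun k => ?_) z
    unfold mF om
    ring
  have e2 : tp (Bx N) (fun k => 2 * (Real.pi : ℂ) * I * (k.1 : ℂ) * d k) z / 2
      + -(I * tp (Bx N) (fun k => 2 * (Real.pi : ℂ) * I * (k.2 : ℂ) * d k) z / 2)
      = tp (Bx N) (fun k => mG k * d k) z := by
    rw [div_eq_inv_mul, mul_div_right_comm, ← neg_mul, tp_mul, tp_mul, tp_add]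
    refine tp_congr _ (fun k => ?_) z
    unfold mG
    rw [cj]
    ring
  rw [Prod.mk_add_mk, e1, e2]

/-- the product rule -/
theorem prodRule (G : E → (E →L[ℝ] ℝ)) (hG : ContDiff ℝ 1 G) (F : ℂ → E) (hF : ContDiff ℝ 2 F)
    (ψ : ℂ → ℂ) (hψ : ContDiff ℝ 2 ψ) (L : ℂ →L[ℝ] E) :
    ContDiff ℝ 1 (fun z => G (F z) (L (ψ z))) ∧
    (∀ v, Integrable (fun z => G (F z) (L (fderiv ℝ ψ z v))) mS) ∧
    (∀ v, Integrable (fun z => fderiv ℝ G (F z) (fderiv ℝ F z v) (L (ψ z))) mS) ∧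
    ∀ z v, fderiv ℝ (fun z => G (F z) (L (ψ z))) z v
      = fderiv ℝ G (F z) (fderiv ℝ F z v) (L (ψ z)) + G (F z) (L (fderiv ℝ ψ z v)) := by
  have hF1 : ContDiff ℝ 1 F := hF.of_le (by norm_num)
  have hψ1 : ContDiff ℝ 1 ψ := hψ.of_le (by norm_num)
  have hGF : ContDiff ℝ 1 (fun z => G (F z)) := hG.comp hF1
  have hLψ : ContDiff ℝ 1 (fun z => L (ψ z)) := L.contDiff.comp hψ1
  refine ⟨hGF.clm_apply hLψ, ?_, ?_, ?_⟩
  · intro v
    have h1 : Continuous (fun z : ℂ => fderiv ℝ ψ z v) :=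
      (hψ1.continuous_fderiv (by norm_num)).clm_apply continuous_const
    exact integ _ (hGF.continuous.clm_apply (L.continuous.comp h1))
  · intro v
    have h1 : Continuous (fun z : ℂ => fderiv ℝ F z v) :=
      (hF1.continuous_fderiv (by norm_num)).clm_apply continuous_const
    have h2 : Continuous (fun z : ℂ => fderiv ℝ G (F z)) :=
      (hG.continuous_fderiv (by norm_num)).comp hF1.continuous
    exact integ _ ((h2.clm_apply h1).clm_apply hLψ.continuous)
  · intro z v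
    have hGz : HasFDerivAt G (fderiv ℝ G (F z)) (F z) :=
      ((hG.differentiable (by norm_num)) (F z)).hasFDerivAt
    have hFz : HasFDerivAt F (fderiv ℝ F z) z := ((hF1.differentiable (by norm_num)) z).hasFDerivAt
    have hψz : HasFDerivAt ψ (fderiv ℝ ψ z) z := ((hψ1.differentiable (by norm_num)) z).hasFDerivAt
    have h := (hGz.comp z hFz).clm_apply (L.hasFDerivAt.comp z hψz)
    have h' : HasFDerivAt (fun z => G (F z) (L (ψ z))) _ z := h
    rw [h'.fderiv]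
    simp [add_comm]

end B1aux

open B1aux

/-- module B1 -/
theorem pf_B1 (hA0 : Helper87.NF.StA0) (hP : Helper76.IF.StPer) : Helper87.NF.StB1 := by
  intro G hG N c d
  obtain ⟨hF, hFx, hFy, hF1, hFI⟩ := dF hA0 N c
  obtain ⟨hψ, _, _, hψ1, hψI, _⟩ := hA0 (Bx N) d
  obtain ⟨a1, a2, a3, a4⟩ := prodRule G hG (tF N c) hF (tp (Bx N) d) hψ lxL
  obtain ⟨b1, b2, b3, b4⟩ := prodRule G hG (tF N c) hF (tp (Bx N) d) hψ lyL
  have h1 := (hP _ a1 (fun z => by simp only [hF1, hψ1]) (fun z => by simp only [hFI, hψI])).1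
  have h2 := (hP _ b1 (fun z => by simp only [hF1, hψ1]) (fun z => by simp only [hFI, hψI])).2
  simp only [a4] at h1
  simp only [b4] at h2
  have ia2 := a2 1
  have ia3 := a3 1
  have ib2 := b2 I
  have ib3 := b3 I
  rw [integral_add ia3 ia2] at h1
  rw [integral_add ib3 ib2] at h2
  have e1 : ∫ z, G (tF N c z) (tF N d z) ∂mS
      = (∫ z, G (tF N c z) (lxL (fderiv ℝ (tp (Bx N) d) z 1)) ∂mS)
        + ∫ z, G (tF N c z) (lyL (fderiv ℝ (tp (Bx N) d) z I)) ∂mS := by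
    rw [← integral_add ia2 ib2]
    refine integral_congr_ae (Filter.Eventually.of_forall fun z => ?_)
    simp only [jet hA0 N d z, map_add, lxL_apply, lyL_apply]
  have e2 : ∫ z, (fderiv ℝ G (tF N c z) (tX1 N c z) (lx (tp (Bx N) d z))
        + fderiv ℝ G (tF N c z) (tX2 N c z) (ly (tp (Bx N) d z))) ∂mS
      = (∫ z, fderiv ℝ G (tF N c z) (fderiv ℝ (tF N c) z 1) (lxL (tp (Bx N) d z)) ∂mS)
        + ∫ z, fderiv ℝ G (tF N c z) (fderiv ℝ (tF N c) z I) (lyL (tp (Bx N) d z)) ∂mS := by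
    rw [← integral_add ia3 ib3]
    refine integral_congr_ae (Filter.Eventually.of_forall fun z => ?_)
    simp only [hFx, hFy, lxL_apply, lyL_apply]
  have key : ∀ a b c d : ℝ, a + b = 0 → c + d = 0 → b + d = -(a + c) :=
    fun a b c d h h' => by linarith
  rw [e1, e2]
  exact key _ _ _ _ h1 h2

end Helper76.IF
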