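import Pool.Agent.Helper76.IF.St

/-!
# B2: the null Lagrangian on the torus (MP_3dd6d4_an, n = 1)
-/

set_option autoImplicit false
set_option maxSynthPendingDepth 3

open MeasureTheory Complex Filter Topology
open scoped ENNReal NNReal ComplexConjugate

noncomputable section

namespace Helper76.IF

open Helper87.NF Helper85.IW

private theorem b2_add (s : Finset (ℤ × ℤ)) (f g : ℤ × ℤ → ℂ) (z : ℂ) :
    tp s f z + tp s g z = tp s (fun k => f k + g k) z := by
  unfold tp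
  rw [← Finset.sum_add_distrib]
  exact Finset.sum_congr rfl fun k _ => (add_mul _ _ _).symm

private theorem b2_I_sub (s : Finset (ℤ × ℤ)) (f g : ℤ × ℤ → ℂ) (z : ℂ) :
    I * (tp s f z - tp s g z) = tp s (fun k => I * (f k - g k)) z := by
  unfold tp
  rw [← Finset.sum_sub_distrib, Finset.mul_sum]
  exact Finset.sum_congr rfl fun k _ => by ring

private theorem b2_congr (s : Finset (ℤ × ℤ)) (f g : ℤ × ℤ → ℂ) (z : ℂ) (h : ∀ k, f k = g k) :
    tp s f z = tp s g z := by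
  rw [funext h]

private theorem om_conj (k : ℤ × ℤ) :
    conj (om k) = (Real.pi : ℂ) * ((k.1 : ℂ) - (k.2 : ℂ) * I) := by
  unfold om
  rw [map_mul, map_add, map_mul, Complex.conj_ofReal, Complex.conj_I]
  have h1 : conj ((k.1 : ℤ) : ℂ) = ((k.1 : ℤ) : ℂ) := by
    rw [← Complex.ofReal_intCast, Complex.conj_ofReal]
  have h2 : conj ((k.2 : ℤ) : ℂ) = ((k.2 : ℤ) : ℂ) := by
    rw [← Complex.ofReal_intCast, Complex.conj_ofReal]
  rw [h1, h2]
  ring

private theorem mC_eq (k : ℤ × ℤ) : mC k = -(conj (om k) * om k) := by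
  unfold mC
  rw [← Complex.normSq_eq_conj_mul_self]

private theorem x_F (k : ℤ × ℤ) :
    2 * (Real.pi : ℂ) * I * (k.1 : ℂ) * mF k = mA k + mC k := by
  rw [mC_eq]
  unfold mF mA
  rw [om_conj]
  unfold om
  linear_combination (2 * (Real.pi : ℂ) * (k.1 : ℂ) *
    ((Real.pi : ℂ) * ((k.1 : ℂ) + (k.2 : ℂ) * I))) * Complex.I_sq

private theorem x_G (k : ℤ × ℤ) :
    2 * (Real.pi : ℂ) * I * (k.1 : ℂ) * mG k = mC k + mB k := by
  rw [mC_eq]
  unfold mG mB
  rw [om_conj]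
  unfold om
  linear_combination (2 * (Real.pi : ℂ) * (k.1 : ℂ) *
    ((Real.pi : ℂ) * ((k.1 : ℂ) - (k.2 : ℂ) * I))) * Complex.I_sq

private theorem y_F (k : ℤ × ℤ) :
    2 * (Real.pi : ℂ) * I * (k.2 : ℂ) * mF k = I * (mC k - mA k) := by
  rw [mC_eq]
  unfold mF mA
  rw [om_conj]
  unfold om
  ring

private theorem y_G (k : ℤ × ℤ) :
    2 * (Real.pi : ℂ) * I * (k.2 : ℂ) * mG k = I * (mB k - mC k) := by
  rw [mC_eq]
  unfold mG mB
  rw [om_conj]
  unfold om
  ring

section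

variable (hA0 : StA0) (N : ℕ) (c : ℤ × ℤ → ℂ)

include hA0

private theorem d_tp (s : Finset (ℤ × ℤ)) (f : ℤ × ℤ → ℂ) (z : ℂ) :
    HasFDerivAt (tp s f) (fderiv ℝ (tp s f) z) z :=
  (((hA0 s f).1.differentiable (by norm_num)) z).hasFDerivAt

private theorem F_x (z : ℂ) : fderiv ℝ (tF N c) z 1 = tX1 N c z := by
  have h := ((d_tp hA0 (Bx N) (fun k => mF k * c k) z).prodMk
    (d_tp hA0 (Bx N) (fun k => mG k * c k) z))
  have h' : fderiv ℝ (tF N c) z = _ := h.fderiv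
  rw [h', ContinuousLinearMap.prod_apply]
  unfold tX1 tA tB tC
  rw [(hA0 _ _).2.1, (hA0 _ _).2.1, b2_add, b2_add]
  refine Prod.ext ?_ ?_
  · exact b2_congr _ _ _ _ fun k => by rw [← mul_assoc, x_F, add_mul]
  · exact b2_congr _ _ _ _ fun k => by rw [← mul_assoc, x_G, add_mul]

private theorem F_y (z : ℂ) : fderiv ℝ (tF N c) z I = tX2 N c z := by
  have h := ((d_tp hA0 (Bx N) (fun k => mF k * c k) z).prodMk
    (d_tp hA0 (Bx N) (fun k => mG k * c k) z))
  have h' : fderiv ℝ (tF N c) z = _ := h.fderiv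
  rw [h', ContinuousLinearMap.prod_apply]
  unfold tX2 tA tB tC
  rw [(hA0 _ _).2.2.1, (hA0 _ _).2.2.1, b2_I_sub, b2_I_sub]
  refine Prod.ext ?_ ?_
  · exact b2_congr _ _ _ _ fun k => by rw [← mul_assoc, y_F]; ring
  · exact b2_congr _ _ _ _ fun k => by rw [← mul_assoc, y_G]; ring

private theorem cd_F : ContDiff ℝ 2 (tF N c) :=
  (hA0 (Bx N) (fun k => mF k * c k)).1.prodMk (hA0 (Bx N) (fun k => mG k * c k)).1

private theorem cd_X1 : ContDiff ℝ 2 (tX1 N c) :=
  ((hA0 (Bx N) (fun k => mA k * c k)).1.add (hA0 (Bx N) (fun k => mC k * c k)).1).prodMk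
    ((hA0 (Bx N) (fun k => mC k * c k)).1.add (hA0 (Bx N) (fun k => mB k * c k)).1)

private theorem cd_X2 : ContDiff ℝ 2 (tX2 N c) :=
  (contDiff_const.mul ((hA0 (Bx N) (fun k => mC k * c k)).1.sub
    (hA0 (Bx N) (fun k => mA k * c k)).1)).prodMk
    (contDiff_const.mul ((hA0 (Bx N) (fun k => mB k * c k)).1.sub
      (hA0 (Bx N) (fun k => mC k * c k)).1))

private theorem mixed (z : ℂ) : fderiv ℝ (tX2 N c) z 1 = fderiv ℝ (tX1 N c) z I := by
  have e1 : tX1 N c = fun z => (tp (Bx N) (fun k => mA k * c k + mC k * c k) z,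
      tp (Bx N) (fun k => mC k * c k + mB k * c k) z) := by
    funext w
    unfold tX1 tA tB tC
    rw [b2_add, b2_add]
  have e2 : tX2 N c = fun z => (tp (Bx N) (fun k => I * (mC k * c k - mA k * c k)) z,
      tp (Bx N) (fun k => I * (mB k * c k - mC k * c k)) z) := by
    funext w
    unfold tX2 tA tB tC
    rw [b2_I_sub, b2_I_sub]
  rw [e1, e2]
  have h1 := ((d_tp hA0 (Bx N) (fun k => mA k * c k + mC k * c k) z).prodMk
    (d_tp hA0 (Bx N) (fun k => mC k * c k + mB k * c k) z)).fderiv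
  have h2 := ((d_tp hA0 (Bx N) (fun k => I * (mC k * c k - mA k * c k)) z).prodMk
    (d_tp hA0 (Bx N) (fun k => I * (mB k * c k - mC k * c k)) z)).fderiv
  rw [h1, h2, ContinuousLinearMap.prod_apply, ContinuousLinearMap.prod_apply,
    (hA0 _ _).2.1, (hA0 _ _).2.1, (hA0 _ _).2.2.1, (hA0 _ _).2.2.1]
  refine Prod.ext ?_ ?_
  · refine b2_congr _ _ _ _ fun k => ?_
    linear_combination (2 * (Real.pi : ℂ) * I * (k.2 : ℂ) * c k) * x_F k
      - (2 * (Real.pi : ℂ) * I * (k.1 : ℂ) * c k) * y_F k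
  · refine b2_congr _ _ _ _ fun k => ?_
    linear_combination (2 * (Real.pi : ℂ) * I * (k.2 : ℂ) * c k) * x_G k
      - (2 * (Real.pi : ℂ) * I * (k.1 : ℂ) * c k) * y_G k

end

private theorem sq_int {f : ℂ → ℝ} (hf : Continuous f) : Integrable f mS := by
  have h1 : sq ⊆ Metric.closedBall (0 : ℂ) 2 := by
    intro z hz
    obtain ⟨h1, h2, h3, h4⟩ := hz
    rw [mem_closedBall_zero_iff]
    refine (Complex.norm_le_abs_re_add_abs_im z).trans ?_
    rw [abs_of_nonneg h1, abs_of_nonneg h3]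
    linarith
  exact (hf.continuousOn.integrableOn_compact (isCompact_closedBall (0 : ℂ) 2)).mono_set h1

theorem pf_B2 (hA0 : Helper87.NF.StA0) (hP : Helper76.IF.StPer) : Helper87.NF.StB2 := by
  intro η hη N c
  have cF1 : ContDiff ℝ 1 (tF N c) := (cd_F hA0 N c).of_le (by norm_num)
  have cX1 : ContDiff ℝ 1 (tX1 N c) := (cd_X1 hA0 N c).of_le (by norm_num)
  have cX2 : ContDiff ℝ 1 (tX2 N c) := (cd_X2 hA0 N c).of_le (by norm_num)
  have per1 : ∀ (s : Finset (ℤ × ℤ)) (f : ℤ × ℤ → ℂ) (z : ℂ), tp s f (z + 1) = tp s f z :=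
    fun s f z => (hA0 s f).2.2.2.1 z
  have perI : ∀ (s : Finset (ℤ × ℤ)) (f : ℤ × ℤ → ℂ) (z : ℂ), tp s f (z + I) = tp s f z :=
    fun s f z => (hA0 s f).2.2.2.2.1 z
  let Φ₁ : ℂ → ℝ := fun z => η (tF N c z) (tX2 N c z)
  let Φ₂ : ℂ → ℝ := fun z => η (tF N c z) (tX1 N c z)
  have c1 : ContDiff ℝ 1 Φ₁ := (hη.comp cF1).clm_apply cX2
  have c2 : ContDiff ℝ 1 Φ₂ := (hη.comp cF1).clm_apply cX1
  have hd : ∀ z, HasFDerivAt (fun z => η (tF N c z))
      ((fderiv ℝ η (tF N c z)).comp (fderiv ℝ (tF N c) z)) z := fun z =>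
    ((hη.differentiable one_ne_zero) (tF N c z)).hasFDerivAt.comp z
      ((cF1.differentiable one_ne_zero) z).hasFDerivAt
  have d1 : ∀ z, fderiv ℝ Φ₁ z 1 = fderiv ℝ η (tF N c z) (tX1 N c z) (tX2 N c z) +
      η (tF N c z) (fderiv ℝ (tX2 N c) z 1) := by
    intro z
    have h := ((hd z).clm_apply ((cX2.differentiable one_ne_zero) z).hasFDerivAt).fderiv
    have h' : fderiv ℝ Φ₁ z = _ := h
    rw [h']
    simp only [ContinuousLinearMap.add_apply, ContinuousLinearMap.comp_apply,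
      ContinuousLinearMap.flip_apply, F_x hA0 N c z]
    ring
  have d2 : ∀ z, fderiv ℝ Φ₂ z I = fderiv ℝ η (tF N c z) (tX2 N c z) (tX1 N c z) +
      η (tF N c z) (fderiv ℝ (tX1 N c) z I) := by
    intro z
    have h := ((hd z).clm_apply ((cX1.differentiable one_ne_zero) z).hasFDerivAt).fderiv
    have h' : fderiv ℝ Φ₂ z = _ := h
    rw [h']
    simp only [ContinuousLinearMap.add_apply, ContinuousLinearMap.comp_apply,
      ContinuousLinearMap.flip_apply, F_y hA0 N c z]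
    ring
  have hint : ∀ z, fderiv ℝ η (tF N c z) (tX1 N c z) (tX2 N c z)
      - fderiv ℝ η (tF N c z) (tX2 N c z) (tX1 N c z) = fderiv ℝ Φ₁ z 1 - fderiv ℝ Φ₂ z I := by
    intro z
    rw [d1, d2, mixed hA0 N c z]
    ring
  have p1 := hP Φ₁ c1 (fun z => by
      change η (tF N c (z + 1)) (tX2 N c (z + 1)) = η (tF N c z) (tX2 N c z)
      unfold tF tX2 tA tB tC
      simp only [per1]) (fun z => by
      change η (tF N c (z + I)) (tX2 N c (z + I)) = η (tF N c z) (tX2 N c z)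
      unfold tF tX2 tA tB tC
      simp only [perI])
  have p2 := hP Φ₂ c2 (fun z => by
      change η (tF N c (z + 1)) (tX1 N c (z + 1)) = η (tF N c z) (tX1 N c z)
      unfold tF tX1 tA tB tC
      simp only [per1]) (fun z => by
      change η (tF N c (z + I)) (tX1 N c (z + I)) = η (tF N c z) (tX1 N c z)
      unfold tF tX1 tA tB tC
      simp only [perI])
  have k1 : Continuous fun z => fderiv ℝ Φ₁ z 1 :=
    (c1.continuous_fderiv one_ne_zero).clm_apply continuous_const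
  have k2 : Continuous fun z => fderiv ℝ Φ₂ z I :=
    (c2.continuous_fderiv one_ne_zero).clm_apply continuous_const
  simp only [hint]
  rw [integral_sub (sq_int k1) (sq_int k2), p1.1, p2.2, sub_zero]

end Helper76.IF
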