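import Pool.Agent.Helper76.IF.St

/-!
# Module B6: from trigonometric polynomials to test functions
-/

set_option autoImplicit false

open MeasureTheory Complex Filter Topology
open scoped ENNReal NNReal ComplexConjugate

noncomputable section

namespace Helper76.IF

open Helper87.NF Helper85.IW

namespace B6Aux

theorem int_mS {f : ℂ → ℝ} (hf : Continuous f) : Integrable f mS := by
  have h : Helper87.NF.sq ⊆ Metric.closedBall (0 : ℂ) 2 := by
    intro z hz
    obtain ⟨h1, h2, h3, h4⟩ := hz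
    rw [mem_closedBall_zero_iff]
    refine (Complex.norm_le_abs_re_add_abs_im z).trans ?_
    rw [abs_of_nonneg h1, abs_of_nonneg h3]
    linarith
  exact (hf.continuousOn.integrableOn_compact (isCompact_closedBall (0 : ℂ) 2)).mono_set h

theorem cont_tp (s : Finset (ℤ × ℤ)) (c : ℤ × ℤ → ℂ) : Continuous (tp s c) := by
  unfold tp ek
  refine continuous_finsetSum _ fun k _ => ?_
  fun_prop

theorem cont_tF (N : ℕ) (c : ℤ × ℤ → ℂ) : Continuous (tF N c) := by
  unfold tF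
  exact (cont_tp _ _).prodMk (cont_tp _ _)

theorem U_est {U : E → ℝ} {G η : E → (E →L[ℝ] ℝ)} {μ : E → ℂ} {θ : ℝ} {K : ℝ≥0}
    (h : SmN U G η μ θ K) (a b : E) (e : ℝ) (he : 0 < e) :
    U a ≤ U b + K * (e * ‖b‖ ^ 2 + (1 / e + 1) * ‖a - b‖ ^ 2) := by
  have hG : ∀ z, ‖G z‖ ≤ K * ‖z‖ := by
    intro z
    have := h.lipG.dist_le_mul z 0
    rwa [h.G0, dist_zero_right, dist_zero_right] at this
  have h1 : ‖U a - U b‖ ≤ (K * (‖a‖ + ‖b‖)) * ‖a - b‖ := by
    refine Convex.norm_image_sub_le_of_norm_fderiv_le (𝕜 := ℝ)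
      (s := Metric.closedBall (0 : E) (‖a‖ + ‖b‖)) (fun z _ => (h.der z).differentiableAt) ?_
      (convex_closedBall _ _) ?_ ?_
    · intro z hz
      rw [(h.der z).fderiv]
      rw [mem_closedBall_zero_iff] at hz
      exact (hG z).trans (mul_le_mul_of_nonneg_left hz K.2)
    · rw [mem_closedBall_zero_iff]
      linarith [norm_nonneg a]
    · rw [mem_closedBall_zero_iff]
      linarith [norm_nonneg b]
  have h2 : ‖a‖ ≤ ‖a - b‖ + ‖b‖ := by
    calc ‖a‖ = ‖(a - b) + b‖ := by rw [sub_add_cancel]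
      _ ≤ _ := norm_add_le _ _
  have hK : (0 : ℝ) ≤ K := K.2
  have h3 : (K * (‖a‖ + ‖b‖)) * ‖a - b‖ ≤ K * (e * ‖b‖ ^ 2 + (1 / e + 1) * ‖a - b‖ ^ 2) := by
    rw [mul_assoc]
    refine mul_le_mul_of_nonneg_left ?_ hK
    have h4 : (‖a‖ + ‖b‖) * ‖a - b‖ ≤ (‖a - b‖ + 2 * ‖b‖) * ‖a - b‖ :=
      mul_le_mul_of_nonneg_right (by linarith) (norm_nonneg _)
    have h5 : 2 * ‖b‖ * ‖a - b‖ ≤ e * ‖b‖ ^ 2 + (1 / e) * ‖a - b‖ ^ 2 := by
      have h6 : 0 ≤ (e * ‖b‖ - ‖a - b‖) ^ 2 / e := by positivity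
      have h7 : (e * ‖b‖ - ‖a - b‖) ^ 2 / e =
          e * ‖b‖ ^ 2 + (1 / e) * ‖a - b‖ ^ 2 - 2 * ‖b‖ * ‖a - b‖ := by
        field_simp
        ring
      linarith
    nlinarith
  have h8 : U a - U b ≤ ‖U a - U b‖ := Real.le_norm_self _
  linarith

theorem norm_E_sq (p : E) : ‖p‖ ^ 2 ≤ ‖p.1‖ ^ 2 + ‖p.2‖ ^ 2 := by
  rw [Prod.norm_def]
  rcases le_total ‖p.1‖ ‖p.2‖ with h | h
  · rw [max_eq_right h]; nlinarith [sq_nonneg ‖p.1‖]
  · rw [max_eq_left h]; nlinarith [sq_nonneg ‖p.2‖]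

/-- the case of a function supported in the open unit square -/
theorem unit_case (h5 : StB5) (h6a : StB6a) {U : E → ℝ} {G η : E → (E →L[ℝ] ℝ)} {μ : E → ℂ}
    {θ : ℝ} {K : ℝ≥0} (hθ0 : 0 ≤ θ) (hθ1 : θ < 1) (h : SmN U G η μ θ K) (ψ : ℂ → ℂ)
    (hψ : ContDiff ℝ 1 ψ) (hs : ∀ z, ψ z ≠ 0 → 0 < z.re ∧ z.re < 1 ∧ 0 < z.im ∧ z.im < 1)
    (hc : HasCompactSupport ψ)
    (hd : ∀ z : ℂ, (z.re ≤ 0 ∨ 1 ≤ z.re ∨ z.im ≤ 0 ∨ 1 ≤ z.im) → fderiv ℝ ψ z = 0) :
    0 ≤ ∫ z, U (dzb ψ z, dz ψ z) := by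
  have hU : Continuous U := by
    rw [continuous_iff_continuousAt]
    exact fun z => (h.der z).continuousAt
  have hfd : Continuous (fderiv ℝ ψ) := hψ.continuous_fderiv (by norm_num)
  have hF : Continuous (fun z => ((dzb ψ z, dz ψ z) : E)) := by
    unfold dzb dz
    fun_prop
  have e1 : ∫ z, U (dzb ψ z, dz ψ z) = ∫ z, U (dzb ψ z, dz ψ z) ∂mS := by
    symm
    refine setIntegral_eq_integral_of_forall_compl_eq_zero ?_
    intro z hz
    have : fderiv ℝ ψ z = 0 := by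
      apply hd
      by_contra hcon
      push Not at hcon
      exact hz ⟨hcon.1.le, hcon.2.1, hcon.2.2.1.le, hcon.2.2.2⟩
    have h0 : ((dzb ψ z, dz ψ z) : E) = 0 := by
      simp [dzb, dz, this]
    rw [h0, h.U0]
  rw [e1]
  have hlim := h6a ψ hψ hs hc hd
  set D : ℕ → ℝ := fun N => ∫ z, (‖(tF N (cf ψ) z).1 - dzb ψ z‖ ^ 2
    + ‖(tF N (cf ψ) z).2 - dz ψ z‖ ^ 2) ∂mS with hD
  set B : ℝ := ∫ z, ‖((dzb ψ z, dz ψ z) : E)‖ ^ 2 ∂mS with hB
  have hB0 : 0 ≤ B := integral_nonneg fun z => by positivity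
  have key : ∀ e : ℝ, 0 < e → ∀ N : ℕ,
      0 ≤ (∫ z, U (dzb ψ z, dz ψ z) ∂mS) + K * (e * B + (1 / e + 1) * D N) := by
    intro e he N
    have hm : ∫ z, U (tF N (cf ψ) z) ∂mS ≤ ∫ z, (U (dzb ψ z, dz ψ z) +
        K * (e * ‖((dzb ψ z, dz ψ z) : E)‖ ^ 2 + (1 / e + 1) *
          (‖(tF N (cf ψ) z).1 - dzb ψ z‖ ^ 2 + ‖(tF N (cf ψ) z).2 - dz ψ z‖ ^ 2))) ∂mS := by
      have hF1 : Continuous (fun z => dzb ψ z) := continuous_fst.comp hF
      have hF2 : Continuous (fun z => dz ψ z) := continuous_snd.comp hF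
      have hT1 : Continuous (fun z => (tF N (cf ψ) z).1) := continuous_fst.comp (cont_tF _ _)
      have hT2 : Continuous (fun z => (tF N (cf ψ) z).2) := continuous_snd.comp (cont_tF _ _)
      refine integral_mono (int_mS (hU.comp (cont_tF _ _))) (int_mS ?_) ?_
      · refine (hU.comp hF).add ?_
        fun_prop
      · intro z
        have h1 := U_est h (tF N (cf ψ) z) (dzb ψ z, dz ψ z) e he
        have h2 := norm_E_sq (tF N (cf ψ) z - (dzb ψ z, dz ψ z))
        have h3 : (0 : ℝ) ≤ 1 / e + 1 := by positivity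
        have hK : (0 : ℝ) ≤ K := K.2
        have h4 := mul_le_mul_of_nonneg_left h2 h3
        have h5 := mul_le_mul_of_nonneg_left (add_le_add_right h4
          (e * ‖((dzb ψ z, dz ψ z) : E)‖ ^ 2)) hK
        simp only [Prod.fst_sub, Prod.snd_sub] at h5
        simp only
        linarith
    have h0 := h5 U G η μ θ K hθ0 hθ1 h N (cf ψ)
    have hF1 : Continuous (fun z => dzb ψ z) := continuous_fst.comp hF
    have hF2 : Continuous (fun z => dz ψ z) := continuous_snd.comp hF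
    have hT1 : Continuous (fun z => (tF N (cf ψ) z).1) := continuous_fst.comp (cont_tF _ _)
    have hT2 : Continuous (fun z => (tF N (cf ψ) z).2) := continuous_snd.comp (cont_tF _ _)
    have i1 : Integrable (fun z => U (dzb ψ z, dz ψ z)) mS := int_mS (hU.comp hF)
    have c2 : Continuous (fun z => e * ‖((dzb ψ z, dz ψ z) : E)‖ ^ 2) := by fun_prop
    have c3 : Continuous (fun z => (1 / e + 1) *
      (‖(tF N (cf ψ) z).1 - dzb ψ z‖ ^ 2 + ‖(tF N (cf ψ) z).2 - dz ψ z‖ ^ 2)) := by fun_prop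
    have i4 : Integrable (fun z => (K : ℝ) * (e * ‖((dzb ψ z, dz ψ z) : E)‖ ^ 2 + (1 / e + 1) *
      (‖(tF N (cf ψ) z).1 - dzb ψ z‖ ^ 2 + ‖(tF N (cf ψ) z).2 - dz ψ z‖ ^ 2))) mS :=
      int_mS ((c2.add c3).const_mul _)
    rw [integral_add i1 i4, integral_const_mul, integral_add (int_mS c2) (int_mS c3),
      integral_const_mul, integral_const_mul] at hm
    linarith
  have key2 : ∀ e : ℝ, 0 < e → 0 ≤ (∫ z, U (dzb ψ z, dz ψ z) ∂mS) + K * (e * B) := by
    intro e he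
    have hl : Tendsto (fun N => (∫ z, U (dzb ψ z, dz ψ z) ∂mS) +
        K * (e * B + (1 / e + 1) * D N)) atTop
        (𝓝 ((∫ z, U (dzb ψ z, dz ψ z) ∂mS) + K * (e * B + (1 / e + 1) * 0))) :=
      tendsto_const_nhds.add ((tendsto_const_nhds.add (hlim.const_mul _)).const_mul _)
    have := ge_of_tendsto' hl (key e he)
    simpa using this
  have hl2 : Tendsto (fun e : ℝ => (∫ z, U (dzb ψ z, dz ψ z) ∂mS) + K * (e * B)) (𝓝[>] 0)
      (𝓝 ((∫ z, U (dzb ψ z, dz ψ z) ∂mS) + K * (0 * B))) := by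
    have : Continuous (fun e : ℝ => (∫ z, U (dzb ψ z, dz ψ z) ∂mS) + K * (e * B)) := by
      fun_prop
    exact (this.tendsto 0).mono_left nhdsWithin_le_nhds
  have h9 := ge_of_tendsto hl2 (Filter.eventually_of_mem self_mem_nhdsWithin
    (fun e he => key2 e he))
  simpa using h9

end B6Aux

open B6Aux

theorem pf_B6 (h5 : Helper87.NF.StB5) (h6a : Helper87.NF.StB6a) : Helper87.NF.StB6 := by
  intro U G η μ θ K hθ0 hθ1 h φ hφ hcs
  obtain ⟨R0, hR0⟩ := hcs.isCompact.isBounded.subset_closedBall (0 : ℂ)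
  set R : ℝ := 4 * (|R0| + 1) with hR
  have hRpos : 0 < R := by positivity
  set c0 : ℂ := ⟨1 / 2, 1 / 2⟩ with hc0
  set ψ : ℂ → ℂ := fun z => R⁻¹ • φ (R • (z - c0)) with hψd
  have hsupp : ∀ z, ψ z ≠ 0 → z ∈ Metric.closedBall c0 (1 / 4) := by
    intro z hz
    have h1 : φ (R • (z - c0)) ≠ 0 := by
      intro h2
      apply hz
      simp only [hψd, h2, smul_zero]
    have h2 : R • (z - c0) ∈ Metric.closedBall (0 : ℂ) R0 := hR0 (subset_tsupport φ h1)
    rw [mem_closedBall_zero_iff, norm_smul, Real.norm_eq_abs, abs_of_pos hRpos] at h2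
    rw [mem_closedBall_iff_norm]
    have h3 : R0 ≤ |R0| := le_abs_self _
    by_contra hcon
    rw [not_le] at hcon
    have h4 : R * (1 / 4) < R * ‖z - c0‖ := mul_lt_mul_of_pos_left hcon hRpos
    rw [hR] at h4 h2
    linarith
  have hball : ∀ z ∈ Metric.closedBall c0 (1 / 4), 0 < z.re ∧ z.re < 1 ∧ 0 < z.im ∧ z.im < 1 := by
    intro z hz
    rw [mem_closedBall_iff_norm] at hz
    have h1 := (Complex.abs_re_le_norm (z - c0)).trans hz
    have h2 := (Complex.abs_im_le_norm (z - c0)).trans hz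
    rw [Complex.sub_re, abs_le] at h1
    rw [Complex.sub_im, abs_le] at h2
    simp only [hc0] at h1 h2
    refine ⟨?_, ?_, ?_, ?_⟩ <;> linarith [h1.1, h1.2, h2.1, h2.2]
  have hψ1 : ContDiff ℝ 1 ψ := by
    have : ContDiff ℝ 1 (fun z : ℂ => R • (z - c0)) :=
      (contDiff_id.sub contDiff_const).const_smul R
    exact (hφ.comp this).const_smul R⁻¹
  have hcs' : HasCompactSupport ψ :=
    HasCompactSupport.of_support_subset_isCompact (isCompact_closedBall c0 (1 / 4)) hsupp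
  have hts : tsupport ψ ⊆ Metric.closedBall c0 (1 / 4) :=
    closure_minimal hsupp Metric.isClosed_closedBall
  have hfd : ∀ z, fderiv ℝ ψ z = fderiv ℝ φ (R • (z - c0)) := by
    intro z
    have h1 : HasFDerivAt (fun z : ℂ => R • (z - c0)) (R • ContinuousLinearMap.id ℝ ℂ) z :=
      ((hasFDerivAt_id z).sub_const c0).const_smul R
    have h2 : HasFDerivAt φ (fderiv ℝ φ (R • (z - c0))) (R • (z - c0)) :=
      ((hφ.differentiable (by norm_num)) _).hasFDerivAt
    have h3 := (h2.comp z h1).const_smul R⁻¹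
    have h4 : R⁻¹ • ((fderiv ℝ φ (R • (z - c0))).comp (R • ContinuousLinearMap.id ℝ ℂ)) =
        fderiv ℝ φ (R • (z - c0)) := by
      ext v
      simp [hRpos.ne']
    rw [h4] at h3
    exact h3.fderiv
  have hmain := unit_case h5 h6a hθ0 hθ1 h ψ hψ1 (fun z hz => hball z (hsupp z hz)) hcs' (by
    intro z hz
    apply fderiv_of_notMem_tsupport
    intro hmem
    have := hball z (hts hmem)
    rcases hz with h1 | h1 | h1 | h1 <;> linarith [this.1, this.2.1, this.2.2.1, this.2.2.2])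
  set g : ℂ → ℝ := fun z => U (dzb φ z, dz φ z) with hg
  have e1 : (fun z => U (dzb ψ z, dz ψ z)) = fun z => g (R • (z - c0)) := by
    funext z
    simp only [hg, dzb, dz, hfd]
  rw [e1, integral_sub_right_eq_self (fun z => g (R • z)) c0,
    Measure.integral_comp_smul volume g R, smul_eq_mul] at hmain
  have hpos : 0 < |(R ^ Module.finrank ℝ ℂ)⁻¹| := by positivity
  exact nonneg_of_mul_nonneg_right hmain hpos

end Helper76.IF
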