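import Pool.Agent.Helper76.IF.St

/-!
# Module B6a of the flow theorem for the torus (MP_3dd6d4_an): Fourier approximation
-/

set_option autoImplicit false
set_option maxSynthPendingDepth 3

open MeasureTheory Complex Filter Topology
open scoped ENNReal NNReal ComplexConjugate

noncomputable section

namespace Helper76.IF

open Helper87.NF

namespace B6aux

theorem conj_ek (k : ℤ × ℤ) (z : ℂ) : conj (ek k z) = ek (-k) z := by
  unfold ek
  rw [← Complex.exp_conj]
  congr 1
  simp only [map_mul, Complex.conj_I, Complex.conj_ofReal, map_ofNat, Prod.fst_neg, Prod.snd_neg]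
  push_cast
  ring

theorem tp_single (k : ℤ × ℤ) (z : ℂ) : tp {k} (fun _ => 1) z = ek k z := by
  unfold tp
  simp

theorem integ (f : ℂ → ℂ) (hf : Continuous f) : Integrable f mS := by
  have h : IntegrableOn f (Metric.closedBall (0 : ℂ) 2) :=
    hf.continuousOn.integrableOn_compact (isCompact_closedBall _ _)
  refine (h.mono_set ?_ : IntegrableOn f sq)
  rintro z ⟨h1, h2, h3, h4⟩
  rw [mem_closedBall_zero_iff]
  calc ‖z‖ ≤ |z.re| + |z.im| := Complex.norm_le_abs_re_add_abs_im z
    _ ≤ 2 := by rw [abs_of_nonneg h1, abs_of_nonneg h3]; linarith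

theorem integR (f : ℂ → ℝ) (hf : Continuous f) : Integrable f mS := by
  have h : IntegrableOn f (Metric.closedBall (0 : ℂ) 2) :=
    hf.continuousOn.integrableOn_compact (isCompact_closedBall _ _)
  refine (h.mono_set ?_ : IntegrableOn f sq)
  rintro z ⟨h1, h2, h3, h4⟩
  rw [mem_closedBall_zero_iff]
  calc ‖z‖ ≤ |z.re| + |z.im| := Complex.norm_le_abs_re_add_abs_im z
    _ ≤ 2 := by rw [abs_of_nonneg h1, abs_of_nonneg h3]; linarith

theorem memLp (f : ℂ → ℂ) (hf : Continuous f) : MemLp f 2 mS := by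
  rw [memLp_two_iff_integrable_sq_norm hf.aestronglyMeasurable]
  exact integR _ (hf.norm.pow 2)

/-- integration by parts for the Fourier coefficients -/
theorem ibp (h0 : StA0) {φ : ℂ → ℂ} (hφ : ContDiff ℝ 1 φ)
    (hz : ∀ z, φ z ≠ 0 → 0 < z.re ∧ z.re < 1 ∧ 0 < z.im ∧ z.im < 1) (hc : HasCompactSupport φ)
    (hd : ∀ z, (z.re ≤ 0 ∨ 1 ≤ z.re ∨ z.im ≤ 0 ∨ 1 ≤ z.im) → fderiv ℝ φ z = 0)
    (k : ℤ × ℤ) (v : ℂ) (a : ℂ)
    (hv : ∀ z, fderiv ℝ (ek (-k)) z v = -(a * ek (-k) z)) :
    cf (fun z => fderiv ℝ φ z v) k = a * cf φ k := by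
  have hsm : ContDiff ℝ 2 (ek (-k)) := by
    have := (h0 {-k} (fun _ => 1)).1
    have e : tp {-k} (fun _ => 1) = ek (-k) := funext fun z => tp_single (-k) z
    rwa [e] at this
  have hsd : Differentiable ℝ (ek (-k)) := hsm.differentiable (by norm_num)
  have hφd : Differentiable ℝ φ := hφ.differentiable (by norm_num)
  have hφc : Continuous φ := hφ.continuous
  have hdc : Continuous (fun z => fderiv ℝ φ z v) :=
    (hφ.continuous_fderiv (by norm_num)).clm_apply continuous_const
  have hdcs : HasCompactSupport (fun z => fderiv ℝ φ z v) := by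
    have h1 := hc.fderiv (𝕜 := ℝ)
    exact h1.comp_left (g := fun L : ℂ →L[ℝ] ℂ => L v) (by simp)
  -- integrals over the plane
  have e1 : cf (fun z => fderiv ℝ φ z v) k = ∫ z, ek (-k) z * fderiv ℝ φ z v := by
    unfold cf mS
    rw [setIntegral_eq_integral_of_forall_compl_eq_zero]
    · exact integral_congr_ae (Eventually.of_forall fun z => by
        show conj (ek k z) * fderiv ℝ φ z v = ek (-k) z * fderiv ℝ φ z v
        rw [conj_ek])
    · intro z hzs
      have h2 : fderiv ℝ φ z = 0 := by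
        apply hd
        by_contra hcon
        push Not at hcon
        exact hzs ⟨hcon.1.le, hcon.2.1, hcon.2.2.1.le, hcon.2.2.2⟩
      show conj (ek k z) * fderiv ℝ φ z v = 0
      rw [h2]
      simp
  have e2 : cf φ k = ∫ z, ek (-k) z * φ z := by
    unfold cf mS
    rw [setIntegral_eq_integral_of_forall_compl_eq_zero]
    · exact integral_congr_ae (Eventually.of_forall fun z => by
        show conj (ek k z) * φ z = ek (-k) z * φ z
        rw [conj_ek])
    · intro z hzs
      have h2 : φ z = 0 := by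
        by_contra hcon
        have h3 := hz z hcon
        exact hzs ⟨h3.1.le, h3.2.1, h3.2.2.1.le, h3.2.2.2⟩
      rw [h2, mul_zero]
  have hfd : Continuous (fun z => fderiv ℝ (ek (-k)) z v) :=
    (hsm.continuous_fderiv (by norm_num)).clm_apply continuous_const
  have h3 := integral_mul_fderiv_eq_neg_fderiv_mul_of_integrable (μ := (volume : Measure ℂ))
    (f := ek (-k)) (g := φ) (v := v)
    ((hfd.mul hφc).integrable_of_hasCompactSupport (hc.mul_left))
    ((hsd.continuous.mul hdc).integrable_of_hasCompactSupport (hdcs.mul_left))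
    ((hsd.continuous.mul hφc).integrable_of_hasCompactSupport (hc.mul_left))
    (fun x _ => hsd x) (fun x _ => hφd x)
  rw [e1, e2, h3, ← integral_neg, ← integral_const_mul]
  refine integral_congr_ae (Eventually.of_forall fun z => ?_)
  show -(fderiv ℝ (ek (-k)) z v * φ z) = a * (ek (-k) z * φ z)
  rw [hv z]
  ring

theorem ek_dx (h0 : StA0) (k : ℤ × ℤ) (z : ℂ) :
    fderiv ℝ (ek (-k)) z 1 = -((2 * (Real.pi : ℂ) * I * (k.1 : ℂ)) * ek (-k) z) := by
  have h := (h0 {-k} (fun _ => 1)).2.1 z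
  have e : tp {-k} (fun _ => 1) = ek (-k) := funext fun z => tp_single (-k) z
  rw [e] at h
  rw [h]
  unfold tp
  simp only [Finset.sum_singleton, Prod.fst_neg]
  push_cast
  ring

theorem ek_dy (h0 : StA0) (k : ℤ × ℤ) (z : ℂ) :
    fderiv ℝ (ek (-k)) z I = -((2 * (Real.pi : ℂ) * I * (k.2 : ℂ)) * ek (-k) z) := by
  have h := (h0 {-k} (fun _ => 1)).2.2.1 z
  have e : tp {-k} (fun _ => 1) = ek (-k) := funext fun z => tp_single (-k) z
  rw [e] at h
  rw [h]
  unfold tp
  simp only [Finset.sum_singleton, Prod.snd_neg]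
  push_cast
  ring

theorem ek_cont (h0 : StA0) (k : ℤ × ℤ) : Continuous (fun z => conj (ek k z)) := by
  have := (h0 {-k} (fun _ => 1)).1
  have e : tp {-k} (fun _ => 1) = ek (-k) := funext fun z => tp_single (-k) z
  rw [e] at this
  have h2 := this.continuous
  have e2 : (fun z => conj (ek k z)) = ek (-k) := funext fun z => conj_ek k z
  rw [e2]
  exact h2

/-- convergence of the Fourier series along boxes -/
theorem fourier (h1 : Helper87.NF.StA1) (h2 : Helper87.NF.StA2) (Y : ℂ → ℂ) (hY : MemLp Y 2 mS) :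
    Tendsto (fun N : ℕ => ∫ z, ‖Y z - tp (Bx N) (cf Y) z‖ ^ 2 ∂mS) atTop (𝓝 0) := by
  have hB : Tendsto Bx atTop atTop := by
    refine tendsto_atTop_finset_of_monotone ?_ ?_
    · intro M N hMN
      unfold Bx
      have hMN' : (M : ℤ) ≤ N := by exact_mod_cast hMN
      exact Finset.product_subset_product
        (Finset.Icc_subset_Icc (neg_le_neg hMN') hMN') (Finset.Icc_subset_Icc (neg_le_neg hMN') hMN')
    · intro k
      refine ⟨max k.1.natAbs k.2.natAbs, ?_⟩
      unfold Bx
      rw [Finset.mem_product, Finset.mem_Icc, Finset.mem_Icc]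
      have h3 := le_max_left k.1.natAbs k.2.natAbs
      have h4 := le_max_right k.1.natAbs k.2.natAbs
      omega
  have h3 : Tendsto (fun N : ℕ => (∫ z, ‖Y z‖ ^ 2 ∂mS) - ∑ k ∈ Bx N, normSq (cf Y k)) atTop
      (𝓝 ((∫ z, ‖Y z‖ ^ 2 ∂mS) - ∫ z, ‖Y z‖ ^ 2 ∂mS)) :=
    tendsto_const_nhds.sub ((h2 Y hY).comp hB)
  rw [sub_self] at h3
  refine h3.congr fun N => ?_
  rw [h1.2.2.2 (Bx N) Y hY]

end B6aux

open B6aux

theorem pf_B6a (h1 : Helper87.NF.StA1) (h2 : Helper87.NF.StA2) (h0 : StA0) : StB6a := by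
  intro φ hφ hz hc hd
  have hdc : ∀ v : ℂ, Continuous (fun z => fderiv ℝ φ z v) := fun v =>
    (hφ.continuous_fderiv (by norm_num)).clm_apply continuous_const
  have hzb : Continuous (dzb φ) := by
    unfold dzb
    exact continuous_const.mul ((hdc 1).add (continuous_const.mul (hdc I)))
  have hzc : Continuous (dz φ) := by
    unfold dz
    exact continuous_const.mul ((hdc 1).sub (continuous_const.mul (hdc I)))
  have hx : ∀ k, cf (fun z => fderiv ℝ φ z 1) k = (2 * (Real.pi : ℂ) * I * (k.1 : ℂ)) * cf φ k :=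
    fun k => ibp h0 hφ hz hc hd k 1 _ (ek_dx h0 k)
  have hy : ∀ k, cf (fun z => fderiv ℝ φ z I) k = (2 * (Real.pi : ℂ) * I * (k.2 : ℂ)) * cf φ k :=
    fun k => ibp h0 hφ hz hc hd k I _ (ek_dy h0 k)
  have hi : ∀ (v : ℂ) (k : ℤ × ℤ), Integrable (fun z => conj (ek k z) * fderiv ℝ φ z v) mS :=
    fun v k => integ _ ((ek_cont h0 k).mul (hdc v))
  have hF : ∀ k, cf (dzb φ) k = mF k * cf φ k := by
    intro k
    have e : cf (dzb φ) k = (1 / 2 : ℂ) * (cf (fun z => fderiv ℝ φ z 1) k +
        I * cf (fun z => fderiv ℝ φ z I) k) := by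
      unfold cf
      rw [← integral_const_mul, ← integral_add (hi 1 k) ((hi I k).const_mul I),
        ← integral_const_mul]
      refine integral_congr_ae (Eventually.of_forall fun z => ?_)
      show conj (ek k z) * dzb φ z = _
      unfold dzb
      ring
    rw [e, hx, hy]
    unfold mF om
    ring
  have hG : ∀ k, cf (dz φ) k = mG k * cf φ k := by
    intro k
    have e : cf (dz φ) k = (1 / 2 : ℂ) * (cf (fun z => fderiv ℝ φ z 1) k -
        I * cf (fun z => fderiv ℝ φ z I) k) := by
      unfold cf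
      rw [← integral_const_mul, ← integral_sub (hi 1 k) ((hi I k).const_mul I),
        ← integral_const_mul]
      refine integral_congr_ae (Eventually.of_forall fun z => ?_)
      show conj (ek k z) * dz φ z = _
      unfold dz
      ring
    rw [e, hx, hy]
    unfold mG om
    simp only [map_mul, map_add, Complex.conj_ofReal, Complex.conj_I, map_intCast]
    ring
  have hFt : ∀ N z, (tF N (cf φ) z).1 = tp (Bx N) (cf (dzb φ)) z := by
    intro N z
    show tp (Bx N) (fun k => mF k * cf φ k) z = _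
    congr 1
    funext k
    rw [hF k]
  have hGt : ∀ N z, (tF N (cf φ) z).2 = tp (Bx N) (cf (dz φ)) z := by
    intro N z
    show tp (Bx N) (fun k => mG k * cf φ k) z = _
    congr 1
    funext k
    rw [hG k]
  have hcont : ∀ (N : ℕ) (c : ℤ × ℤ → ℂ), Continuous (tp (Bx N) c) := fun N c =>
    (h0 (Bx N) c).1.continuous
  have hsum := (fourier h1 h2 (dzb φ) (memLp _ hzb)).add (fourier h1 h2 (dz φ) (memLp _ hzc))
  rw [add_zero] at hsum
  refine hsum.congr fun N => ?_
  rw [← integral_add]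
  · refine integral_congr_ae (Eventually.of_forall fun z => ?_)
    show ‖dzb φ z - tp (Bx N) (cf (dzb φ)) z‖ ^ 2 + ‖dz φ z - tp (Bx N) (cf (dz φ)) z‖ ^ 2 =
      ‖(tF N (cf φ) z).1 - dzb φ z‖ ^ 2 + ‖(tF N (cf φ) z).2 - dz φ z‖ ^ 2
    rw [hFt, hGt, norm_sub_rev (dzb φ z), norm_sub_rev (dz φ z)]
  · exact integR _ ((hzb.sub (hcont N _)).norm.pow 2)
  · exact integR _ ((hzc.sub (hcont N _)).norm.pow 2)

end Helper76.IF
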