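import Pool.Agent.Helper76.IF.St

/-!
PER: the derivative of a periodic function has integral zero over the unit square.
-/

set_option autoImplicit false
set_option maxSynthPendingDepth 3

open MeasureTheory Complex Filter Topology
open scoped ENNReal NNReal ComplexConjugate

noncomputable section

namespace Helper76.IF

open Helper87.NF

private theorem per_symm (p : ℝ × ℝ) :
    Complex.measurableEquivRealProd.symm p = (p.1 : ℂ) + (p.2 : ℂ) * I := by
  apply Complex.ext <;> simp

private theorem per_pre : Complex.measurableEquivRealProd.symm ⁻¹' sq =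
    Set.Ico (0 : ℝ) 1 ×ˢ Set.Ico (0 : ℝ) 1 := by
  ext p
  simp only [Set.mem_preimage, Helper87.NF.sq, Set.mem_ofPred_eq, Set.mem_prod, Set.mem_Ico]
  rw [per_symm]
  simp [and_assoc]

/-- integral over the unit square as an integral over the product of intervals -/
private theorem per_int (g : ℂ → ℝ) : ∫ z, g z ∂mS =
    ∫ p, g ((p.1 : ℂ) + (p.2 : ℂ) * I) ∂((volume.restrict (Set.Ico (0 : ℝ) 1)).prod
      (volume.restrict (Set.Ico (0 : ℝ) 1))) := by
  have h := (Complex.volume_preserving_equiv_real_prod.symm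
    Complex.measurableEquivRealProd).setIntegral_preimage_emb
    Complex.measurableEquivRealProd.symm.measurableEmbedding g sq
  unfold mS
  rw [← h, per_pre, Measure.prod_restrict, ← Measure.volume_eq_prod]
  simp only [per_symm]

private theorem per_integrable {G : ℝ × ℝ → ℝ} (hG : Continuous G) :
    Integrable G ((volume.restrict (Set.Ico (0 : ℝ) 1)).prod
      (volume.restrict (Set.Ico (0 : ℝ) 1))) := by
  rw [Measure.prod_restrict, ← Measure.volume_eq_prod]
  have h1 : IntegrableOn G (Set.Icc (0 : ℝ) 1 ×ˢ Set.Icc (0 : ℝ) 1) volume :=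
    hG.continuousOn.integrableOn_compact (isCompact_Icc.prod isCompact_Icc)
  exact h1.mono_set (Set.prod_mono Set.Ico_subset_Icc_self Set.Ico_subset_Icc_self)

/-- the one dimensional statement -/
private theorem per_one {φ ψ : ℝ → ℝ} (h : ∀ x, HasDerivAt φ (ψ x) x) (hψ : Continuous ψ)
    (hp : φ 1 = φ 0) : ∫ x in Set.Ico (0 : ℝ) 1, ψ x = 0 := by
  rw [integral_Ico_eq_integral_Ioo, ← integral_Ioc_eq_integral_Ioo,
    ← intervalIntegral.integral_of_le zero_le_one,
    intervalIntegral.integral_eq_sub_of_hasDerivAt (fun x _ => h x)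
      (hψ.intervalIntegrable 0 1), hp, sub_self]

theorem pf_PER : StPer := by
  intro Φ hΦ h1 hI
  have hd : ∀ z, HasFDerivAt Φ (fderiv ℝ Φ z) z := fun z =>
    (hΦ.differentiable (by norm_num) z).hasFDerivAt
  have hc : ∀ v : ℂ, Continuous fun z => fderiv ℝ Φ z v := fun v =>
    (hΦ.continuous_fderiv (by norm_num)).clm_apply continuous_const
  have hcoord : Continuous fun p : ℝ × ℝ => (p.1 : ℂ) + (p.2 : ℂ) * I := by fun_prop
  constructor
  · rw [per_int, integral_prod_symm _ (per_integrable (G := fun p : ℝ × ℝ =>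
      fderiv ℝ Φ ((p.1 : ℂ) + (p.2 : ℂ) * I) 1) ((hc 1).comp hcoord))]
    have h0 : ∀ y : ℝ, ∫ x in Set.Ico (0 : ℝ) 1, fderiv ℝ Φ ((x : ℂ) + (y : ℂ) * I) 1 = 0 := by
      intro y
      apply per_one (φ := fun x : ℝ => Φ ((x : ℂ) + (y : ℂ) * I))
      · intro x
        have h2 : HasDerivAt (fun x : ℝ => (x : ℂ) + (y : ℂ) * I) 1 x := by
          simpa using (Complex.ofRealCLM.hasDerivAt (x := x)).add_const ((y : ℂ) * I)
        exact (hd _).comp_hasDerivAt x h2
      · exact (hc 1).comp (by fun_prop)
      · have h3 := h1 ((y : ℂ) * I)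
        simp only [ofReal_one, ofReal_zero, zero_add]
        rw [add_comm, h3]
    simp only [h0, integral_zero]
  · rw [per_int, integral_prod _ (per_integrable (G := fun p : ℝ × ℝ =>
      fderiv ℝ Φ ((p.1 : ℂ) + (p.2 : ℂ) * I) I) ((hc I).comp hcoord))]
    have h0 : ∀ x : ℝ, ∫ y in Set.Ico (0 : ℝ) 1, fderiv ℝ Φ ((x : ℂ) + (y : ℂ) * I) I = 0 := by
      intro x
      apply per_one (φ := fun y : ℝ => Φ ((x : ℂ) + (y : ℂ) * I))
      · intro y
        have h2 : HasDerivAt (fun y : ℝ => (x : ℂ) + (y : ℂ) * I) I y := by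
          have h4 : HasDerivAt (fun y : ℝ => (y : ℂ)) 1 y :=
            (hasDerivAt_id y).ofReal_comp
          simpa using (h4.mul_const I).const_add (x : ℂ)
        exact (hd _).comp_hasDerivAt y h2
      · exact (hc I).comp (by fun_prop)
      · have h3 := hI (x : ℂ)
        simp only [ofReal_one, ofReal_zero, zero_mul, add_zero, one_mul]
        exact h3
    simp only [h0, integral_zero]

end Helper76.IF
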