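import Pool.Agent.Helper76.IF.Tor2

/-!
The flow theorem for trigonometric polynomials.
-/

open MeasureTheory Complex Filter Topology
open scoped ENNReal NNReal ComplexConjugate

noncomputable section

namespace Helper76.IF

open Helper87.NF Helper85.IW Pool.Agent.Helper76.IF

attribute [local instance] instMeasureSpaceUnitAddCircle

local instance instHaar3 : Measure.IsAddHaarMeasure (volume : Measure UnitAddCircle) :=
  inferInstanceAs (Measure.IsAddHaarMeasure AddCircle.haarAddCircle)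

local instance instProb3 : IsProbabilityMeasure (volume : Measure UnitAddCircle) :=
  inferInstanceAs (IsProbabilityMeasure AddCircle.haarAddCircle)

variable {U : E → ℝ} {G η : E → (E →L[ℝ] ℝ)} {μ : E → ℂ} {θ : ℝ} {K : ℝ≥0}

/-- the functional -/
def II (U : E → ℝ) (c : ℤ × ℤ →₀ ℂ) : ℝ := ∫ x, U (Ff c x)

/-- the linear functional of the dissipation -/
def ell (G : E → (E →L[ℝ] ℝ)) (c : ℤ × ℤ →₀ ℂ) (x : TT) (w : ℂ) : ℝ :=
  fderiv ℝ G (Ff c x) (XX c x) (lx w) + fderiv ℝ G (Ff c x) (YY c x) (ly w)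

theorem lx_add (u v : ℂ) : lx (u + v) = lx u + lx v := by
  unfold lx
  ext <;> simp <;> ring

theorem ly_add (u v : ℂ) : ly (u + v) = ly u + ly v := by
  unfold ly
  ext <;> simp <;> ring

theorem lx_smul (t : ℝ) (v : ℂ) : lx (t * v) = t • lx v := by
  unfold lx
  ext <;> simp <;> ring

theorem ly_smul (t : ℝ) (v : ℂ) : ly (t * v) = t • ly v := by
  unfold ly
  ext <;> simp <;> ring

theorem lx_cont : Continuous lx := by
  unfold lx
  fun_prop

theorem ly_cont : Continuous ly := by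
  unfold ly
  fun_prop

theorem ell_eq (G : E → (E →L[ℝ] ℝ)) (c : ℤ × ℤ →₀ ℂ) (x : TT) (w : ℂ) :
    ell G c x w = w.re * ell G c x 1 + w.im * ell G c x I := by
  have h1 : w = (w.re : ℂ) * 1 + (w.im : ℂ) * I := by
    rw [mul_one]
    exact (Complex.re_add_im w).symm
  unfold ell
  conv_lhs => rw [h1]
  rw [lx_add, ly_add, lx_smul, lx_smul, ly_smul, ly_smul, map_add, map_add, map_smul, map_smul,
    map_smul, map_smul]
  simp only [smul_eq_mul]
  ring

theorem fG_cont (hG : ContDiff ℝ 1 G) : Continuous (fderiv ℝ G) :=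
  hG.continuous_fderiv one_ne_zero

theorem app_cont {A : TT → (E →L[ℝ] E →L[ℝ] ℝ)} {X Y : TT → E} (hA : Continuous A)
    (hX : Continuous X) (hY : Continuous Y) : Continuous fun x => A x (X x) (Y x) :=
  (hA.clm_apply hX).clm_apply hY

theorem ell_cont (hG : ContDiff ℝ 1 G) (c : ℤ × ℤ →₀ ℂ) {w : TT → ℂ} (hw : Continuous w) :
    Continuous fun x => ell G c x (w x) := by
  unfold ell
  exact (app_cont ((fG_cont hG).comp (Ff_cont c)) (XX_cont c) (lx_cont.comp hw)).add
    (app_cont ((fG_cont hG).comp (Ff_cont c)) (YY_cont c) (ly_cont.comp hw))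

/-- the vector field as a continuous function -/
def Zf (hG : ContDiff ℝ 1 G) (c : ℤ × ℤ →₀ ℂ) : C(TT, ℂ) :=
  ⟨fun x => ((ell G c x 1 : ℝ) : ℂ) + I * ((ell G c x I : ℝ) : ℂ),
    (Complex.continuous_ofReal.comp (ell_cont hG c continuous_const)).add
      (continuous_const.mul (Complex.continuous_ofReal.comp (ell_cont hG c continuous_const)))⟩

theorem Zf_apply (hG : ContDiff ℝ 1 G) (c : ℤ × ℤ →₀ ℂ) (x : TT) :
    Zf hG c x = ((ell G c x 1 : ℝ) : ℂ) + I * ((ell G c x I : ℝ) : ℂ) := rfl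

theorem re_Zf (hG : ContDiff ℝ 1 G) (c : ℤ × ℤ →₀ ℂ) (x : TT) (w : ℂ) :
    (conj (Zf hG c x) * w).re = ell G c x w := by
  rw [ell_eq, Zf_apply]
  simp only [map_add, map_mul, Complex.conj_ofReal, Complex.conj_I, Complex.mul_re,
    Complex.add_re, Complex.add_im, Complex.mul_im, Complex.neg_re, Complex.neg_im,
    Complex.I_re, Complex.I_im, Complex.ofReal_re, Complex.ofReal_im]
  ring

theorem inner_Zf (hG : ContDiff ℝ 1 G) (c : ℤ × ℤ →₀ ℂ) (h : C(TT, ℂ)) :
    (inner ℂ (L (Zf hG c)) (L h)).re = ∫ x, ell G c x (h x) := by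
  rw [inner_L]
  have h1 := integral_re (𝕜 := ℂ) (μ := (volume : Measure TT))
    (f := fun x => conj (Zf hG c x) * h x)
    (integrable_of_cont ((Complex.continuous_conj.comp (Zf hG c).continuous).mul h.continuous))
  have h2 : (∫ x, conj (Zf hG c x) * h x).re = ∫ x, (conj (Zf hG c x) * h x).re := h1.symm
  rw [h2]
  congr 1
  funext x
  exact re_Zf hG c x (h x)

/-- integration by parts on the torus -/
theorem int_G (hB1 : Helper87.NF.StB1) (hG : ContDiff ℝ 1 G) (c d : ℤ × ℤ →₀ ℂ) :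
    ∫ x, G (Ff c x) (Ff d x) = -∫ x, ell G c x (Pt d x) := by
  classical
  obtain ⟨N, hN⟩ := exists_Bx (c.support ∪ d.support)
  have hc : c.support ⊆ Bx N := Finset.subset_union_left.trans hN
  have hd : d.support ⊆ Bx N := Finset.subset_union_right.trans hN
  rw [integral_tau, integral_tau]
  have h1 := hB1 G hG N c d
  have e1 : ∀ z, G (Ff c (tau z)) (Ff d (tau z)) = G (tF N c z) (tF N d z) := fun z => by
    rw [Ff_tau hc, Ff_tau hd]
  have e2 : ∀ z, ell G c (tau z) (Pt d (tau z)) =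
      fderiv ℝ G (tF N c z) (tX1 N c z) (lx (tp (Bx N) d z)) +
        fderiv ℝ G (tF N c z) (tX2 N c z) (ly (tp (Bx N) d z)) := fun z => by
    unfold ell
    rw [Ff_tau hc, XX_tau hc, YY_tau hc, Pt_tau hd]
  simp only [e1, e2]
  exact h1

/-- the null Lagrangian on the torus -/
theorem int_null (hB2 : Helper87.NF.StB2) (hη : ContDiff ℝ 1 η) (c : ℤ × ℤ →₀ ℂ) :
    ∫ x, (fderiv ℝ η (Ff c x) (XX c x) (YY c x) - fderiv ℝ η (Ff c x) (YY c x) (XX c x)) = 0 := by
  obtain ⟨N, hc⟩ := exists_Bx c.support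
  rw [integral_tau]
  have h1 := hB2 η hη N c
  have e1 : ∀ z, (fderiv ℝ η (Ff c (tau z)) (XX c (tau z)) (YY c (tau z)) -
      fderiv ℝ η (Ff c (tau z)) (YY c (tau z)) (XX c (tau z))) =
      fderiv ℝ η (tF N c z) (tX1 N c z) (tX2 N c z) -
        fderiv ℝ η (tF N c z) (tX2 N c z) (tX1 N c z) := fun z => by
    rw [Ff_tau hc, XX_tau hc, YY_tau hc]
  simp only [e1]
  exact h1

/-- Taylor bound -/
theorem taylor (hd : ∀ z, HasFDerivAt U (G z) z) (hl : LipschitzWith K G) (F w : E) :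
    |U (F + w) - U F - G F w| ≤ K * ‖w‖ ^ 2 := by
  have h1 : ∀ y ∈ Metric.closedBall F ‖w‖, HasFDerivWithinAt (fun y => U y - G F y)
      (G y - G F) (Metric.closedBall F ‖w‖) y := fun y _ =>
    ((hd y).sub (G F).hasFDerivAt).hasFDerivWithinAt
  have h2 : ∀ y ∈ Metric.closedBall F ‖w‖, ‖G y - G F‖ ≤ K * ‖w‖ := by
    intro y hy
    have h3 := hl.dist_le_mul y F
    rw [dist_eq_norm] at h3
    refine h3.trans (mul_le_mul_of_nonneg_left ?_ K.2)
    exact Metric.mem_closedBall.mp hy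
  have h3 := (convex_closedBall F ‖w‖).norm_image_sub_le_of_norm_hasFDerivWithin_le h1 h2
    (Metric.mem_closedBall_self (norm_nonneg _))
    (show F + w ∈ Metric.closedBall F ‖w‖ by
      rw [Metric.mem_closedBall, dist_eq_norm, add_sub_cancel_left])
  simp only [add_sub_cancel_left] at h3
  rw [Real.norm_eq_abs] at h3
  have h4 : U (F + w) - G F (F + w) - (U F - G F F) = U (F + w) - U F - G F w := by
    rw [map_add]
    ring
  rw [h4] at h3
  calc |U (F + w) - U F - G F w| ≤ K * ‖w‖ * ‖w‖ := h3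
    _ = K * ‖w‖ ^ 2 := by ring

/-- the expansion of the functional -/
theorem II_taylor (hB1 : Helper87.NF.StB1) (hG : ContDiff ℝ 1 G) (hd : ∀ z, HasFDerivAt U (G z) z)
    (hl : LipschitzWith K G) (c d : ℤ × ℤ →₀ ℂ) :
    |II U (c + d) - II U c + (inner ℂ (L (Zf hG c)) (io bas d)).re| ≤ K * En wt d := by
  have hUc : Continuous U := continuous_iff_continuousAt.mpr fun z => (hd z).continuousAt
  rw [io_bas, inner_Zf, ← neg_neg (∫ x, ell G c x (Pt d x)), ← int_G hB1 hG c d]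
  unfold II
  have i1 : Integrable (fun x => U (Ff (c + d) x)) (volume : Measure TT) :=
    integrable_of_cont (hUc.comp (Ff_cont _))
  have i2 : Integrable (fun x => U (Ff c x)) (volume : Measure TT) :=
    integrable_of_cont (hUc.comp (Ff_cont _))
  have i3 : Integrable (fun x => G (Ff c x) (Ff d x)) (volume : Measure TT) :=
    integrable_of_cont ((hl.continuous.comp (Ff_cont c)).clm_apply (Ff_cont d))
  have e1 : (∫ x, U (Ff (c + d) x)) - (∫ x, U (Ff c x)) + -(∫ x, G (Ff c x) (Ff d x)) =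
      ∫ x, (U (Ff c x + Ff d x) - U (Ff c x) - G (Ff c x) (Ff d x)) := by
    rw [integral_sub (by
      have := i1.sub i2
      refine this.congr (Filter.Eventually.of_forall fun x => ?_)
      show U (Ff (c + d) x) - U (Ff c x) = _
      rw [Ff_add]) i3, integral_sub (by
      refine i1.congr (Filter.Eventually.of_forall fun x => ?_)
      show U (Ff (c + d) x) = _
      rw [Ff_add]) i2]
    simp only [Ff_add]
    ring
  rw [e1]
  refine (abs_integral_le_integral_abs).trans ?_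
  have h2 : ∫ x, |U (Ff c x + Ff d x) - U (Ff c x) - G (Ff c x) (Ff d x)| ≤
      ∫ x, (K : ℝ) * ‖Ff d x‖ ^ 2 := by
    refine integral_mono (integrable_of_cont ?_)
      (integrable_of_cont (continuous_const.mul ((Ff_cont _).norm.pow 2)))
      fun x => taylor hd hl (Ff c x) (Ff d x)
    exact (((hUc.comp ((Ff_cont c).add (Ff_cont d))).sub (hUc.comp (Ff_cont c))).sub
      ((hl.continuous.comp (Ff_cont c)).clm_apply (Ff_cont d))).abs
  refine h2.trans ?_
  rw [integral_const_mul]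
  exact mul_le_mul_of_nonneg_left (int_Ff d) K.2

theorem Lap_eq (c : ℤ × ℤ →₀ ℂ) :
    Lap wt c = ml (fun k => 4 * mC k) c + Finsupp.single 0 (-c 0) := by
  classical
  ext k
  rw [Lap_apply, Finsupp.add_apply, ml_apply, Finsupp.single_apply]
  by_cases hk : k = 0
  · subst hk
    rw [if_pos rfl]
    unfold wt mC
    rw [if_pos rfl, om_zero]
    simp
  · rw [if_neg (Ne.symm hk)]
    unfold wt mC
    rw [if_neg hk]
    push_cast
    ring

theorem Ff_single_zero (w : ℂ) (x : TT) : Ff (Finsupp.single 0 w) x = 0 := by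
  unfold Ff
  rw [ml_single, ml_single, Pt_single, Pt_single]
  unfold mF mG
  rw [om_zero]
  simp

/-- the dissipation inequality -/
theorem dissip (hB1 : Helper87.NF.StB1) (hB2 : Helper87.NF.StB2) (hs : SmN U G η μ θ K) (hμ : Continuous μ)
    (c : ℤ × ℤ →₀ ℂ) :
    0 ≤ (inner ℂ (L (Zf hs.cG c)) (io bas (Lap wt c) + Bop hμ c (Lap wt c))).re := by
  have hG := hs.cG
  -- the right-hand side of the flow
  set Yf : C(TT, ℂ) := Pt (ml (fun k => 4 * mC k) c) + cmu hμ c * Pt (ml mA c) +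
    mu hμ c * Pt (ml mB c) with hYf
  have h1 : io bas (Lap wt c) + Bop hμ c (Lap wt c) =
      L Yf + io bas (Finsupp.single 0 (-c 0)) := by
    rw [Bop_apply, ml_rA_Lap, ml_rB_Lap, Lap_eq, map_add, io_bas, hYf, L_add, L_add, L_add]
    abel
  rw [h1, inner_add_right, Complex.add_re]
  have h2 : (inner ℂ (L (Zf hG c)) (io bas (Finsupp.single 0 (-c 0)))).re = 0 := by
    rw [io_bas, inner_Zf]
    have h3 := int_G hB1 hG c (Finsupp.single 0 (-c 0))
    have h4 : ∀ x, G (Ff c x) (Ff (Finsupp.single 0 (-c 0)) x) = 0 := fun x => by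
      rw [Ff_single_zero, map_zero]
    simp only [h4, integral_zero] at h3
    linarith
  rw [h2, add_zero, inner_Zf]
  have hη := hs.cη
  have cη := fG_cont (G := η) hη
  have h5 : ∀ x, ell G c x (Yf x) = PQ (μ (Ff c x)) (fderiv ℝ G (Ff c x))
      (fderiv ℝ η (Ff c x)) (XX c x) (YY c x) -
      (fderiv ℝ η (Ff c x) (XX c x) (YY c x) - fderiv ℝ η (Ff c x) (YY c x) (XX c x)) := by
    intro x
    have h6 : Yf x = Lop (μ (Ff c x)) (XX c x) (YY c x) := by
      have e1 : jc (XX c x) (YY c x) = Pt (ml mC c) x := by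
        unfold jc XX YY
        have h1 : I * I = -1 := Complex.I_mul_I
        linear_combination (-(Pt (ml mC c) x - Pt (ml mA c) x) / 2) * h1
      have e2 : ja (XX c x) (YY c x) = Pt (ml mA c) x := by
        unfold ja XX YY
        have h1 : I * I = -1 := Complex.I_mul_I
        linear_combination ((Pt (ml mC c) x - Pt (ml mA c) x) / 2) * h1
      have e3 : jb (XX c x) (YY c x) = Pt (ml mB c) x := by
        unfold jb XX YY
        have h1 : I * I = -1 := Complex.I_mul_I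
        linear_combination (-(Pt (ml mB c) x - Pt (ml mC c) x) / 2) * h1
      have e4 : Pt (ml (fun k => 4 * mC k) c) x = 4 * Pt (ml mC c) x := by
        rw [Pt_apply (ml_support _ c), Pt_apply (ml_support _ c), Finset.mul_sum]
        refine Finset.sum_congr rfl fun k _ => ?_
        rw [ml_apply, ml_apply]
        ring
      unfold Lop
      rw [e1, e2, e3, ← e4]
      rfl
    unfold ell PQ
    rw [h6]
    ring
  simp only [h5]
  have cPQ : Continuous fun x => ell G c x (Yf x) := ell_cont hG c Yf.continuous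
  have cN : Continuous fun x => (fderiv ℝ η (Ff c x) (XX c x) (YY c x) -
      fderiv ℝ η (Ff c x) (YY c x) (XX c x)) :=
    (app_cont (cη.comp (Ff_cont c)) (XX_cont c) (YY_cont c)).sub
      (app_cont (cη.comp (Ff_cont c)) (YY_cont c) (XX_cont c))
  have cP : Continuous fun x => PQ (μ (Ff c x)) (fderiv ℝ G (Ff c x))
      (fderiv ℝ η (Ff c x)) (XX c x) (YY c x) := by
    have : (fun x => PQ (μ (Ff c x)) (fderiv ℝ G (Ff c x)) (fderiv ℝ η (Ff c x)) (XX c x)
        (YY c x)) = fun x => ell G c x (Yf x) + (fderiv ℝ η (Ff c x) (XX c x) (YY c x) -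
        fderiv ℝ η (Ff c x) (YY c x) (XX c x)) := by
      funext x
      rw [h5 x]
      ring
    rw [this]
    exact cPQ.add cN
  rw [integral_sub (integrable_of_cont cP) (integrable_of_cont cN), int_null hB2 hη c, sub_zero]
  exact integral_nonneg fun x => hs.pi (Ff c x) (XX c x) (YY c x) (CR_XY c x)

/-- bound of the vector field -/
theorem norm_Zf (hG : ContDiff ℝ 1 G) (hl : LipschitzWith K G) (c : ℤ × ℤ →₀ ℂ) :
    ‖L (Zf hG c)‖ ≤ (2 * K) * ‖io bas (Lap wt c)‖ := by
  have hfd : ∀ z, ‖fderiv ℝ G z‖ ≤ K := fun z => norm_fderiv_le_of_lipschitz ℝ hl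
  set a := Pt (ml mA c)
  set bb := Pt (ml mB c)
  set cc := Pt (ml mC c)
  have hX : ∀ x, ‖XX c x‖ ≤ ‖a x‖ + ‖bb x‖ + ‖cc x‖ := by
    intro x
    unfold XX
    rw [Prod.norm_def]
    refine max_le ?_ ?_
    · have := norm_add_le (a x) (cc x)
      have h0 := norm_nonneg (bb x)
      show ‖a x + cc x‖ ≤ _
      linarith
    · have := norm_add_le (cc x) (bb x)
      have h0 := norm_nonneg (a x)
      show ‖cc x + bb x‖ ≤ _
      linarith
  have hY : ∀ x, ‖YY c x‖ ≤ ‖a x‖ + ‖bb x‖ + ‖cc x‖ := by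
    intro x
    unfold YY
    rw [Prod.norm_def]
    refine max_le ?_ ?_
    · have := norm_sub_le (cc x) (a x)
      have h0 := norm_nonneg (bb x)
      show ‖I * (cc x - a x)‖ ≤ _
      rw [norm_mul, Complex.norm_I, one_mul]
      linarith
    · have := norm_sub_le (bb x) (cc x)
      have h0 := norm_nonneg (a x)
      show ‖I * (bb x - cc x)‖ ≤ _
      rw [norm_mul, Complex.norm_I, one_mul]
      linarith
  have hlx : ∀ w : ℂ, ‖lx w‖ = ‖w‖ / 2 := by
    intro w
    unfold lx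
    rw [Prod.norm_def]
    simp
  have hly : ∀ w : ℂ, ‖ly w‖ = ‖w‖ / 2 := by
    intro w
    unfold ly
    rw [Prod.norm_def]
    simp
  have hell : ∀ x w, |ell G c x w| ≤ K * (‖a x‖ + ‖bb x‖ + ‖cc x‖) * ‖w‖ := by
    intro x w
    unfold ell
    have h1 : ‖fderiv ℝ G (Ff c x) (XX c x) (lx w)‖ ≤
        K * (‖a x‖ + ‖bb x‖ + ‖cc x‖) * (‖w‖ / 2) := by
      refine (ContinuousLinearMap.le_opNorm _ _).trans ?_
      rw [hlx]
      refine mul_le_mul_of_nonneg_right ?_ (by positivity)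
      refine (ContinuousLinearMap.le_opNorm _ _).trans ?_
      exact mul_le_mul (hfd _) (hX x) (norm_nonneg _) K.2
    have h2 : ‖fderiv ℝ G (Ff c x) (YY c x) (ly w)‖ ≤
        K * (‖a x‖ + ‖bb x‖ + ‖cc x‖) * (‖w‖ / 2) := by
      refine (ContinuousLinearMap.le_opNorm _ _).trans ?_
      rw [hly]
      refine mul_le_mul_of_nonneg_right ?_ (by positivity)
      refine (ContinuousLinearMap.le_opNorm _ _).trans ?_
      exact mul_le_mul (hfd _) (hY x) (norm_nonneg _) K.2
    rw [Real.norm_eq_abs] at h1 h2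
    have h3 := abs_add_le (fderiv ℝ G (Ff c x) (XX c x) (lx w))
      (fderiv ℝ G (Ff c x) (YY c x) (ly w))
    linarith
  have hZ : ∀ x, ‖Zf hG c x‖ ≤ K * (‖a x‖ + ‖bb x‖ + ‖cc x‖) := by
    intro x
    have h1 := re_Zf hG c x (Zf hG c x)
    rw [mul_comm, Complex.mul_conj, Complex.normSq_eq_norm_sq, Complex.ofReal_re] at h1
    have h2 := hell x (Zf hG c x)
    rw [← h1, abs_of_nonneg (by positivity)] at h2
    by_cases h0 : ‖Zf hG c x‖ = 0
    · rw [h0]
      have := K.2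
      positivity
    · have h3 : 0 < ‖Zf hG c x‖ := lt_of_le_of_ne (norm_nonneg _) (Ne.symm h0)
      have h4 : ‖Zf hG c x‖ * ‖Zf hG c x‖ ≤
          K * (‖a x‖ + ‖bb x‖ + ‖cc x‖) * ‖Zf hG c x‖ := by
        rw [← pow_two]
        exact h2
      exact le_of_mul_le_mul_right h4 h3
  have hA : ‖L a‖ ≤ 1 / 4 * ‖L (Pt (Lap wt c))‖ := by
    refine norm_ml_le (by norm_num) fun k => ?_
    rw [Lap_apply, norm_mul, norm_mul, norm_neg, Complex.norm_real, Real.norm_eq_abs,
      abs_of_nonneg (by linarith [wt_ge k]), norm_mA, ← mul_assoc]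
    exact mul_le_mul_of_nonneg_right (by linarith [wt_ge_om k]) (norm_nonneg _)
  have hBb : ‖L bb‖ ≤ 1 / 4 * ‖L (Pt (Lap wt c))‖ := by
    refine norm_ml_le (by norm_num) fun k => ?_
    rw [Lap_apply, norm_mul, norm_mul, norm_neg, Complex.norm_real, Real.norm_eq_abs,
      abs_of_nonneg (by linarith [wt_ge k]), norm_mB, ← mul_assoc]
    exact mul_le_mul_of_nonneg_right (by linarith [wt_ge_om k]) (norm_nonneg _)
  have hC : ‖L cc‖ ≤ 1 / 4 * ‖L (Pt (Lap wt c))‖ := by
    refine norm_ml_le (by norm_num) fun k => ?_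
    rw [Lap_apply, norm_mul, norm_mul, norm_neg, Complex.norm_real, Real.norm_eq_abs,
      abs_of_nonneg (by linarith [wt_ge k]), norm_mC, ← mul_assoc]
    exact mul_le_mul_of_nonneg_right (by linarith [wt_ge_om k]) (norm_nonneg _)
  rw [io_bas]
  refine le_of_sq_le_sq ?_ (by have := K.2; positivity)
  rw [norm_L_sq]
  have h1 : ∫ x, ‖Zf hG c x‖ ^ 2 ≤
      ∫ x, 3 * (K : ℝ) ^ 2 * (‖a x‖ ^ 2 + ‖bb x‖ ^ 2 + ‖cc x‖ ^ 2) := by
    refine integral_mono (integrable_of_cont (by fun_prop)) (integrable_of_cont (by fun_prop))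
      fun x => ?_
    have h2 := pow_le_pow_left₀ (norm_nonneg _) (hZ x) 2
    refine h2.trans ?_
    have h3 : (‖a x‖ + ‖bb x‖ + ‖cc x‖) ^ 2 ≤ 3 * (‖a x‖ ^ 2 + ‖bb x‖ ^ 2 + ‖cc x‖ ^ 2) := by
      nlinarith [sq_nonneg (‖a x‖ - ‖bb x‖), sq_nonneg (‖a x‖ - ‖cc x‖),
        sq_nonneg (‖bb x‖ - ‖cc x‖)]
    rw [mul_pow]
    have h4 := mul_le_mul_of_nonneg_left h3 (sq_nonneg (K : ℝ))
    show (K : ℝ) ^ 2 * (‖a x‖ + ‖bb x‖ + ‖cc x‖) ^ 2 ≤
      3 * (K : ℝ) ^ 2 * (‖a x‖ ^ 2 + ‖bb x‖ ^ 2 + ‖cc x‖ ^ 2)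
    linarith
  refine h1.trans ?_
  rw [integral_const_mul, integral_add (integrable_of_cont (by fun_prop))
    (integrable_of_cont (by fun_prop)), integral_add (integrable_of_cont (by fun_prop))
    (integrable_of_cont (by fun_prop)), ← norm_L_sq, ← norm_L_sq, ← norm_L_sq]
  have a1 := pow_le_pow_left₀ (norm_nonneg _) hA 2
  have a2 := pow_le_pow_left₀ (norm_nonneg _) hBb 2
  have a3 := pow_le_pow_left₀ (norm_nonneg _) hC 2
  rw [mul_pow] at a1 a2 a3
  have h5 : 3 * (K : ℝ) ^ 2 * (‖L a‖ ^ 2 + ‖L bb‖ ^ 2 + ‖L cc‖ ^ 2) ≤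
      3 * (K : ℝ) ^ 2 * (3 * ((1 / 4) ^ 2 * ‖L (Pt (Lap wt c))‖ ^ 2)) :=
    mul_le_mul_of_nonneg_left (by linarith) (by positivity)
  refine h5.trans ?_
  have h6 : 0 ≤ (K : ℝ) ^ 2 * ‖L (Pt (Lap wt c))‖ ^ 2 := by positivity
  nlinarith

/-- the flow theorem for finitely supported coefficients -/
theorem flow_tp (hB1 : Helper87.NF.StB1) (hB2 : Helper87.NF.StB2) (hθ : 0 ≤ θ) (hθ1 : θ < 1) (hs : SmN U G η μ θ K)
    (c : ℤ × ℤ →₀ ℂ) : 0 ≤ II U c := by
  obtain ⟨Lm, hL⟩ := hs.lμ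
  have hμ : Continuous μ := hL.continuous
  have h1 := (fl hμ hθ hθ1 hs.bμ hL).main (fun c => L (Zf hs.cG c)) (II U) (Cz := 2 * K)
    (K1 := K) (κ := 0) K.2 (fun c => norm_Zf hs.cG hs.lipG c)
    (fun c d => II_taylor hB1 hs.cG hs.der hs.lipG c d) le_rfl
    (fun c => by
      rw [zero_mul, neg_zero]
      exact dissip hB1 hB2 hs hμ c) c
  rw [zero_mul, add_zero] at h1
  have h2 : II U 0 = 0 := by
    unfold II
    have h3 : ∀ x, Ff 0 x = 0 := fun x => by
      have := Ff_single_zero 0 x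
      rwa [Finsupp.single_zero] at this
    simp only [h3, hs.U0, integral_zero]
  rw [h2] at h1
  exact h1

/-- B5 -/
theorem pf_B5 (hB1 : Helper87.NF.StB1) (hB2 : Helper87.NF.StB2) : StB5 := by
  classical
  intro U G η μ θ K hθ hθ1 hs N c
  set c₀ : ℤ × ℤ →₀ ℂ := Finsupp.onFinset (Bx N) (fun k => if k ∈ Bx N then c k else 0) (by
    intro k hk
    by_contra h
    rw [if_neg h] at hk
    exact hk rfl) with hc₀
  have hsup : c₀.support ⊆ Bx N := Finsupp.support_onFinset_subset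
  have h1 := flow_tp hB1 hB2 hθ hθ1 hs c₀
  unfold II at h1
  rw [integral_tau] at h1
  have h2 : ∀ z, Ff c₀ (tau z) = tF N c z := by
    intro z
    rw [Ff_tau hsup]
    have h3 : ∀ k ∈ Bx N, c₀ k = c k := fun k hk => by
      rw [hc₀, Finsupp.onFinset_apply, if_pos hk]
    unfold tF tp
    refine Prod.ext ?_ ?_
    · refine Finset.sum_congr rfl fun k hk => ?_
      show mF k * c₀ k * ek k z = mF k * c k * ek k z
      rw [h3 k hk]
    · refine Finset.sum_congr rfl fun k hk => ?_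
      show mG k * c₀ k * ek k z = mG k * c k * ek k z
      rw [h3 k hk]
  simp only [h2] at h1
  exact h1

end Helper76.IF
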