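import Mathlib

/-!
Abstract Euler-Galerkin scheme in a Hilbert space, part 1: finite linear combinations of a Hilbert
basis, the energy of a finitely supported family of coefficients, truncation.
-/

open Finset
open scoped ComplexConjugate

namespace Pool.Agent.Helper76.IF

variable {K H : Type*} [NormedAddCommGroup H] [InnerProductSpace ℂ H]

/-- the vector with the given finitely many coefficients -/
noncomputable def io (b : HilbertBasis K ℂ H) : (K →₀ ℂ) →ₗ[ℂ] H := Finsupp.linearCombination ℂ b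

/-- the weighted energy -/
noncomputable def En (lam : K → ℝ) (c : K →₀ ℂ) : ℝ := ∑ k ∈ c.support, lam k * ‖c k‖ ^ 2

/-- the diagonal operator with symbol `-lam` -/
noncomputable def Lap (lam : K → ℝ) (c : K →₀ ℂ) : K →₀ ℂ :=
  Finsupp.onFinset c.support (fun k => -(lam k : ℂ) * c k) (by
    intro k hk
    rw [Finsupp.mem_support_iff]
    exact right_ne_zero_of_mul hk)

/-- the first coefficients of a vector -/
noncomputable def pr (b : HilbertBasis K ℂ H) (S : Finset K) (y : H) : K →₀ ℂ :=
  ∑ k ∈ S, Finsupp.single k (inner ℂ (b k) y)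

/-- the part of a family with coefficients in the set `S` -/
noncomputable def low (S : Finset K) (c : K →₀ ℂ) : K →₀ ℂ := by
  classical exact c.filter (fun k => k ∈ S)

/-- the part of a family with coefficients outside the set `S` -/
noncomputable def high (S : Finset K) (c : K →₀ ℂ) : K →₀ ℂ := by
  classical exact c.filter (fun k => k ∉ S)

variable (b : HilbertBasis K ℂ H) (lam : K → ℝ)

@[simp] theorem Lap_apply (c : K →₀ ℂ) (k : K) : Lap lam c k = -(lam k : ℂ) * c k := rfl

theorem Lap_zero : Lap lam 0 = 0 := by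
  ext k
  simp

theorem pr_apply (S : Finset K) (y : H) (k : K) [Decidable (k ∈ S)] :
    pr b S y k = if k ∈ S then inner ℂ (b k) y else 0 := by
  classical
  unfold pr
  rw [Finsupp.finsetSum_apply]
  simp only [Finsupp.single_apply]
  rw [Finset.sum_ite_eq']
  split_ifs <;> rfl

theorem pr_support (S : Finset K) (y : H) : (pr b S y).support ⊆ S := by
  classical
  intro k hk
  by_contra h
  rw [Finsupp.mem_support_iff, pr_apply, if_neg h] at hk
  exact hk rfl

theorem low_apply (S : Finset K) (c : K →₀ ℂ) (k : K) [Decidable (k ∈ S)] :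
    low S c k = if k ∈ S then c k else 0 := by
  classical
  unfold low
  rw [Finsupp.filter_apply]
  split_ifs <;> rfl

theorem high_apply (S : Finset K) (c : K →₀ ℂ) (k : K) [Decidable (k ∈ S)] :
    high S c k = if k ∈ S then 0 else c k := by
  classical
  unfold high
  rw [Finsupp.filter_apply]
  by_cases h : k ∈ S
  · rw [if_neg (by simpa using h), if_pos h]
  · rw [if_pos h, if_neg h]

theorem low_add_high (S : Finset K) (c : K →₀ ℂ) : low S c + high S c = c := by
  classical
  ext k
  rw [Finsupp.add_apply, low_apply, high_apply]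
  split_ifs <;> simp

theorem low_support (S : Finset K) (c : K →₀ ℂ) : (low S c).support ⊆ S := by
  classical
  intro k hk
  by_contra h
  rw [Finsupp.mem_support_iff, low_apply, if_neg h] at hk
  exact hk rfl

theorem high_support (S : Finset K) (c : K →₀ ℂ) : ∀ k ∈ (high S c).support, k ∉ S := by
  classical
  intro k hk h
  rw [Finsupp.mem_support_iff, high_apply, if_pos h] at hk
  exact hk rfl

theorem En_eq {S : Finset K} {c : K →₀ ℂ} (h : c.support ⊆ S) :
    En lam c = ∑ k ∈ S, lam k * ‖c k‖ ^ 2 := by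
  unfold En
  refine Finset.sum_subset h fun k _ hk => ?_
  rw [Finsupp.notMem_support_iff.mp hk]
  simp

variable {lam}

theorem En_nonneg (h : ∀ k, 0 ≤ lam k) (c : K →₀ ℂ) : 0 ≤ En lam c :=
  Finset.sum_nonneg fun k _ => mul_nonneg (h k) (by positivity)

variable (lam)

theorem En_zero : En lam 0 = 0 := by
  unfold En
  simp

theorem io_eq {S : Finset K} {c : K →₀ ℂ} (h : c.support ⊆ S) :
    io b c = ∑ k ∈ S, c k • b k := by
  unfold io
  rw [Finsupp.linearCombination_apply, Finsupp.sum]
  refine Finset.sum_subset h fun k _ hk => ?_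
  rw [Finsupp.notMem_support_iff.mp hk, zero_smul]

theorem io_single (k : K) (z : ℂ) : io b (Finsupp.single k z) = z • b k := by
  unfold io
  rw [Finsupp.linearCombination_single]

theorem inner_basis_io (c : K →₀ ℂ) (k : K) : inner ℂ (b k) (io b c) = c k :=
  b.orthonormal.inner_right_finsupp c k

/-- the inner product of a finite combination with a vector -/
theorem inner_io {S : Finset K} {c : K →₀ ℂ} (h : c.support ⊆ S) (y : H) :
    inner ℂ (io b c) y = ∑ k ∈ S, conj (c k) * inner ℂ (b k) y := by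
  rw [io_eq b h, sum_inner]
  refine Finset.sum_congr rfl fun k _ => ?_
  rw [inner_smul_left]

theorem norm_io_sq {S : Finset K} {c : K →₀ ℂ} (h : c.support ⊆ S) :
    ‖io b c‖ ^ 2 = ∑ k ∈ S, ‖c k‖ ^ 2 := by
  have h1 : ((‖io b c‖ ^ 2 : ℝ) : ℂ) = ((∑ k ∈ S, ‖c k‖ ^ 2 : ℝ) : ℂ) := by
    have h2 := inner_self_eq_norm_sq_to_K (𝕜 := ℂ) (io b c)
    rw [inner_io b h] at h2
    simp only [inner_basis_io] at h2
    push_cast
    rw [show ((‖io b c‖ : ℂ)) = ((‖io b c‖ : ℝ) : ℂ) from rfl] 
    refine Eq.trans h2.symm ?_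
    refine Finset.sum_congr rfl fun k _ => ?_
    rw [mul_comm, Complex.mul_conj, Complex.normSq_eq_norm_sq]
    push_cast
    rfl
  exact_mod_cast h1

/-- Bessel's inequality for finite sets, for the vector `pr b S y` -/
theorem norm_io_pr_sq (S : Finset K) (y : H) :
    ‖io b (pr b S y)‖ ^ 2 = ∑ k ∈ S, ‖inner ℂ (b k) y‖ ^ 2 := by
  classical
  rw [norm_io_sq b (pr_support b S y)]
  refine Finset.sum_congr rfl fun k hk => ?_
  rw [pr_apply, if_pos hk]

/-- the remainder after truncation -/
noncomputable def tl (S : Finset K) (y : H) : H := y - io b (pr b S y)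

theorem inner_basis_tl (S : Finset K) (y : H) {k : K} (hk : k ∈ S) :
    inner ℂ (b k) (tl b S y) = 0 := by
  classical
  unfold tl
  rw [inner_sub_right, inner_basis_io, pr_apply, if_pos hk, sub_self]

theorem inner_io_tl {S : Finset K} {c : K →₀ ℂ} (h : c.support ⊆ S) (y : H) :
    inner ℂ (io b c) (tl b S y) = 0 := by
  rw [inner_io b h]
  refine Finset.sum_eq_zero fun k hk => ?_
  rw [inner_basis_tl b S y hk, mul_zero]

theorem norm_tl_sq (S : Finset K) (y : H) :
    ‖tl b S y‖ ^ 2 = ‖y‖ ^ 2 - ‖io b (pr b S y)‖ ^ 2 := by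
  have h1 : inner ℂ (io b (pr b S y)) (tl b S y) = 0 := inner_io_tl b (pr_support b S y) y
  have h2 : y = tl b S y + io b (pr b S y) := by
    unfold tl
    abel
  have h3 := norm_add_sq (𝕜 := ℂ) (tl b S y) (io b (pr b S y))
  rw [← h2] at h3
  have h4 : RCLike.re (inner ℂ (tl b S y) (io b (pr b S y))) = 0 := by
    rw [← inner_conj_symm, h1]
    simp
  rw [h4] at h3
  linarith

theorem norm_tl_le (S : Finset K) (y : H) : ‖tl b S y‖ ≤ ‖y‖ := by
  have h1 := norm_tl_sq b S y
  have h2 : 0 ≤ ‖io b (pr b S y)‖ ^ 2 := by positivity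
  have h3 : ‖tl b S y‖ ^ 2 ≤ ‖y‖ ^ 2 := by linarith
  exact le_of_sq_le_sq h3 (norm_nonneg _)

theorem norm_io_pr_le (S : Finset K) (y : H) : ‖io b (pr b S y)‖ ≤ ‖y‖ := by
  have h1 := norm_tl_sq b S y
  have h2 : 0 ≤ ‖tl b S y‖ ^ 2 := by positivity
  have h3 : ‖io b (pr b S y)‖ ^ 2 ≤ ‖y‖ ^ 2 := by linarith
  exact le_of_sq_le_sq h3 (norm_nonneg _)

theorem pr_sub (S : Finset K) (x y : H) : pr b S (x - y) = pr b S x - pr b S y := by
  classical
  ext k
  rw [Finsupp.sub_apply, pr_apply, pr_apply, pr_apply]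
  split_ifs
  · rw [inner_sub_right]
  · simp

theorem pr_add (S : Finset K) (x y : H) : pr b S (x + y) = pr b S x + pr b S y := by
  classical
  ext k
  rw [Finsupp.add_apply, pr_apply, pr_apply, pr_apply]
  split_ifs
  · rw [inner_add_right]
  · simp

theorem pr_smul (S : Finset K) (z : ℂ) (y : H) : pr b S (z • y) = z • pr b S y := by
  classical
  ext k
  rw [Finsupp.smul_apply, pr_apply, pr_apply]
  split_ifs
  · rw [inner_smul_right]
    rfl
  · simp

theorem tl_sub (S : Finset K) (x y : H) : tl b S (x - y) = tl b S x - tl b S y := by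
  unfold tl
  rw [pr_sub, map_sub]
  abel

theorem tl_add (S : Finset K) (x y : H) : tl b S (x + y) = tl b S x + tl b S y := by
  unfold tl
  rw [pr_add, map_add]
  abel

theorem tl_smul (S : Finset K) (z : ℂ) (y : H) : tl b S (z • y) = z • tl b S y := by
  unfold tl
  rw [pr_smul, map_smul, smul_sub]

theorem pr_io {S : Finset K} {c : K →₀ ℂ} (h : c.support ⊆ S) : pr b S (io b c) = c := by
  classical
  ext k
  rw [pr_apply, inner_basis_io]
  split_ifs with hk
  · rfl
  · exact (Finsupp.notMem_support_iff.mp fun h' => hk (h h')).symm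

theorem tl_io {S : Finset K} {c : K →₀ ℂ} (h : c.support ⊆ S) : tl b S (io b c) = 0 := by
  unfold tl
  rw [pr_io b h, sub_self]

/-- truncation converges -/
theorem tl_tendsto (y : H) {ε : ℝ} (hε : 0 < ε) :
    ∃ S₀ : Finset K, ∀ S : Finset K, S₀ ≤ S → ‖tl b S y‖ < ε := by
  have h1 : Filter.Tendsto (fun S : Finset K => ∑ k ∈ S, b.repr y k • b k) Filter.atTop
      (nhds y) := by
    have h0 := b.hasSum_repr y
    rw [HasSum, SummationFilter.unconditional_filter] at h0
    exact h0
  have h2 : ∀ᶠ S : Finset K in Filter.atTop, dist (∑ k ∈ S, b.repr y k • b k) y < ε :=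
    (Metric.tendsto_nhds.mp h1) ε hε
  obtain ⟨S₀, hS₀⟩ := Filter.eventually_atTop.mp h2
  refine ⟨S₀, fun S hS => ?_⟩
  have h3 := hS₀ S hS
  have h4 : io b (pr b S y) = ∑ k ∈ S, b.repr y k • b k := by
    classical
    rw [io_eq b (pr_support b S y)]
    refine Finset.sum_congr rfl fun k hk => ?_
    rw [pr_apply, if_pos hk, b.repr_apply_apply]
  rw [← h4, dist_eq_norm] at h3
  unfold tl
  rw [← norm_neg]
  rw [show -(y - io b (pr b S y)) = io b (pr b S y) - y by abel]
  exact h3

/-- truncation converges uniformly on compact sets -/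
theorem tl_compact {A : Set H} (hA : IsCompact A) {ε : ℝ} (hε : 0 < ε) :
    ∃ S₀ : Finset K, ∀ S : Finset K, S₀ ≤ S → ∀ y ∈ A, ‖tl b S y‖ < ε := by
  classical
  have h1 := hA.totallyBounded
  rw [Metric.totallyBounded_iff] at h1
  obtain ⟨t, ht, hcov⟩ := h1 (ε / 2) (by linarith)
  choose g hg using fun y : H => tl_tendsto b y (ε := ε / 2) (by linarith)
  refine ⟨ht.toFinset.biUnion g, fun S hS y hy => ?_⟩
  have h2 := hcov hy
  simp only [Set.mem_iUnion, Metric.mem_ball] at h2
  obtain ⟨x, hx, hyx⟩ := h2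
  have h3 : ‖tl b S x‖ < ε / 2 := hg x S
    (le_trans (Finset.subset_biUnion_of_mem g (ht.mem_toFinset.mpr hx)) hS)
  have h4 : tl b S y = tl b S (y - x) + tl b S x := by
    rw [← tl_add, sub_add_cancel]
  rw [h4]
  have h5 : ‖tl b S (y - x)‖ < ε / 2 := by
    refine (norm_tl_le b S _).trans_lt ?_
    rwa [← dist_eq_norm]
  linarith [norm_add_le (tl b S (y - x)) (tl b S x)]

end Pool.Agent.Helper76.IF
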