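import Pool.Agent.Helper76.IF.Abs1

/-!
Abstract Euler-Galerkin scheme in a Hilbert space, part 2: the scheme and the energy estimates.
-/

open Finset
open scoped ComplexConjugate

namespace Pool.Agent.Helper76.IF

variable {K H : Type*} [NormedAddCommGroup H] [InnerProductSpace ℂ H]

/-- the data of the abstract flow: weights, and a perturbation `B c` of the identity of norm less
than one which depends on the state `c` -/
structure Flow (b : HilbertBasis K ℂ H) where
  lam : K → ℝ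
  lam0 : ℝ
  lam0_pos : 0 < lam0
  lam_ge : ∀ k, lam0 ≤ lam k
  fin : ∀ R : ℝ, {k | lam k ≤ R}.Finite
  B : (K →₀ ℂ) → (K →₀ ℂ) →ₗ[ℂ] H
  th : ℝ
  th_nonneg : 0 ≤ th
  th_lt : th < 1
  B_bound : ∀ c d, ‖B c d‖ ≤ th * ‖io b d‖
  L : K → ℝ
  B_lip : ∀ c c' k, ‖B c (Finsupp.single k 1) - B c' (Finsupp.single k 1)‖ ^ 2 ≤
    L k * En lam (c - c')

namespace Flow

variable {b : HilbertBasis K ℂ H} (F : Flow b)

/-- the modes with weight at most `R` -/
noncomputable def S (R : ℝ) : Finset K := (F.fin R).toFinset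

theorem mem_S {R : ℝ} {k : K} : k ∈ F.S R ↔ F.lam k ≤ R := by
  unfold S
  simp

theorem S_mono {R R' : ℝ} (h : R ≤ R') : F.S R ⊆ F.S R' := fun _ hk =>
  F.mem_S.mpr ((F.mem_S.mp hk).trans h)

theorem lam_pos (k : K) : 0 < F.lam k := F.lam0_pos.trans_le (F.lam_ge k)

/-- the right-hand side of the equation -/
noncomputable def Y (c : K →₀ ℂ) : H := io b (Lap F.lam c) + F.B c (Lap F.lam c)

/-- the squared norm of the Laplacian -/
noncomputable def X (c : K →₀ ℂ) : ℝ := ‖io b (Lap F.lam c)‖ ^ 2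

theorem X_nonneg (c : K →₀ ℂ) : 0 ≤ F.X c := by
  unfold X
  positivity

/-- one step of the explicit scheme -/
noncomputable def step (N h : ℝ) (c : K →₀ ℂ) : K →₀ ℂ := c + (h : ℂ) • pr b (F.S N) (F.Y c)

/-- the trajectory -/
noncomputable def traj (N h : ℝ) (c₀ : K →₀ ℂ) : ℕ → (K →₀ ℂ)
  | 0 => c₀
  | j + 1 => F.step N h (traj N h c₀ j)

theorem norm_Y_le (c : K →₀ ℂ) : ‖F.Y c‖ ≤ 2 * ‖io b (Lap F.lam c)‖ := by
  unfold Y
  refine (norm_add_le _ _).trans ?_
  have h1 := F.B_bound c (Lap F.lam c)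
  have h2 : F.th * ‖io b (Lap F.lam c)‖ ≤ 1 * ‖io b (Lap F.lam c)‖ :=
    mul_le_mul_of_nonneg_right F.th_lt.le (norm_nonneg _)
  linarith

theorem norm_Y_sq_le (c : K →₀ ℂ) : ‖F.Y c‖ ^ 2 ≤ 4 * F.X c := by
  unfold X
  have h1 := F.norm_Y_le c
  have h2 := norm_nonneg (F.Y c)
  nlinarith

theorem re_Y (c : K →₀ ℂ) :
    (1 - F.th) * F.X c ≤ (inner ℂ (io b (Lap F.lam c)) (F.Y c)).re := by
  unfold Y X
  rw [inner_add_right, Complex.add_re]
  have h1 : (inner ℂ (io b (Lap F.lam c)) (io b (Lap F.lam c))).re =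
      ‖io b (Lap F.lam c)‖ ^ 2 := by
    have := inner_self_eq_norm_sq (𝕜 := ℂ) (io b (Lap F.lam c))
    exact this
  have h2 : |(inner ℂ (io b (Lap F.lam c)) (F.B c (Lap F.lam c))).re| ≤
      ‖io b (Lap F.lam c)‖ * (F.th * ‖io b (Lap F.lam c)‖) :=
    (Complex.abs_re_le_norm _).trans ((norm_inner_le_norm _ _).trans
      (mul_le_mul_of_nonneg_left (F.B_bound _ _) (norm_nonneg _)))
  have h3 := (abs_le.mp h2).1
  rw [h1]
  nlinarith

theorem step_support {N : ℝ} (h : ℝ) {c : K →₀ ℂ} (hc : c.support ⊆ F.S N) :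
    (F.step N h c).support ⊆ F.S N := by
  classical
  unfold step
  refine Finsupp.support_add.trans (Finset.union_subset hc ?_)
  exact Finsupp.support_smul.trans (pr_support b _ _)

theorem traj_support {N : ℝ} (h : ℝ) {c₀ : K →₀ ℂ} (hc : c₀.support ⊆ F.S N) (j : ℕ) :
    (F.traj N h c₀ j).support ⊆ F.S N := by
  induction j with
  | zero => exact hc
  | succ j ih => exact F.step_support h ih

theorem Lap_support (c : K →₀ ℂ) : (Lap F.lam c).support ⊆ c.support := by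
  intro k hk
  rw [Finsupp.mem_support_iff, Lap_apply] at hk
  rw [Finsupp.mem_support_iff]
  exact right_ne_zero_of_mul hk

/-- energy of the modes outside `S'` along one step -/
theorem high_step {N h : ℝ} (hh : 0 ≤ h) (S' : Finset K) {c : K →₀ ℂ}
    (hc : c.support ⊆ F.S N) :
    En F.lam (high S' (F.step N h c)) ≤ En F.lam (high S' c) -
      2 * h * (inner ℂ (io b (high S' (Lap F.lam c))) (F.Y c)).re + h ^ 2 * N * ‖F.Y c‖ ^ 2 := by
  classical
  set S := F.S N with hS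
  have hsub : ∀ d : K →₀ ℂ, d.support ⊆ S → (high S' d).support ⊆ S \ S' := by
    intro d hd k hk
    rw [Finset.mem_sdiff]
    refine ⟨hd ?_, high_support S' d k hk⟩
    rw [Finsupp.mem_support_iff, high_apply] at hk
    rw [Finsupp.mem_support_iff]
    split_ifs at hk
    · exact absurd rfl hk
    · exact hk
  have hval : ∀ d : K →₀ ℂ, ∀ k ∈ S \ S', high S' d k = d k := by
    intro d k hk
    rw [high_apply, if_neg (Finset.mem_sdiff.mp hk).2]
  have e1 : En F.lam (high S' (F.step N h c)) =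
      ∑ k ∈ S \ S', F.lam k * ‖c k + h * inner ℂ (b k) (F.Y c)‖ ^ 2 := by
    rw [En_eq F.lam (hsub _ (F.step_support h hc))]
    refine Finset.sum_congr rfl fun k hk => ?_
    rw [hval _ k hk]
    unfold step
    rw [Finsupp.add_apply, Finsupp.smul_apply, pr_apply, if_pos (Finset.mem_sdiff.mp hk).1,
      smul_eq_mul]
  have e2 : En F.lam (high S' c) = ∑ k ∈ S \ S', F.lam k * ‖c k‖ ^ 2 := by
    rw [En_eq F.lam (hsub _ hc)]
    refine Finset.sum_congr rfl fun k hk => ?_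
    rw [hval _ k hk]
  have e3 : (inner ℂ (io b (high S' (Lap F.lam c))) (F.Y c)).re =
      -∑ k ∈ S \ S', F.lam k * (conj (c k) * inner ℂ (b k) (F.Y c)).re := by
    rw [inner_io b (hsub _ ((F.Lap_support c).trans hc)), Complex.re_sum,
      ← Finset.sum_neg_distrib]
    refine Finset.sum_congr rfl fun k hk => ?_
    rw [hval _ k hk, Lap_apply, map_mul, map_neg, Complex.conj_ofReal]
    rw [show -(F.lam k : ℂ) * conj (c k) * inner ℂ (b k) (F.Y c) =
      ((-F.lam k : ℝ) : ℂ) * (conj (c k) * inner ℂ (b k) (F.Y c)) by push_cast; ring,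
      Complex.re_ofReal_mul]
    ring
  have e4 : ∀ k, ‖c k + h * inner ℂ (b k) (F.Y c)‖ ^ 2 = ‖c k‖ ^ 2 +
      2 * h * (conj (c k) * inner ℂ (b k) (F.Y c)).re + h ^ 2 * ‖inner ℂ (b k) (F.Y c)‖ ^ 2 := by
    intro k
    rw [← Complex.normSq_eq_norm_sq, ← Complex.normSq_eq_norm_sq, ← Complex.normSq_eq_norm_sq,
      Complex.normSq_add, Complex.normSq_mul, Complex.normSq_ofReal]
    simp only [Complex.mul_re, Complex.mul_im, Complex.conj_re, Complex.conj_im,
      Complex.ofReal_re, Complex.ofReal_im, map_mul, Complex.conj_ofReal]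
    ring
  have e5 : ∑ k ∈ S \ S', F.lam k * ‖inner ℂ (b k) (F.Y c)‖ ^ 2 ≤ N * ‖F.Y c‖ ^ 2 := by
    have h1 : ∑ k ∈ S \ S', F.lam k * ‖inner ℂ (b k) (F.Y c)‖ ^ 2 ≤
        ∑ k ∈ S, N * ‖inner ℂ (b k) (F.Y c)‖ ^ 2 := by
      refine (Finset.sum_le_sum fun k hk => ?_).trans
        (Finset.sum_le_sum_of_subset_of_nonneg Finset.sdiff_subset fun k hk _ => ?_)
      · exact mul_le_mul_of_nonneg_right (F.mem_S.mp (Finset.mem_sdiff.mp hk).1) (by positivity)
      · exact mul_nonneg ((F.lam_pos k).le.trans (F.mem_S.mp hk)) (by positivity)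
    refine h1.trans ?_
    rw [← Finset.mul_sum]
    by_cases hN : 0 ≤ N
    · refine mul_le_mul_of_nonneg_left ?_ hN
      rw [← norm_io_pr_sq b S (F.Y c)]
      exact pow_le_pow_left₀ (norm_nonneg _) (norm_io_pr_le b S _) 2
    · have h2 : S = ∅ := by
        rw [Finset.eq_empty_iff_forall_notMem]
        intro k hk
        exact hN ((F.lam_pos k).le.trans (F.mem_S.mp hk))
      have h3 : c = 0 := by
        rw [← Finsupp.support_eq_empty]
        exact Finset.subset_empty.mp (h2 ▸ hc)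
      have h4 : F.Y c = 0 := by
        have := F.norm_Y_le c
        rw [h3, Lap_zero, map_zero, norm_zero, mul_zero] at this
        rw [h3]
        exact norm_le_zero_iff.mp this
      rw [h4]
      simp
  rw [e1, e2, e3]
  have e6 : ∑ k ∈ S \ S', F.lam k * ‖c k + h * inner ℂ (b k) (F.Y c)‖ ^ 2 =
      (∑ k ∈ S \ S', F.lam k * ‖c k‖ ^ 2) +
      2 * h * (∑ k ∈ S \ S', F.lam k * (conj (c k) * inner ℂ (b k) (F.Y c)).re) +
      h ^ 2 * ∑ k ∈ S \ S', F.lam k * ‖inner ℂ (b k) (F.Y c)‖ ^ 2 := by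
    rw [Finset.mul_sum, Finset.mul_sum, ← Finset.sum_add_distrib, ← Finset.sum_add_distrib]
    refine Finset.sum_congr rfl fun k _ => ?_
    rw [e4]
    ring
  rw [e6]
  have e7 := mul_le_mul_of_nonneg_left e5 (sq_nonneg h)
  nlinarith

theorem high_empty (c : K →₀ ℂ) : high ∅ c = c := by
  classical
  ext k
  rw [high_apply, if_neg (Finset.notMem_empty k)]

/-- the energy estimate for one step -/
theorem En_step {N h : ℝ} (hh : 0 ≤ h) (hN : 4 * h * N ≤ 1 - F.th) {c : K →₀ ℂ}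
    (hc : c.support ⊆ F.S N) :
    En F.lam (F.step N h c) ≤ En F.lam c - h * (1 - F.th) * F.X c := by
  have h1 := F.high_step hh ∅ hc
  rw [high_empty, high_empty, high_empty] at h1
  have h2 := F.re_Y c
  have h3 := F.norm_Y_sq_le c
  have h4 := F.X_nonneg c
  have h5 : h ^ 2 * N * ‖F.Y c‖ ^ 2 ≤ h * (1 - F.th) * F.X c := by
    by_cases hN0 : 0 ≤ N
    · calc h ^ 2 * N * ‖F.Y c‖ ^ 2 ≤ h ^ 2 * N * (4 * F.X c) :=
            mul_le_mul_of_nonneg_left h3 (by positivity)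
        _ = h * (4 * h * N) * F.X c := by ring
        _ ≤ h * (1 - F.th) * F.X c :=
            mul_le_mul_of_nonneg_right (mul_le_mul_of_nonneg_left hN hh) h4
    · have p1 : 0 ≤ h * (1 - F.th) * F.X c :=
        mul_nonneg (mul_nonneg hh (by linarith [F.th_lt])) h4
      have p2 : h ^ 2 * N * ‖F.Y c‖ ^ 2 ≤ 0 :=
        mul_nonpos_of_nonpos_of_nonneg
          (mul_nonpos_of_nonneg_of_nonpos (by positivity) (not_le.mp hN0).le) (by positivity)
      linarith
  have h6 := mul_le_mul_of_nonneg_left h2 (show 0 ≤ 2 * h by linarith)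
  nlinarith

theorem X_eq {S : Finset K} {c : K →₀ ℂ} (hc : c.support ⊆ S) :
    F.X c = ∑ k ∈ S, F.lam k ^ 2 * ‖c k‖ ^ 2 := by
  unfold X
  rw [norm_io_sq b ((F.Lap_support c).trans hc)]
  refine Finset.sum_congr rfl fun k _ => ?_
  rw [Lap_apply, norm_mul, norm_neg, Complex.norm_real, mul_pow, Real.norm_eq_abs, sq_abs]

theorem X_ge (c : K →₀ ℂ) : F.lam0 * En F.lam c ≤ F.X c := by
  rw [F.X_eq (Finset.Subset.refl _), En_eq F.lam (Finset.Subset.refl _), Finset.mul_sum]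
  refine Finset.sum_le_sum fun k _ => ?_
  have h1 := F.lam_ge k
  have h2 := F.lam_pos k
  have h3 : F.lam0 * (F.lam k * ‖c k‖ ^ 2) ≤ F.lam k * (F.lam k * ‖c k‖ ^ 2) :=
    mul_le_mul_of_nonneg_right h1 (by positivity)
  nlinarith

theorem En_nn (c : K →₀ ℂ) : 0 ≤ En F.lam c := En_nonneg (fun k => (F.lam_pos k).le) c

/-- the summed energy estimate -/
theorem sum_X {N h : ℝ} (hh : 0 ≤ h) (hN : 4 * h * N ≤ 1 - F.th) {c₀ : K →₀ ℂ}
    (hc : c₀.support ⊆ F.S N) (J : ℕ) :
    h * (1 - F.th) * ∑ j ∈ range J, F.X (F.traj N h c₀ j) ≤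
      En F.lam c₀ - En F.lam (F.traj N h c₀ J) := by
  induction J with
  | zero => simp [traj]
  | succ J ih =>
    have h1 := F.En_step hh hN (F.traj_support h hc J)
    rw [Finset.sum_range_succ, mul_add]
    have h2 : F.traj N h c₀ (J + 1) = F.step N h (F.traj N h c₀ J) := rfl
    rw [h2]
    linarith

theorem En_traj_le {N h : ℝ} (hh : 0 ≤ h) (hN : 4 * h * N ≤ 1 - F.th) {c₀ : K →₀ ℂ}
    (hc : c₀.support ⊆ F.S N) (J : ℕ) : En F.lam (F.traj N h c₀ J) ≤ En F.lam c₀ := by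
  have h1 := F.sum_X hh hN hc J
  have h2 : 0 ≤ h * (1 - F.th) * ∑ j ∈ range J, F.X (F.traj N h c₀ j) :=
    mul_nonneg (mul_nonneg hh (by linarith [F.th_lt])) (Finset.sum_nonneg fun _ _ => F.X_nonneg _)
  linarith

theorem sum_X' {N h : ℝ} (hh : 0 ≤ h) (hN : 4 * h * N ≤ 1 - F.th) {c₀ : K →₀ ℂ}
    (hc : c₀.support ⊆ F.S N) (J : ℕ) :
    h * ∑ j ∈ range J, F.X (F.traj N h c₀ j) ≤ En F.lam c₀ / (1 - F.th) := by
  have h1 := F.sum_X hh hN hc J
  have h2 := F.En_nn (F.traj N h c₀ J)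
  have h3 : 0 < 1 - F.th := by linarith [F.th_lt]
  rw [le_div_iff₀ h3]
  linarith

/-- decay of the energy -/
theorem En_decay {N h : ℝ} (hh : 0 ≤ h) (hN : 4 * h * N ≤ 1 - F.th) {c₀ : K →₀ ℂ}
    (hc : c₀.support ⊆ F.S N) (J : ℕ) :
    En F.lam (F.traj N h c₀ J) ≤ En F.lam c₀ * Real.exp (-(F.lam0 * (1 - F.th) * (h * J))) := by
  induction J with
  | zero => simp [traj]
  | succ J ih =>
    have h1 := F.En_step hh hN (F.traj_support h hc J)
    have h2 := F.X_ge (F.traj N h c₀ J)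
    have h3 := F.En_nn (F.traj N h c₀ J)
    have h4 : En F.lam (F.traj N h c₀ (J + 1)) ≤
        En F.lam (F.traj N h c₀ J) * (1 - h * (1 - F.th) * F.lam0) := by
      have h5 : 0 ≤ h * (1 - F.th) := mul_nonneg hh (by linarith [F.th_lt])
      have h6 := mul_le_mul_of_nonneg_left h2 h5
      have h7 : F.traj N h c₀ (J + 1) = F.step N h (F.traj N h c₀ J) := rfl
      rw [h7]
      linarith
    have h5 : 1 - h * (1 - F.th) * F.lam0 ≤ Real.exp (-(h * (1 - F.th) * F.lam0)) := by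
      have := Real.add_one_le_exp (-(h * (1 - F.th) * F.lam0))
      linarith
    calc En F.lam (F.traj N h c₀ (J + 1)) ≤
        En F.lam (F.traj N h c₀ J) * (1 - h * (1 - F.th) * F.lam0) := h4
      _ ≤ En F.lam (F.traj N h c₀ J) * Real.exp (-(h * (1 - F.th) * F.lam0)) :=
          mul_le_mul_of_nonneg_left h5 h3
      _ ≤ (En F.lam c₀ * Real.exp (-(F.lam0 * (1 - F.th) * (h * J)))) *
          Real.exp (-(h * (1 - F.th) * F.lam0)) :=
          mul_le_mul_of_nonneg_right ih (Real.exp_pos _).le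
      _ = En F.lam c₀ * Real.exp (-(F.lam0 * (1 - F.th) * (h * (J + 1 : ℕ)))) := by
          rw [mul_assoc, ← Real.exp_add]
          congr 2
          push_cast
          ring

/-- the flux into the high modes -/
theorem sum_high {N h : ℝ} (hh : 0 ≤ h) (hN0 : 0 ≤ N) (hN : 4 * h * N ≤ 1 - F.th) {c₀ : K →₀ ℂ}
    (hc : c₀.support ⊆ F.S N) {S' : Finset K} (hS' : c₀.support ⊆ S') (J : ℕ) :
    h * ∑ j ∈ range J, (inner ℂ (io b (high S' (Lap F.lam (F.traj N h c₀ j))))
      (F.Y (F.traj N h c₀ j))).re ≤ 2 * h * N * (En F.lam c₀ / (1 - F.th)) := by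
  classical
  have key : ∀ J : ℕ, En F.lam (high S' (F.traj N h c₀ J)) +
      2 * (h * ∑ j ∈ range J, (inner ℂ (io b (high S' (Lap F.lam (F.traj N h c₀ j))))
      (F.Y (F.traj N h c₀ j))).re) ≤
      4 * h * N * (h * ∑ j ∈ range J, F.X (F.traj N h c₀ j)) := by
    intro J
    induction J with
    | zero =>
      have h1 : high S' c₀ = 0 := by
        ext k
        rw [high_apply]
        split_ifs with hk
        · rfl
        · exact Finsupp.notMem_support_iff.mp fun h' => hk (hS' h')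
      simp [traj, h1, En_zero]
    | succ J ih =>
      have h1 := F.high_step hh S' (F.traj_support h hc J)
      have h2 := F.norm_Y_sq_le (F.traj N h c₀ J)
      have h3 : h ^ 2 * N * ‖F.Y (F.traj N h c₀ J)‖ ^ 2 ≤
          h ^ 2 * N * (4 * F.X (F.traj N h c₀ J)) :=
        mul_le_mul_of_nonneg_left h2 (by positivity)
      have h4 : F.traj N h c₀ (J + 1) = F.step N h (F.traj N h c₀ J) := rfl
      rw [h4, Finset.sum_range_succ, Finset.sum_range_succ]
      nlinarith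
  have h1 := key J
  have h2 := F.En_nn (high S' (F.traj N h c₀ J))
  have h3 := F.sum_X' hh hN hc J
  have h4 := mul_le_mul_of_nonneg_left h3 (show 0 ≤ 4 * h * N by positivity)
  linarith

end Flow

end Pool.Agent.Helper76.IF
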