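import Pool.Agent.Helper76.IF.Abs2

/-!
Abstract Euler-Galerkin scheme in a Hilbert space, part 3: the high modes of the Laplacian are
small, uniformly in the discretization.
-/

open Finset
open scoped ComplexConjugate

namespace Pool.Agent.Helper76.IF

variable {K H : Type*} [NormedAddCommGroup H] [InnerProductSpace ℂ H]

theorem norm_low_high_sq (b : HilbertBasis K ℂ H) (S : Finset K) (d : K →₀ ℂ) :
    ‖io b d‖ ^ 2 = ‖io b (low S d)‖ ^ 2 + ‖io b (high S d)‖ ^ 2 := by
  classical
  have h1 : (low S d).support ⊆ d.support := by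
    intro k hk
    rw [Finsupp.mem_support_iff, low_apply] at hk
    rw [Finsupp.mem_support_iff]
    split_ifs at hk
    · exact hk
    · exact absurd rfl hk
  have h2 : (high S d).support ⊆ d.support := by
    intro k hk
    rw [Finsupp.mem_support_iff, high_apply] at hk
    rw [Finsupp.mem_support_iff]
    split_ifs at hk
    · exact absurd rfl hk
    · exact hk
  rw [norm_io_sq b (Finset.Subset.refl d.support), norm_io_sq b h1, norm_io_sq b h2,
    ← Finset.sum_add_distrib]
  refine Finset.sum_congr rfl fun k _ => ?_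
  rw [low_apply, high_apply]
  split_ifs <;> simp

/-- vectors with disjoint supports are orthogonal -/
theorem inner_io_disj (b : HilbertBasis K ℂ H) {d e : K →₀ ℂ} {S : Finset K}
    (hd : ∀ k ∈ d.support, k ∉ S) (he : e.support ⊆ S) : inner ℂ (io b d) (io b e) = 0 := by
  rw [inner_io b (Finset.Subset.refl d.support)]
  refine Finset.sum_eq_zero fun k hk => ?_
  rw [inner_basis_io, Finsupp.notMem_support_iff.mp fun h => hd k hk (he h), mul_zero]

theorem high_high {S S' : Finset K} (h : S' ⊆ S) (d : K →₀ ℂ) :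
    high S (high S' d) = high S d := by
  classical
  ext k
  rw [high_apply, high_apply, high_apply]
  split_ifs with h1 h2
  · rfl
  · exact absurd (h h2) h1
  · rfl

namespace Flow

variable {b : HilbertBasis K ℂ H} (F : Flow b)

/-- the squared norm of the high modes of the Laplacian -/
noncomputable def W (R : ℝ) (c : K →₀ ℂ) : ℝ := ‖io b (high (F.S R) (Lap F.lam c))‖ ^ 2

/-- the squared norm of the high modes of `B` applied to the low modes of the Laplacian -/
noncomputable def A (R R' : ℝ) (c : K →₀ ℂ) : ℝ :=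
  ‖tl b (F.S R) (F.B c (low (F.S R') (Lap F.lam c)))‖ ^ 2

theorem W_nonneg (R : ℝ) (c : K →₀ ℂ) : 0 ≤ F.W R c := by
  unfold W
  positivity

theorem A_nonneg (R R' : ℝ) (c : K →₀ ℂ) : 0 ≤ F.A R R' c := by
  unfold A
  positivity

theorem W_le_X (R : ℝ) (c : K →₀ ℂ) : F.W R c ≤ F.X c := by
  unfold W X
  rw [norm_low_high_sq b (F.S R) (Lap F.lam c)]
  nlinarith [sq_nonneg ‖io b (low (F.S R) (Lap F.lam c))‖]

theorem W_anti {R R' : ℝ} (h : R' ≤ R) (c : K →₀ ℂ) : F.W R c ≤ F.W R' c := by
  unfold W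
  rw [norm_low_high_sq b (F.S R) (high (F.S R') (Lap F.lam c)), high_high (F.S_mono h)]
  nlinarith [sq_nonneg ‖io b (low (F.S R) (high (F.S R') (Lap F.lam c)))‖]

/-- the pointwise inequality for the high modes -/
theorem high_ineq {R R' : ℝ} (h : R' ≤ R) (c : K →₀ ℂ) :
    (1 - F.th) / 2 * F.W R c ≤
      (inner ℂ (io b (high (F.S R) (Lap F.lam c))) (F.Y c)).re +
      (F.A R R' c + F.W R' c - F.W R c) / (1 - F.th) := by
  classical
  set V := Lap F.lam c with hV
  set w := high (F.S R) V with hw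
  set w' := high (F.S R') V with hw'
  set y := low (F.S R) w' with hy
  set u := low (F.S R') V with hu
  have hβ : 0 < 1 - F.th := by linarith [F.th_lt]
  have e1 : V = u + (y + w) := by
    rw [hw, ← high_high (F.S_mono h) V, ← hw', hy, low_add_high, hu, hw', low_add_high]
  have hY : F.Y c = io b V + F.B c V := rfl
  have hW : F.W R c = ‖io b w‖ ^ 2 := rfl
  have hW' : F.W R' c = ‖io b y‖ ^ 2 + ‖io b w‖ ^ 2 := by
    unfold W
    rw [← hV, ← hw', norm_low_high_sq b (F.S R) w', hw', high_high (F.S_mono h) V]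
  have o1 : inner ℂ (io b w) (io b V) = ((‖io b w‖ ^ 2 : ℝ) : ℂ) := by
    have h1 : V = low (F.S R) V + w := (low_add_high _ _).symm
    have h2 : inner ℂ (io b w) (io b (low (F.S R) V)) = 0 :=
      inner_io_disj b (high_support _ _) (low_support _ _)
    rw [h1, map_add, inner_add_right, h2, zero_add, inner_self_eq_norm_sq_to_K]
    push_cast
    rfl
  have o2 : inner ℂ (io b w) (F.B c u) = inner ℂ (io b w) (tl b (F.S R) (F.B c u)) := by
    unfold tl
    rw [inner_sub_right, inner_io_disj b (high_support _ _) (pr_support b _ _), sub_zero]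
  have hsplit : (inner ℂ (io b w) (F.Y c)).re = ‖io b w‖ ^ 2 +
      (inner ℂ (io b w) (tl b (F.S R) (F.B c u))).re + (inner ℂ (io b w) (F.B c y)).re +
      (inner ℂ (io b w) (F.B c w)).re := by
    have h1 : F.B c V = F.B c u + (F.B c y + F.B c w) := by
      conv_lhs => rw [e1]
      rw [map_add, map_add]
    rw [hY, inner_add_right, o1, h1, inner_add_right, inner_add_right, o2]
    simp only [Complex.add_re, Complex.ofReal_re]
    ring
  have b1 : |(inner ℂ (io b w) (tl b (F.S R) (F.B c u))).re| ≤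
      ‖io b w‖ * ‖tl b (F.S R) (F.B c u)‖ :=
    (Complex.abs_re_le_norm _).trans (norm_inner_le_norm _ _)
  have b2 : |(inner ℂ (io b w) (F.B c y)).re| ≤ ‖io b w‖ * ‖io b y‖ := by
    refine (Complex.abs_re_le_norm _).trans ((norm_inner_le_norm _ _).trans
      (mul_le_mul_of_nonneg_left ((F.B_bound _ _).trans ?_) (norm_nonneg _)))
    have := mul_le_mul_of_nonneg_right F.th_lt.le (norm_nonneg (io b y))
    linarith
  have b3 : |(inner ℂ (io b w) (F.B c w)).re| ≤ ‖io b w‖ * (F.th * ‖io b w‖) :=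
    (Complex.abs_re_le_norm _).trans ((norm_inner_le_norm _ _).trans
      (mul_le_mul_of_nonneg_left (F.B_bound _ _) (norm_nonneg _)))
  have hA : F.A R R' c = ‖tl b (F.S R) (F.B c u)‖ ^ 2 := rfl
  rw [hW, hA, hW', hsplit]
  have b1' := (abs_le.mp b1).1
  have b2' := (abs_le.mp b2).1
  have b3' := (abs_le.mp b3).1
  set x := ‖io b w‖
  set a := ‖tl b (F.S R) (F.B c u)‖
  set z := ‖io b y‖
  have e2 : (a ^ 2 + (z ^ 2 + x ^ 2) - x ^ 2) / (1 - F.th) = (a ^ 2 + z ^ 2) / (1 - F.th) := by
    congr 1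
    ring
  rw [e2]
  have e3 : x * (a + z) ≤ (1 - F.th) / 2 * x ^ 2 + (a ^ 2 + z ^ 2) / (1 - F.th) := by
    have h1 : (a + z) ^ 2 ≤ 2 * (a ^ 2 + z ^ 2) := by nlinarith [sq_nonneg (a - z)]
    have h2 : x * (a + z) ≤ (1 - F.th) / 2 * x ^ 2 + (a + z) ^ 2 / (2 * (1 - F.th)) := by
      rw [← sub_nonneg]
      have h3 : (1 - F.th) / 2 * x ^ 2 + (a + z) ^ 2 / (2 * (1 - F.th)) - x * (a + z) =
          ((1 - F.th) * x - (a + z)) ^ 2 / (2 * (1 - F.th)) := by
        field_simp
        ring
      rw [h3]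
      positivity
    have h3 : (a + z) ^ 2 / (2 * (1 - F.th)) ≤ (a ^ 2 + z ^ 2) / (1 - F.th) := by
      rw [div_le_div_iff₀ (by linarith) hβ]
      nlinarith
    linarith
  nlinarith

/-- the image of the low modes is relatively compact -/
theorem A_small {E₀ : ℝ} (hE : 0 ≤ E₀) (R' : ℝ) {δ : ℝ} (hδ : 0 < δ) :
    ∃ R₁ : ℝ, ∀ R, R₁ ≤ R → ∀ c, En F.lam c ≤ E₀ → F.A R R' c ≤ δ * (1 + F.X c) := by
  classical
  set S' := F.S R' with hS'
  set n : ℝ := (S'.card : ℝ) with hn
  -- bound of the coefficients of the low modes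
  set G : ℝ := Real.sqrt (|R'| * E₀) with hG
  have hG0 : 0 ≤ G := Real.sqrt_nonneg _
  -- the constant in front
  set P : ℝ := 2 * (n * G) ^ 2 + 1 with hP
  have hP0 : 0 < P := by positivity
  -- Lipschitz constant on the low modes
  obtain ⟨Lm, hLm0, hLm⟩ : ∃ Lm : ℝ, 0 < Lm ∧ ∀ k ∈ S', F.L k ≤ Lm := by
    refine ⟨1 + ∑ k ∈ S', |F.L k|, by positivity, fun k hk => ?_⟩
    have h1 : |F.L k| ≤ ∑ k ∈ S', |F.L k| :=
      Finset.single_le_sum (f := fun k => |F.L k|) (fun i _ => abs_nonneg _) hk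
    have h2 := le_abs_self (F.L k)
    linarith
  -- cut at `Q`
  obtain ⟨Q, hQ0, hQ⟩ : ∃ Q : ℝ, 0 < Q ∧ P * (Lm / Q) ≤ δ := by
    refine ⟨P * Lm / δ, by positivity, ?_⟩
    apply le_of_eq
    field_simp
  set SQ := F.S Q with hSQ
  -- compactness
  let ext : (SQ → ℂ) → (K →₀ ℂ) := fun x =>
    ∑ k : SQ, Finsupp.single (k : K) (x k)
  have ext_apply : ∀ x (k : K), ext x k = if h : k ∈ SQ then x ⟨k, h⟩ else 0 := by
    intro x k
    simp only [ext]
    rw [Finsupp.finsetSum_apply]
    simp only [Finsupp.single_apply]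
    split_ifs with h
    · rw [Finset.sum_eq_single (⟨k, h⟩ : SQ)]
      · simp
      · intro j _ hj
        rw [if_neg]
        intro h'
        exact hj (Subtype.ext h')
      · intro h'
        exact absurd (Finset.mem_univ _) h'
    · refine Finset.sum_eq_zero fun j _ => ?_
      rw [if_neg]
      intro h'
      exact h (h' ▸ j.2)
  have ext_supp : ∀ x, (ext x).support ⊆ SQ := by
    intro x k hk
    rw [Finsupp.mem_support_iff, ext_apply] at hk
    by_contra h
    rw [dif_neg h] at hk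
    exact hk rfl
  let Φ : K → (SQ → ℂ) → H := fun k x => F.B (ext x) (Finsupp.single k 1)
  have hΦ : ∀ k, Continuous (Φ k) := by
    intro k
    rw [Metric.continuous_iff]
    intro x ε hε
    set C : ℝ := (|F.L k| + 1) * (∑ k ∈ SQ, F.lam k) + 1 with hC
    have hs0 : 0 ≤ ∑ k ∈ SQ, F.lam k := Finset.sum_nonneg fun k _ => (F.lam_pos k).le
    have hC0 : 0 < C := by positivity
    refine ⟨ε / Real.sqrt C / 2, by positivity, fun y hy => ?_⟩
    rw [dist_eq_norm]
    have h1 := F.B_lip (ext y) (ext x) k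
    have h2 : En F.lam (ext y - ext x) ≤ (∑ k ∈ SQ, F.lam k) * dist y x ^ 2 := by
      have h3 : (ext y - ext x).support ⊆ SQ := by
        intro j hj
        rw [Finsupp.mem_support_iff, Finsupp.sub_apply, ext_apply, ext_apply] at hj
        by_contra h
        rw [dif_neg h, dif_neg h, sub_zero] at hj
        exact hj rfl
      rw [En_eq F.lam h3, Finset.sum_mul]
      refine Finset.sum_le_sum fun j hj => ?_
      refine mul_le_mul_of_nonneg_left ?_ (F.lam_pos j).le
      rw [Finsupp.sub_apply, ext_apply, ext_apply, dif_pos hj, dif_pos hj]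
      refine pow_le_pow_left₀ (norm_nonneg _) ?_ 2
      rw [← dist_eq_norm]
      exact dist_le_pi_dist y x ⟨j, hj⟩
    have h3 : ‖Φ k y - Φ k x‖ ^ 2 ≤ C * dist y x ^ 2 := by
      refine h1.trans ?_
      have h4 : F.L k * En F.lam (ext y - ext x) ≤
          (|F.L k| + 1) * ((∑ k ∈ SQ, F.lam k) * dist y x ^ 2) := by
        refine (mul_le_mul_of_nonneg_right (by linarith [le_abs_self (F.L k)])
          (F.En_nn _)).trans (mul_le_mul_of_nonneg_left h2 (by positivity))
      rw [hC]
      nlinarith [sq_nonneg (dist y x)]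
    have h4 : ‖Φ k y - Φ k x‖ ≤ Real.sqrt C * dist y x := by
      refine le_of_sq_le_sq ?_ (by positivity)
      rw [mul_pow, Real.sq_sqrt hC0.le]
      exact h3
    refine h4.trans_lt ?_
    have h5 : Real.sqrt C * dist y x ≤ Real.sqrt C * (ε / Real.sqrt C / 2) :=
      mul_le_mul_of_nonneg_left hy.le (Real.sqrt_nonneg _)
    have h6 : Real.sqrt C * (ε / Real.sqrt C / 2) = ε / 2 := by
      field_simp
    linarith
  -- the compact set
  let Kc : Set (SQ → ℂ) := Metric.closedBall 0 (Real.sqrt (E₀ / F.lam0))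
  have hKc : IsCompact Kc := isCompact_closedBall _ _
  have htail : ∀ k : K, ∃ S₀ : Finset K, ∀ S : Finset K, S₀ ≤ S → ∀ y ∈ Φ k '' Kc,
      ‖tl b S y‖ < Real.sqrt (δ / P) := fun k =>
    tl_compact b (hKc.image (hΦ k)) (Real.sqrt_pos.mpr (by positivity))
  choose g hg using htail
  set S₁ : Finset K := S'.biUnion g with hS₁
  obtain ⟨R₁, hR₁⟩ : ∃ R₁ : ℝ, S₁ ⊆ F.S R₁ := by
    refine ⟨∑ k ∈ S₁, F.lam k, fun k hk => F.mem_S.mpr ?_⟩
    exact Finset.single_le_sum (f := F.lam) (fun i _ => (F.lam_pos i).le) hk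
  refine ⟨R₁, fun R hR c hc => ?_⟩
  have hSR : ∀ k ∈ S', g k ≤ F.S R := fun k hk =>
    (Finset.subset_biUnion_of_mem g hk).trans (hR₁.trans (F.S_mono hR))
  -- the restriction of `c` to `SQ`
  let x : SQ → ℂ := fun k => c k
  have hx : ext x = low SQ c := by
    ext k
    rw [ext_apply, low_apply]
    split_ifs <;> rfl
  have hxK : x ∈ Kc := by
    simp only [Kc, Metric.mem_closedBall, dist_zero_right]
    rw [pi_norm_le_iff_of_nonneg (Real.sqrt_nonneg _)]
    intro k
    refine Real.le_sqrt_of_sq_le ?_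
    rw [le_div_iff₀ F.lam0_pos]
    have h1 : F.lam k * ‖c k‖ ^ 2 ≤ En F.lam c := by
      by_cases hk : (k : K) ∈ c.support
      · exact Finset.single_le_sum (f := fun k => F.lam k * ‖c k‖ ^ 2)
          (fun i _ => mul_nonneg (F.lam_pos i).le (by positivity)) hk
      · rw [Finsupp.notMem_support_iff.mp hk]
        simpa using F.En_nn c
    have h2 : F.lam0 * ‖c k‖ ^ 2 ≤ F.lam k * ‖c k‖ ^ 2 :=
      mul_le_mul_of_nonneg_right (F.lam_ge k) (by positivity)
    show ‖x k‖ ^ 2 * F.lam0 ≤ E₀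
    have h3 : x k = c k := rfl
    rw [h3]
    linarith
  -- the energy of the part outside `SQ`
  have hEQ : En F.lam (c - low SQ c) ≤ F.X c / Q := by
    have h1 : c - low SQ c = high SQ c := by
      rw [sub_eq_iff_eq_add, add_comm, low_add_high]
    have h2 : (high SQ c).support ⊆ c.support := by
      intro k hk
      rw [Finsupp.mem_support_iff, high_apply] at hk
      rw [Finsupp.mem_support_iff]
      split_ifs at hk
      · exact absurd rfl hk
      · exact hk
    rw [h1, En_eq F.lam h2, F.X_eq (Finset.Subset.refl _), le_div_iff₀ hQ0, Finset.sum_mul]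
    refine Finset.sum_le_sum fun k _ => ?_
    rw [high_apply]
    split_ifs with hk
    · simp only [norm_zero]
      have := F.lam_pos k
      have h0 : 0 ≤ F.lam k ^ 2 * ‖c k‖ ^ 2 := by positivity
      simpa using h0
    · have h3 : Q < F.lam k := by
        by_contra h'
        exact hk (F.mem_S.mpr (not_lt.mp h'))
      have h4 : Q * (F.lam k * ‖c k‖ ^ 2) ≤ F.lam k * (F.lam k * ‖c k‖ ^ 2) :=
        mul_le_mul_of_nonneg_right h3.le (mul_nonneg (F.lam_pos k).le (by positivity))
      nlinarith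
  -- bound for one mode
  have hmode : ∀ k ∈ S', ‖tl b (F.S R) (F.B c (Finsupp.single k 1))‖ ^ 2 ≤
      2 * (δ / P) + 2 * (Lm * (F.X c / Q)) := by
    intro k hk
    have h1 : ‖tl b (F.S R) (F.B (low SQ c) (Finsupp.single k 1))‖ ≤ Real.sqrt (δ / P) := by
      refine (hg k (F.S R) (hSR k hk) _ ⟨x, hxK, ?_⟩).le
      simp only [Φ]
      rw [hx]
    have h2 : ‖tl b (F.S R) (F.B c (Finsupp.single k 1) -
        F.B (low SQ c) (Finsupp.single k 1))‖ ^ 2 ≤ Lm * (F.X c / Q) := by
      refine (pow_le_pow_left₀ (norm_nonneg _) (norm_tl_le b _ _) 2).trans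
        ((F.B_lip c (low SQ c) k).trans ?_)
      refine (mul_le_mul_of_nonneg_right (hLm k hk) (F.En_nn _)).trans
        (mul_le_mul_of_nonneg_left hEQ hLm0.le)
    have h3 : tl b (F.S R) (F.B c (Finsupp.single k 1)) =
        tl b (F.S R) (F.B (low SQ c) (Finsupp.single k 1)) +
        tl b (F.S R) (F.B c (Finsupp.single k 1) - F.B (low SQ c) (Finsupp.single k 1)) := by
      rw [← tl_add, add_sub_cancel]
    have h4 : ‖tl b (F.S R) (F.B (low SQ c) (Finsupp.single k 1))‖ ^ 2 ≤ δ / P := by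
      refine (pow_le_pow_left₀ (norm_nonneg _) h1 2).trans (le_of_eq ?_)
      exact Real.sq_sqrt (by positivity)
    rw [h3]
    have h5 := norm_add_le (tl b (F.S R) (F.B (low SQ c) (Finsupp.single k 1)))
      (tl b (F.S R) (F.B c (Finsupp.single k 1) - F.B (low SQ c) (Finsupp.single k 1)))
    have h6 := pow_le_pow_left₀ (norm_nonneg _) h5 2
    have h7 := sq_nonneg (‖tl b (F.S R) (F.B (low SQ c) (Finsupp.single k 1))‖ -
      ‖tl b (F.S R) (F.B c (Finsupp.single k 1) - F.B (low SQ c) (Finsupp.single k 1))‖)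
    nlinarith
  -- the low modes of the Laplacian
  have hlow : low S' (Lap F.lam c) = ∑ k ∈ S', (-(F.lam k : ℂ) * c k) • Finsupp.single k 1 := by
    ext j
    rw [low_apply, Finsupp.finsetSum_apply]
    simp only [Finsupp.smul_apply, Finsupp.single_apply, Lap_apply, smul_eq_mul]
    simp only [mul_ite, mul_one, mul_zero]
    rw [Finset.sum_ite_eq']
  have hcoef : ∀ k ∈ S', ‖-(F.lam k : ℂ) * c k‖ ≤ G := by
    intro k hk
    rw [norm_mul, norm_neg, Complex.norm_real, Real.norm_eq_abs, abs_of_pos (F.lam_pos k)]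
    rw [hG]
    refine Real.le_sqrt_of_sq_le ?_
    have h1 : F.lam k * ‖c k‖ ^ 2 ≤ En F.lam c := by
      by_cases hk : (k : K) ∈ c.support
      · exact Finset.single_le_sum (f := fun k => F.lam k * ‖c k‖ ^ 2)
          (fun i _ => mul_nonneg (F.lam_pos i).le (by positivity)) hk
      · rw [Finsupp.notMem_support_iff.mp hk]
        simpa using F.En_nn c
    have h2 : F.lam k ≤ |R'| := (F.mem_S.mp hk).trans (le_abs_self _)
    have h3 := F.lam_pos k
    calc (F.lam k * ‖c k‖) ^ 2 = F.lam k * (F.lam k * ‖c k‖ ^ 2) := by ring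
      _ ≤ |R'| * E₀ := mul_le_mul h2 (h1.trans hc) (by positivity) (abs_nonneg _)
  have hfin : ‖tl b (F.S R) (F.B c (low S' (Lap F.lam c)))‖ ≤
      n * (G * Real.sqrt (2 * (δ / P) + 2 * (Lm * (F.X c / Q)))) := by
    have h1 : tl b (F.S R) (F.B c (low S' (Lap F.lam c))) =
        ∑ k ∈ S', (-(F.lam k : ℂ) * c k) • tl b (F.S R) (F.B c (Finsupp.single k 1)) := by
      rw [hlow, map_sum]
      have h2 : ∀ (s : Finset K) (f : K → H), tl b (F.S R) (∑ k ∈ s, f k) =
          ∑ k ∈ s, tl b (F.S R) (f k) := by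
        intro s f
        induction s using Finset.induction_on with
        | empty =>
          rw [Finset.sum_empty, Finset.sum_empty]
          have := tl_smul b (F.S R) 0 (0 : H)
          simpa using this
        | insert a s ha ih => rw [Finset.sum_insert ha, Finset.sum_insert ha, tl_add, ih]
      rw [h2]
      refine Finset.sum_congr rfl fun k _ => ?_
      rw [map_smul, tl_smul]
    rw [h1, hn, ← nsmul_eq_mul, ← Finset.sum_const]
    refine (norm_sum_le _ _).trans (Finset.sum_le_sum fun k hk => ?_)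
    rw [norm_smul]
    refine mul_le_mul (hcoef k hk) ?_ (norm_nonneg _) hG0
    exact Real.le_sqrt_of_sq_le (hmode k hk)
  have hX := F.X_nonneg c
  unfold A
  have hT0 : 0 ≤ 2 * (δ / P) + 2 * (Lm * (F.X c / Q)) := by positivity
  calc ‖tl b (F.S R) (F.B c (low S' (Lap F.lam c)))‖ ^ 2
      ≤ (n * (G * Real.sqrt (2 * (δ / P) + 2 * (Lm * (F.X c / Q))))) ^ 2 :=
        pow_le_pow_left₀ (norm_nonneg _) hfin 2
    _ = (n * G) ^ 2 * (2 * (δ / P) + 2 * (Lm * (F.X c / Q))) := by
        rw [← mul_assoc, mul_pow, Real.sq_sqrt hT0]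
    _ ≤ P * (δ / P) + P * (Lm / Q) * F.X c := by
        have h1 : (n * G) ^ 2 * 2 ≤ P := by rw [hP]; linarith
        have h2 : 0 ≤ δ / P + Lm * (F.X c / Q) := by positivity
        calc (n * G) ^ 2 * (2 * (δ / P) + 2 * (Lm * (F.X c / Q)))
            = ((n * G) ^ 2 * 2) * (δ / P + Lm * (F.X c / Q)) := by ring
          _ ≤ P * (δ / P + Lm * (F.X c / Q)) := mul_le_mul_of_nonneg_right h1 h2
          _ = P * (δ / P) + P * (Lm / Q) * F.X c := by ring
    _ ≤ δ * (1 + F.X c) := by
        have h1 : P * (δ / P) = δ := by field_simp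
        rw [h1]
        have h2 := mul_le_mul_of_nonneg_right hQ hX
        linarith

end Flow

end Pool.Agent.Helper76.IF
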