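import Pool.Agent.Helper76.IF.Abs3

/-!
Abstract Euler-Galerkin scheme in a Hilbert space, part 4: the main theorem.
-/

open Finset
open scoped ComplexConjugate

namespace Pool.Agent.Helper76.IF

variable {K H : Type*} [NormedAddCommGroup H] [InnerProductSpace ℂ H]

namespace Flow

variable {b : HilbertBasis K ℂ H} (F : Flow b)

/-- the high modes carry little of the squared norm of the Laplacian, uniformly in the
discretization -/
theorem W_small (c₀ : K →₀ ℂ) {T : ℝ} (hT : 0 ≤ T) (m : ℕ) : ∀ ε : ℝ, 0 < ε →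
    ∃ R η : ℝ, 0 < η ∧ c₀.support ⊆ F.S R ∧ ∀ (N h : ℝ) (J : ℕ), 0 ≤ h → 0 ≤ N →
      4 * h * N ≤ 1 - F.th → c₀.support ⊆ F.S N → h * J ≤ T → h * N ≤ η →
      h * ∑ j ∈ range J, F.W R (F.traj N h c₀ j) ≤
        (1 / (1 + (1 - F.th) ^ 2 / 2)) ^ m * (En F.lam c₀ / (1 - F.th)) + ε := by
  classical
  have hβ : 0 < 1 - F.th := by linarith [F.th_lt]
  set M : ℝ := En F.lam c₀ / (1 - F.th) with hM
  have hM0 : 0 ≤ M := div_nonneg (F.En_nn _) hβ.le
  set ρ : ℝ := 1 / (1 + (1 - F.th) ^ 2 / 2) with hρ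
  have hρ0 : 0 < ρ := by positivity
  have hρ1 : ρ ≤ 1 := by
    rw [hρ, div_le_one (by positivity)]
    nlinarith [sq_nonneg (1 - F.th)]
  induction m with
  | zero =>
    intro ε hε
    obtain ⟨R, hR⟩ : ∃ R : ℝ, c₀.support ⊆ F.S R := by
      refine ⟨∑ k ∈ c₀.support, F.lam k, fun k hk => F.mem_S.mpr ?_⟩
      exact Finset.single_le_sum (f := F.lam) (fun i _ => (F.lam_pos i).le) hk
    refine ⟨R, 1, one_pos, hR, fun N h J hh hN0 hN hc _ _ => ?_⟩
    have h1 : h * ∑ j ∈ range J, F.W R (F.traj N h c₀ j) ≤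
        h * ∑ j ∈ range J, F.X (F.traj N h c₀ j) :=
      mul_le_mul_of_nonneg_left (Finset.sum_le_sum fun j _ => F.W_le_X _ _) hh
    have h2 := F.sum_X' hh hN hc J
    rw [pow_zero, one_mul]
    linarith
  | succ m ih =>
    intro ε hε
    obtain ⟨R', η', hη', hR', hih⟩ := ih (ε / 4) (by linarith)
    set δ : ℝ := ε / (4 * (T + M + 1)) with hδ
    have hδ0 : 0 < δ := by positivity
    obtain ⟨R₁, hR₁⟩ := F.A_small (F.En_nn c₀) R' hδ0
    refine ⟨max R' R₁, min η' (ε / (8 * (M + 1))), by positivity,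
      hR'.trans (F.S_mono (le_max_left _ _)), fun N h J hh hN0 hN hc hJ hη => ?_⟩
    set R := max R' R₁ with hR
    have hx1 := hih N h J hh hN0 hN hc hJ (hη.trans (min_le_left _ _))
    have hx2 := F.sum_high hh hN0 hN hc (S' := F.S R) (hR'.trans (F.S_mono (le_max_left _ _))) J
    have hx3 := F.sum_X' hh hN hc J
    rw [← hM] at hx2 hx3
    -- the sum of `A`
    have hA : h * ∑ j ∈ range J, F.A R R' (F.traj N h c₀ j) ≤ δ * (T + M) := by
      have h1 : ∑ j ∈ range J, F.A R R' (F.traj N h c₀ j) ≤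
          ∑ j ∈ range J, δ * (1 + F.X (F.traj N h c₀ j)) :=
        Finset.sum_le_sum fun j _ => hR₁ R (le_max_right _ _) _ (F.En_traj_le hh hN hc j)
      have h2 := mul_le_mul_of_nonneg_left h1 hh
      refine h2.trans ?_
      rw [← Finset.mul_sum, Finset.sum_add_distrib, Finset.sum_const, Finset.card_range,
        nsmul_eq_mul, mul_one]
      have h3 : h * (δ * ((J : ℝ) + ∑ j ∈ range J, F.X (F.traj N h c₀ j))) =
          δ * (h * J + h * ∑ j ∈ range J, F.X (F.traj N h c₀ j)) := by ring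
      rw [h3]
      exact mul_le_mul_of_nonneg_left (by linarith) hδ0.le
    -- sum of the pointwise inequality
    have hsum : (1 - F.th) / 2 * (h * ∑ j ∈ range J, F.W R (F.traj N h c₀ j)) ≤
        h * ∑ j ∈ range J, (inner ℂ (io b (high (F.S R) (Lap F.lam (F.traj N h c₀ j))))
          (F.Y (F.traj N h c₀ j))).re +
        (h * ∑ j ∈ range J, F.A R R' (F.traj N h c₀ j) +
          h * ∑ j ∈ range J, F.W R' (F.traj N h c₀ j) -
          h * ∑ j ∈ range J, F.W R (F.traj N h c₀ j)) / (1 - F.th) := by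
      have h1 : ∑ j ∈ range J, (1 - F.th) / 2 * F.W R (F.traj N h c₀ j) ≤
          ∑ j ∈ range J, ((inner ℂ (io b (high (F.S R) (Lap F.lam (F.traj N h c₀ j))))
            (F.Y (F.traj N h c₀ j))).re + (F.A R R' (F.traj N h c₀ j) +
            F.W R' (F.traj N h c₀ j) - F.W R (F.traj N h c₀ j)) / (1 - F.th)) :=
        Finset.sum_le_sum fun j _ => F.high_ineq (le_max_left _ _) _
      have h2 := mul_le_mul_of_nonneg_left h1 hh
      rw [← Finset.mul_sum, Finset.sum_add_distrib, ← Finset.sum_div, Finset.sum_sub_distrib,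
        Finset.sum_add_distrib] at h2
      have e1 : (h * ∑ j ∈ range J, F.A R R' (F.traj N h c₀ j) +
          h * ∑ j ∈ range J, F.W R' (F.traj N h c₀ j) -
          h * ∑ j ∈ range J, F.W R (F.traj N h c₀ j)) / (1 - F.th) =
          h * ((∑ j ∈ range J, F.A R R' (F.traj N h c₀ j) +
          ∑ j ∈ range J, F.W R' (F.traj N h c₀ j) -
          ∑ j ∈ range J, F.W R (F.traj N h c₀ j)) / (1 - F.th)) := by ring
      rw [e1]
      linarith
    set w : ℝ := h * ∑ j ∈ range J, F.W R (F.traj N h c₀ j) with hw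
    set w' : ℝ := h * ∑ j ∈ range J, F.W R' (F.traj N h c₀ j) with hw'
    set a : ℝ := h * ∑ j ∈ range J, F.A R R' (F.traj N h c₀ j) with ha
    have hη2 : h * N ≤ ε / (8 * (M + 1)) := hη.trans (min_le_right _ _)
    have h4 : 2 * h * N * M ≤ ε / 4 := by
      have h5 : h * N * M ≤ ε / (8 * (M + 1)) * (M + 1) :=
        mul_le_mul hη2 (by linarith) hM0 (by positivity)
      have h6 : ε / (8 * (M + 1)) * (M + 1) = ε / 8 := by
        field_simp
      linarith
    have h5 : δ * (T + M) ≤ ε / 4 := by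
      have h6 : δ * (T + M) ≤ δ * (T + M + 1) := mul_le_mul_of_nonneg_left (by linarith) hδ0.le
      have h7 : δ * (T + M + 1) = ε / 4 := by
        rw [hδ]
        field_simp
      linarith
    have h6 : (1 - F.th) / 2 * w + w / (1 - F.th) ≤ ε / 4 + (a + w') / (1 - F.th) := by
      have e1 : (a + w' - w) / (1 - F.th) = (a + w') / (1 - F.th) - w / (1 - F.th) := by ring
      rw [e1] at hsum
      linarith
    have h7 : w * (1 + (1 - F.th) ^ 2 / 2) ≤ (1 - F.th) * (ε / 4) + (a + w') := by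
      have h8 := mul_le_mul_of_nonneg_left h6 hβ.le
      have e1 : (1 - F.th) * ((1 - F.th) / 2 * w + w / (1 - F.th)) =
          w * (1 + (1 - F.th) ^ 2 / 2) := by
        field_simp
        ring
      have e2 : (1 - F.th) * (ε / 4 + (a + w') / (1 - F.th)) =
          (1 - F.th) * (ε / 4) + (a + w') := by
        field_simp
      rw [e1, e2] at h8
      exact h8
    have h8 : w ≤ ρ * ((1 - F.th) * (ε / 4) + (a + w')) := by
      rw [hρ, one_div, ← div_eq_inv_mul, le_div_iff₀ (by positivity)]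
      exact h7
    have h9 : (1 - F.th) * (ε / 4) + (a + w') ≤ ρ ^ m * M + 3 * (ε / 4) := by
      have h10 : (1 - F.th) * (ε / 4) ≤ 1 * (ε / 4) :=
        mul_le_mul_of_nonneg_right (by linarith [F.th_nonneg]) (by linarith)
      linarith
    calc w ≤ ρ * ((1 - F.th) * (ε / 4) + (a + w')) := h8
      _ ≤ ρ * (ρ ^ m * M + 3 * (ε / 4)) := mul_le_mul_of_nonneg_left h9 hρ0.le
      _ = ρ ^ (m + 1) * M + ρ * (3 * (ε / 4)) := by ring
      _ ≤ ρ ^ (m + 1) * M + 1 * (3 * (ε / 4)) := by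
          have := mul_le_mul_of_nonneg_right hρ1 (show 0 ≤ 3 * (ε / 4) by linarith)
          linarith
      _ ≤ ρ ^ (m + 1) * M + ε := by linarith

/-- final form of the smallness of the high modes -/
theorem W_small' (c₀ : K →₀ ℂ) {T : ℝ} (hT : 0 ≤ T) {ε : ℝ} (hε : 0 < ε) :
    ∃ R η : ℝ, 0 < η ∧ c₀.support ⊆ F.S R ∧ ∀ (N h : ℝ) (J : ℕ), 0 ≤ h → 0 ≤ N →
      4 * h * N ≤ 1 - F.th → c₀.support ⊆ F.S N → h * J ≤ T → h * N ≤ η →
      h * ∑ j ∈ range J, F.W R (F.traj N h c₀ j) ≤ ε := by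
  have hβ : 0 < 1 - F.th := by linarith [F.th_lt]
  set M : ℝ := En F.lam c₀ / (1 - F.th) with hM
  have hM0 : 0 ≤ M := div_nonneg (F.En_nn _) hβ.le
  obtain ⟨m, hm⟩ : ∃ m : ℕ, (1 / (1 + (1 - F.th) ^ 2 / 2)) ^ m < ε / (2 * (M + 1)) := by
    refine exists_pow_lt_of_lt_one (by positivity) ?_
    rw [div_lt_one (by positivity)]
    nlinarith [sq_pos_of_pos hβ]
  obtain ⟨R, η, hη, hR, h1⟩ := F.W_small c₀ hT m (ε / 2) (by linarith)
  refine ⟨R, η, hη, hR, fun N h J a1 a2 a3 a4 a5 a6 => ?_⟩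
  have h2 := h1 N h J a1 a2 a3 a4 a5 a6
  have h3 : (1 / (1 + (1 - F.th) ^ 2 / 2)) ^ m * M ≤ ε / 2 := by
    have h4 : (1 / (1 + (1 - F.th) ^ 2 / 2)) ^ m * M ≤ ε / (2 * (M + 1)) * (M + 1) :=
      mul_le_mul hm.le (by linarith) hM0 (by positivity)
    have h5 : ε / (2 * (M + 1)) * (M + 1) = ε / 2 := by
      field_simp
    linarith
  rw [← hM] at h2
  linarith

theorem En_smul (h : ℝ) (c : K →₀ ℂ) : En F.lam ((h : ℂ) • c) = h ^ 2 * En F.lam c := by
  classical
  rw [En_eq F.lam (S := c.support) Finsupp.support_smul, En_eq F.lam (Finset.Subset.refl _),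
    Finset.mul_sum]
  refine Finset.sum_congr rfl fun k _ => ?_
  rw [Finsupp.smul_apply, smul_eq_mul, norm_mul, Complex.norm_real, Real.norm_eq_abs, mul_pow,
    sq_abs]
  ring

theorem En_pr {N : ℝ} (hN : 0 ≤ N) (y : H) : En F.lam (pr b (F.S N) y) ≤ N * ‖y‖ ^ 2 := by
  classical
  rw [En_eq F.lam (pr_support b _ _)]
  have h1 : ∑ k ∈ F.S N, F.lam k * ‖pr b (F.S N) y k‖ ^ 2 ≤
      ∑ k ∈ F.S N, N * ‖inner ℂ (b k) y‖ ^ 2 := by
    refine Finset.sum_le_sum fun k hk => ?_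
    rw [pr_apply, if_pos hk]
    exact mul_le_mul_of_nonneg_right (F.mem_S.mp hk) (by positivity)
  refine h1.trans ?_
  rw [← Finset.mul_sum, ← norm_io_pr_sq]
  exact mul_le_mul_of_nonneg_left
    (pow_le_pow_left₀ (norm_nonneg _) (norm_io_pr_le b _ _) 2) hN

/-- the truncation error of the right-hand side -/
theorem tl_Y {N : ℝ} (R' : ℝ) {c : K →₀ ℂ} (hc : c.support ⊆ F.S N) :
    ‖tl b (F.S N) (F.Y c)‖ ^ 2 ≤ 2 * F.A N R' c + 2 * F.W R' c := by
  classical
  have h1 : tl b (F.S N) (F.Y c) = tl b (F.S N) (F.B c (low (F.S R') (Lap F.lam c))) +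
      tl b (F.S N) (F.B c (high (F.S R') (Lap F.lam c))) := by
    unfold Y
    rw [tl_add, tl_io b ((F.Lap_support c).trans hc), zero_add, ← tl_add, ← map_add,
      low_add_high]
  have h2 : ‖tl b (F.S N) (F.B c (high (F.S R') (Lap F.lam c)))‖ ≤
      ‖io b (high (F.S R') (Lap F.lam c))‖ := by
    refine (norm_tl_le b _ _).trans ((F.B_bound _ _).trans ?_)
    have := mul_le_mul_of_nonneg_right F.th_lt.le
      (norm_nonneg (io b (high (F.S R') (Lap F.lam c))))
    linarith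
  have h3 := pow_le_pow_left₀ (norm_nonneg _) h2 2
  rw [h1]
  unfold A W
  have h4 := norm_add_le (tl b (F.S N) (F.B c (low (F.S R') (Lap F.lam c))))
    (tl b (F.S N) (F.B c (high (F.S R') (Lap F.lam c))))
  have h5 := pow_le_pow_left₀ (norm_nonneg _) h4 2
  nlinarith [sq_nonneg (‖tl b (F.S N) (F.B c (low (F.S R') (Lap F.lam c)))‖ -
    ‖tl b (F.S N) (F.B c (high (F.S R') (Lap F.lam c)))‖)]

/-- **Abstract flow theorem.** -/
theorem main (Z : (K →₀ ℂ) → H) (I : (K →₀ ℂ) → ℝ) {Cz K1 κ : ℝ} (hK1 : 0 ≤ K1)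
    (hZ : ∀ c, ‖Z c‖ ≤ Cz * ‖io b (Lap F.lam c)‖)
    (hI : ∀ c d, |I (c + d) - I c + (inner ℂ (Z c) (io b d)).re| ≤ K1 * En F.lam d)
    (hκ : 0 ≤ κ) (hQ : ∀ c, -(κ * F.X c) ≤ (inner ℂ (Z c) (F.Y c)).re) (c₀ : K →₀ ℂ) :
    I 0 ≤ I c₀ + κ * (En F.lam c₀ / (1 - F.th)) := by
  classical
  have hβ : 0 < 1 - F.th := by linarith [F.th_lt]
  set M : ℝ := En F.lam c₀ / (1 - F.th) with hM
  have hM0 : 0 ≤ M := div_nonneg (F.En_nn _) hβ.le
  refine le_of_forall_pos_le_add fun ε hε => ?_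
  -- the final time
  obtain ⟨T, hT0, hT⟩ : ∃ T : ℝ, 0 < T ∧
      K1 * (En F.lam c₀ * Real.exp (-(F.lam0 * (1 - F.th) * T))) ≤ ε / 4 := by
    have h1 : Filter.Tendsto (fun T : ℝ => K1 * (En F.lam c₀ *
        Real.exp (-(F.lam0 * (1 - F.th) * T)))) Filter.atTop (nhds (K1 * (En F.lam c₀ * 0))) := by
      refine Filter.Tendsto.const_mul _ (Filter.Tendsto.const_mul _ ?_)
      refine Real.tendsto_exp_atBot.comp ?_
      refine Filter.tendsto_neg_atTop_atBot.comp ?_
      exact Filter.Tendsto.const_mul_atTop (mul_pos F.lam0_pos hβ) Filter.tendsto_id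
    rw [mul_zero, mul_zero] at h1
    have h2 := (h1.eventually (gt_mem_nhds (show (0 : ℝ) < ε / 4 by linarith))).and
      (Filter.eventually_gt_atTop (0 : ℝ))
    obtain ⟨T, h3, h4⟩ := h2.exists
    exact ⟨T, h4, h3.le⟩
  set s : ℝ := ε / (4 * (M + 1)) with hs
  have hs0 : 0 < s := by positivity
  have hsM : s * M ≤ ε / 4 := by
    have h1 : s * M ≤ s * (M + 1) := mul_le_mul_of_nonneg_left (by linarith) hs0.le
    have h2 : s * (M + 1) = ε / 4 := by
      rw [hs]
      field_simp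
    linarith
  set G : ℝ := Cz ^ 2 / (4 * s) with hG
  have hG0 : 0 ≤ G := by positivity
  set ε₁ : ℝ := ε / (16 * (G + 1)) with hε₁
  have hε₁0 : 0 < ε₁ := by positivity
  set δ : ℝ := ε / (16 * (G + 1) * (T + M + 1)) with hδ
  have hδ0 : 0 < δ := by positivity
  obtain ⟨R', η, hη, hR', hW⟩ := F.W_small' c₀ hT0.le hε₁0
  obtain ⟨R₁, hR₁⟩ := F.A_small (F.En_nn c₀) R' hδ0
  set N : ℝ := max 0 (max R' R₁) with hN
  have hN0 : 0 ≤ N := le_max_left _ _
  have hcN : c₀.support ⊆ F.S N :=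
    hR'.trans (F.S_mono ((le_max_left _ _).trans (le_max_right _ _)))
  have hNR : R₁ ≤ N := (le_max_right _ _).trans (le_max_right _ _)
  -- number of steps
  set q : ℝ := min (min ((1 - F.th) / 4) η) (ε / (16 * (K1 + 1) * (M + 1))) with hq
  have hq0 : 0 < q := by positivity
  obtain ⟨J, hJ⟩ := exists_nat_gt (T * N / q)
  have hJ0 : 0 < (J : ℝ) := lt_of_le_of_lt (by positivity) hJ
  set h : ℝ := T / J with hh
  have hh0 : 0 ≤ h := by positivity
  have hhN : h * N ≤ q := by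
    rw [div_lt_iff₀ hq0] at hJ
    rw [hh, div_mul_eq_mul_div, div_le_iff₀ hJ0]
    linarith
  have hhJ : h * J = T := by
    rw [hh]
    field_simp
  have a1 : 4 * h * N ≤ 1 - F.th := by
    have := hhN.trans ((min_le_left _ _).trans (min_le_left _ _))
    linarith
  have a2 : h * N ≤ η := hhN.trans ((min_le_left _ _).trans (min_le_right _ _))
  have a3 : 4 * K1 * (h * N) * M ≤ ε / 4 := by
    have h1 := hhN.trans (min_le_right _ _)
    have h2 : K1 * (h * N) * M ≤ (K1 + 1) * (ε / (16 * (K1 + 1) * (M + 1))) * (M + 1) := by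
      refine mul_le_mul (mul_le_mul (by linarith) h1 (by positivity) (by linarith)) (by linarith)
        hM0 (by positivity)
    have h3 : (K1 + 1) * (ε / (16 * (K1 + 1) * (M + 1))) * (M + 1) = ε / 16 := by
      field_simp
    linarith
  set x : ℕ → (K →₀ ℂ) := F.traj N h c₀ with hx
  have hsupp : ∀ j, (x j).support ⊆ F.S N := F.traj_support h hcN
  -- one step
  have hstep : ∀ j, I (x (j + 1)) ≤ I (x j) + h * (κ * F.X (x j)) + h * (s * F.X (x j)) +
      h * (G * ‖tl b (F.S N) (F.Y (x j))‖ ^ 2) + h * (4 * K1 * (h * N) * F.X (x j)) := by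
    intro j
    have h1 := (abs_le.mp (hI (x j) ((h : ℂ) • pr b (F.S N) (F.Y (x j))))).2
    have h2 : x (j + 1) = x j + (h : ℂ) • pr b (F.S N) (F.Y (x j)) := rfl
    rw [← h2, map_smul, inner_smul_right, Complex.re_ofReal_mul, F.En_smul] at h1
    have h3 : io b (pr b (F.S N) (F.Y (x j))) = F.Y (x j) - tl b (F.S N) (F.Y (x j)) := by
      unfold tl
      abel
    rw [h3, inner_sub_right, Complex.sub_re] at h1
    have h4 : |(inner ℂ (Z (x j)) (tl b (F.S N) (F.Y (x j)))).re| ≤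
        Cz * ‖io b (Lap F.lam (x j))‖ * ‖tl b (F.S N) (F.Y (x j))‖ :=
      (Complex.abs_re_le_norm _).trans ((norm_inner_le_norm _ _).trans
        (mul_le_mul_of_nonneg_right (hZ _) (norm_nonneg _)))
    have h5 : Cz * ‖io b (Lap F.lam (x j))‖ * ‖tl b (F.S N) (F.Y (x j))‖ ≤
        s * F.X (x j) + G * ‖tl b (F.S N) (F.Y (x j))‖ ^ 2 := by
      have h6 : F.X (x j) = ‖io b (Lap F.lam (x j))‖ ^ 2 := rfl
      rw [h6, hG, ← sub_nonneg]
      have h7 : s * ‖io b (Lap F.lam (x j))‖ ^ 2 +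
          Cz ^ 2 / (4 * s) * ‖tl b (F.S N) (F.Y (x j))‖ ^ 2 -
          Cz * ‖io b (Lap F.lam (x j))‖ * ‖tl b (F.S N) (F.Y (x j))‖ =
          (2 * s * ‖io b (Lap F.lam (x j))‖ - Cz * ‖tl b (F.S N) (F.Y (x j))‖) ^ 2 /
            (4 * s) := by
        field_simp
        ring
      rw [h7]
      positivity
    have h6 := (abs_le.mp h4).2
    have h7 := hQ (x j)
    have h8 : K1 * (h ^ 2 * En F.lam (pr b (F.S N) (F.Y (x j)))) ≤
        h * (4 * K1 * (h * N) * F.X (x j)) := by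
      have h9 := (F.En_pr hN0 (F.Y (x j))).trans
        (mul_le_mul_of_nonneg_left (F.norm_Y_sq_le (x j)) hN0)
      calc K1 * (h ^ 2 * En F.lam (pr b (F.S N) (F.Y (x j)))) ≤
          K1 * (h ^ 2 * (N * (4 * F.X (x j)))) :=
            mul_le_mul_of_nonneg_left (mul_le_mul_of_nonneg_left h9 (by positivity)) hK1
        _ = h * (4 * K1 * (h * N) * F.X (x j)) := by ring
    have h9 : (inner ℂ (Z (x j)) (tl b (F.S N) (F.Y (x j)))).re ≤
        s * F.X (x j) + G * ‖tl b (F.S N) (F.Y (x j))‖ ^ 2 := by linarith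
    have h10 := mul_le_mul_of_nonneg_left h9 hh0
    have h11 := mul_le_mul_of_nonneg_left h7 hh0
    linarith
  have hsum : ∀ n : ℕ, I (x n) ≤ I c₀ + (κ + s + 4 * K1 * (h * N)) *
      (h * ∑ j ∈ range n, F.X (x j)) +
      G * (h * ∑ j ∈ range n, ‖tl b (F.S N) (F.Y (x j))‖ ^ 2) := by
    intro n
    induction n with
    | zero => simp [hx, traj]
    | succ n ih =>
      have h1 := hstep n
      rw [Finset.sum_range_succ, Finset.sum_range_succ]
      linarith
  have hX := F.sum_X' hh0 a1 hcN J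
  rw [← hM] at hX
  -- the truncation error
  have htl : h * ∑ j ∈ range J, ‖tl b (F.S N) (F.Y (x j))‖ ^ 2 ≤
      2 * (δ * (T + M)) + 2 * ε₁ := by
    have h1 : ∑ j ∈ range J, ‖tl b (F.S N) (F.Y (x j))‖ ^ 2 ≤
        ∑ j ∈ range J, (2 * (δ * (1 + F.X (x j))) + 2 * F.W R' (x j)) := by
      refine Finset.sum_le_sum fun j _ => ?_
      have h2 := F.tl_Y R' (hsupp j)
      have h3 := hR₁ N hNR (x j) (F.En_traj_le hh0 a1 hcN j)
      linarith
    have h2 := mul_le_mul_of_nonneg_left h1 hh0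
    refine h2.trans ?_
    rw [Finset.sum_add_distrib, ← Finset.mul_sum, ← Finset.mul_sum, ← Finset.mul_sum,
      Finset.sum_add_distrib, Finset.sum_const, Finset.card_range, nsmul_eq_mul, mul_one]
    have h3 := hW N h J hh0 hN0 a1 hcN hhJ.le a2
    have e1 : h * (2 * (δ * ((J : ℝ) + ∑ j ∈ range J, F.X (x j))) +
        2 * ∑ j ∈ range J, F.W R' (x j)) = 2 * (δ * (h * J + h * ∑ j ∈ range J, F.X (x j))) +
        2 * (h * ∑ j ∈ range J, F.W R' (x j)) := by ring
    rw [e1, hhJ]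
    have h4 : δ * (T + h * ∑ j ∈ range J, F.X (x j)) ≤ δ * (T + M) :=
      mul_le_mul_of_nonneg_left (by linarith) hδ0.le
    linarith
  have hGt : G * (h * ∑ j ∈ range J, ‖tl b (F.S N) (F.Y (x j))‖ ^ 2) ≤ ε / 4 := by
    have h1 := mul_le_mul_of_nonneg_left htl hG0
    have h2 : G * (2 * (δ * (T + M)) + 2 * ε₁) ≤ (G + 1) * (2 * (δ * (T + M + 1)) + 2 * ε₁) := by
      refine mul_le_mul (by linarith) ?_ (by positivity) (by linarith)
      have := mul_le_mul_of_nonneg_left (show T + M ≤ T + M + 1 by linarith) hδ0.le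
      linarith
    have h3 : (G + 1) * (2 * (δ * (T + M + 1)) + 2 * ε₁) = ε / 4 := by
      rw [hδ, hε₁]
      field_simp
      ring
    linarith
  have h1 := hsum J
  have h2 : (κ + s + 4 * K1 * (h * N)) * (h * ∑ j ∈ range J, F.X (x j)) ≤
      (κ + s + 4 * K1 * (h * N)) * M :=
    mul_le_mul_of_nonneg_left hX (by positivity)
  -- the final state
  have h3 := (abs_le.mp (hI 0 (x J))).1
  have h4 : Z 0 = 0 := by
    have := hZ 0
    rw [Lap_zero, map_zero, norm_zero, mul_zero] at this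
    exact norm_le_zero_iff.mp this
  rw [h4, inner_zero_left, Complex.zero_re, add_zero, zero_add] at h3
  have h5 := F.En_decay hh0 a1 hcN J
  rw [hhJ] at h5
  have h6 := mul_le_mul_of_nonneg_left h5 hK1
  have h7 : (κ + s + 4 * K1 * (h * N)) * M = κ * M + s * M + 4 * K1 * (h * N) * M := by ring
  have h8 : K1 * En F.lam (x J) ≤ ε / 4 := h6.trans hT
  linarith

end Flow

end Pool.Agent.Helper76.IF
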