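import Pool.Agent.Helper76.IF.Tor3
import Pool.Agent.Helper76.IF.M_A0
import Pool.Agent.Helper76.IF.M_A1
import Pool.Agent.Helper76.IF.M_A2
import Pool.Agent.Helper76.IF.M_PER
import Pool.Agent.Helper76.IF.M_B1
import Pool.Agent.Helper76.IF.M_B2
import Pool.Agent.Helper76.IF.M_B6
import Pool.Agent.Helper76.IF.M_B6a

/-!
The flow theorem: assembly.
-/

namespace Helper76.IF

theorem pf_StB5 : Helper87.NF.StB5 := pf_B5 (pf_B1 pf_A0 pf_PER) (pf_B2 pf_A0 pf_PER)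

theorem pf_StB6 : Helper87.NF.StB6 := pf_B6 pf_StB5 (pf_B6a pf_A1 pf_A2 pf_A0)

end Helper76.IF
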