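import Pool.Agent.Helper87.NF.St

/-!
# Statements of the modules of the flow theorem for the torus (helper76, MP_3dd6d4_an, n = 1)
-/

open MeasureTheory Complex Filter Topology
open scoped ENNReal NNReal ComplexConjugate

noncomputable section

namespace Helper76.IF

open Helper87.NF

/-- PER: the derivative of a periodic function has integral zero over the unit square -/
def StPer : Prop := ∀ Φ : ℂ → ℝ, ContDiff ℝ 1 Φ → (∀ z, Φ (z + 1) = Φ z) → (∀ z, Φ (z + I) = Φ z) →
  (∫ z, fderiv ℝ Φ z 1 ∂mS = 0) ∧ ∫ z, fderiv ℝ Φ z I ∂mS = 0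

end Helper76.IF
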