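import Pool.Agent.Helper76.IF.St
import Pool.Agent.Helper76.IF.Abs4

/-!
The torus: Hilbert basis of exponentials, transfer to the unit square.
-/

open MeasureTheory Complex Filter Topology
open scoped ENNReal NNReal ComplexConjugate

noncomputable section

namespace Helper76.IF

open Helper87.NF Pool.Agent.Helper76.IF

attribute [local instance] instMeasureSpaceUnitAddCircle

local instance instHaar : Measure.IsAddHaarMeasure (volume : Measure UnitAddCircle) :=
  inferInstanceAs (Measure.IsAddHaarMeasure AddCircle.haarAddCircle)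

local instance instProb : IsProbabilityMeasure (volume : Measure UnitAddCircle) :=
  inferInstanceAs (IsProbabilityMeasure AddCircle.haarAddCircle)

/-- the two-dimensional torus -/
abbrev TT : Type := UnitAddTorus (Fin 2)

/-- `L²` of the torus -/
abbrev HH : Type := Lp ℂ 2 (volume : Measure TT)

/-- continuous functions as elements of `L²` -/
def L (g : C(TT, ℂ)) : HH := ContinuousMap.toLp (E := ℂ) 2 volume ℂ g

/-- the projection of the plane to the torus -/
def tau (z : ℂ) : TT := fun i => ((![z.re, z.im] i : ℝ) : UnitAddCircle)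

/-- exponentials -/
def ee (k : ℤ × ℤ) : C(TT, ℂ) := UnitAddTorus.mFourier ![k.1, k.2]

theorem ee_tau (k : ℤ × ℤ) (z : ℂ) : ee k (tau z) = ek k z := by
  unfold ee ek tau UnitAddTorus.mFourier
  simp only [ContinuousMap.coe_mk, Fin.prod_univ_two, Matrix.cons_val_zero, Matrix.cons_val_one]
  rw [fourier_coe_apply, fourier_coe_apply, ← Complex.exp_add]
  congr 1
  push_cast
  simp only [div_one]
  ring

theorem tau_surj (x : TT) : ∃ z, tau z = x := by
  obtain ⟨a, ha⟩ := QuotientAddGroup.mk_surjective (x 0)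
  obtain ⟨c, hc⟩ := QuotientAddGroup.mk_surjective (x 1)
  refine ⟨⟨a, c⟩, ?_⟩
  funext i
  fin_cases i
  · exact ha
  · exact hc

theorem tau_cont : Continuous tau := by
  unfold tau
  refine continuous_pi fun i => ?_
  refine (AddCircle.continuous_mk' 1).comp ?_
  fin_cases i
  · exact Complex.continuous_re
  · exact Complex.continuous_im

/-- transfer of integrals -/
theorem integral_tau {E : Type*} [NormedAddCommGroup E] [NormedSpace ℝ E] (g : TT → E) :
    ∫ x, g x = ∫ z, g (tau z) ∂mS := by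
  rw [UnitAddTorus.integral_preimage g 0]
  have h1 : ∫ z, g (tau z) ∂mS =
      ∫ z in (Complex.measurableEquivPi ⁻¹' {x : Fin 2 → ℝ | ∀ i, x i ∈ Set.Ico (0 : ℝ) 1}),
        g (fun i => ((Complex.measurableEquivPi z i : ℝ) : UnitAddCircle)) := by
    unfold mS
    congr 1
    congr 1
    ext z
    simp only [Helper87.NF.sq, Set.mem_ofPred_eq, Set.mem_preimage,
      Complex.measurableEquivPi_apply,
      Fin.forall_fin_two, Set.mem_Ico, Matrix.cons_val_zero, Matrix.cons_val_one]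
    tauto
  rw [h1, Complex.volume_preserving_equiv_pi.setIntegral_preimage_emb
    Complex.measurableEquivPi.measurableEmbedding
    (fun x : Fin 2 → ℝ => g (fun i => ((x i : ℝ) : UnitAddCircle)))]
  refine setIntegral_congr_set ?_
  have h2 : {x : Fin 2 → ℝ | ∀ i, x i ∈ Set.Ioc ((0 : Fin 2 → ℝ) i) ((0 : Fin 2 → ℝ) i + 1)} =
      Set.univ.pi fun _ => Set.Ioc (0 : ℝ) 1 := by
    ext x
    simp [Set.mem_pi]
  have h3 : {x : Fin 2 → ℝ | ∀ i, x i ∈ Set.Ico (0 : ℝ) 1} =
      Set.univ.pi fun _ => Set.Ico (0 : ℝ) 1 := by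
    ext x
    simp [Set.mem_pi]
  rw [h2, h3]
  exact (Measure.univ_pi_Ioc_ae_eq_Icc).trans (Measure.univ_pi_Ico_ae_eq_Icc).symm

theorem L_ee (k : ℤ × ℤ) : L (ee k) = UnitAddTorus.mFourierLp (d := Fin 2) 2 ![k.1, k.2] := rfl

theorem orth : Orthonormal ℂ (fun k : ℤ × ℤ => L (ee k)) := by
  have h1 : Function.Injective (fun k : ℤ × ℤ => (![k.1, k.2] : Fin 2 → ℤ)) := by
    intro k l h
    have h0 := congrFun h 0
    have h1 := congrFun h 1
    simp only [Matrix.cons_val_zero, Matrix.cons_val_one] at h0 h1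
    exact Prod.ext h0 h1
  exact (UnitAddTorus.orthonormal_mFourier (d := Fin 2)).comp _ h1

theorem range_ee : Set.range (fun k : ℤ × ℤ => L (ee k)) =
    Set.range (UnitAddTorus.mFourierLp (d := Fin 2) 2) := by
  apply Set.Subset.antisymm
  · rintro y ⟨k, rfl⟩
    exact ⟨![k.1, k.2], (L_ee k).symm⟩
  · rintro y ⟨n, rfl⟩
    refine ⟨(n 0, n 1), ?_⟩
    have h1 : (![n 0, n 1] : Fin 2 → ℤ) = n := by
      funext i
      fin_cases i <;> rfl
    show L (ee (n 0, n 1)) = _
    rw [L_ee]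
    simp only [h1]

/-- the Hilbert basis of exponentials, indexed by `ℤ × ℤ` -/
def bas : HilbertBasis (ℤ × ℤ) ℂ HH :=
  HilbertBasis.mk (v := fun k => L (ee k)) orth (by
    rw [range_ee]
    exact (UnitAddTorus.span_mFourierLp_closure_eq_top (by simp)).ge)

theorem bas_apply (k : ℤ × ℤ) : bas k = L (ee k) := by
  unfold bas
  rw [HilbertBasis.coe_mk]

theorem inner_L (g h : C(TT, ℂ)) : inner ℂ (L g) (L h) = ∫ x, conj (g x) * h x := by
  unfold L
  rw [ContinuousMap.inner_toLp]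
  congr 1
  funext x
  rw [mul_comm]

theorem integrable_of_cont {E : Type*} [NormedAddCommGroup E] {g : TT → E} (hg : Continuous g) :
    Integrable g (volume : Measure TT) :=
  hg.integrable_of_hasCompactSupport (HasCompactSupport.of_compactSpace g)

theorem norm_L_sq (g : C(TT, ℂ)) : ‖L g‖ ^ 2 = ∫ x, ‖g x‖ ^ 2 := by
  have h1 := inner_self_eq_norm_sq_to_K (𝕜 := ℂ) (L g)
  rw [inner_L] at h1
  have h2 : ∀ x, conj (g x) * g x = ((‖g x‖ ^ 2 : ℝ) : ℂ) := by
    intro x
    rw [mul_comm, Complex.mul_conj, Complex.normSq_eq_norm_sq]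
  simp only [h2] at h1
  rw [integral_complex_ofReal] at h1
  have h3 : ((‖L g‖ ^ 2 : ℝ) : ℂ) = ((∫ x, ‖g x‖ ^ 2 : ℝ) : ℂ) := by
    rw [h1]
    push_cast
    rfl
  exact_mod_cast h3

theorem norm_L_le {g h : C(TT, ℂ)} {C : ℝ} (hC : 0 ≤ C) (hgh : ∀ x, ‖g x‖ ≤ C * ‖h x‖) :
    ‖L g‖ ≤ C * ‖L h‖ := by
  refine le_of_sq_le_sq ?_ (by positivity)
  rw [mul_pow, norm_L_sq, norm_L_sq, ← integral_const_mul]
  refine integral_mono (integrable_of_cont (by fun_prop)) (integrable_of_cont (by fun_prop))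
    fun x => ?_
  have := pow_le_pow_left₀ (norm_nonneg _) (hgh x) 2
  rwa [mul_pow] at this

/-- trigonometric polynomials on the torus -/
def Pt (d : ℤ × ℤ →₀ ℂ) : C(TT, ℂ) := d.sum fun k z => z • ee k

theorem L_add (g h : C(TT, ℂ)) : L (g + h) = L g + L h := by
  unfold L
  rw [map_add]

theorem L_smul (z : ℂ) (g : C(TT, ℂ)) : L (z • g) = z • L g := by
  unfold L
  rw [map_smul]

theorem L_sub (g h : C(TT, ℂ)) : L (g - h) = L g - L h := by
  unfold L
  rw [map_sub]

theorem io_bas (d : ℤ × ℤ →₀ ℂ) : io bas d = L (Pt d) := by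
  rw [io_eq bas (Finset.Subset.refl d.support)]
  unfold Pt Finsupp.sum L
  rw [map_sum]
  refine Finset.sum_congr rfl fun k _ => ?_
  rw [bas_apply, map_smul]
  rfl

theorem Pt_tau {s : Finset (ℤ × ℤ)} {d : ℤ × ℤ →₀ ℂ} (h : d.support ⊆ s) (z : ℂ) :
    Pt d (tau z) = tp s d z := by
  unfold Pt Finsupp.sum tp
  rw [ContinuousMap.sum_apply]
  rw [← Finset.sum_subset h]
  · refine Finset.sum_congr rfl fun k _ => ?_
    rw [ContinuousMap.smul_apply, smul_eq_mul, ee_tau]
  · intro k _ hk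
    rw [Finsupp.notMem_support_iff.mp hk, zero_mul]

theorem Pt_apply {s : Finset (ℤ × ℤ)} {d : ℤ × ℤ →₀ ℂ} (h : d.support ⊆ s) (x : TT) :
    Pt d x = ∑ k ∈ s, d k * ee k x := by
  unfold Pt Finsupp.sum
  rw [ContinuousMap.sum_apply]
  refine Finset.sum_subset h fun k _ hk => ?_
  simp [Finsupp.notMem_support_iff.mp hk]

theorem Pt_add (c d : ℤ × ℤ →₀ ℂ) : Pt (c + d) = Pt c + Pt d := by
  classical
  ext x
  rw [ContinuousMap.add_apply, Pt_apply (s := c.support ∪ d.support) Finsupp.support_add,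
    Pt_apply (s := c.support ∪ d.support) Finset.subset_union_left,
    Pt_apply (s := c.support ∪ d.support) Finset.subset_union_right, ← Finset.sum_add_distrib]
  refine Finset.sum_congr rfl fun k _ => ?_
  rw [Finsupp.add_apply, add_mul]

theorem Pt_smul (z : ℂ) (d : ℤ × ℤ →₀ ℂ) : Pt (z • d) = z • Pt d := by
  ext x
  rw [ContinuousMap.smul_apply, Pt_apply (s := d.support) Finsupp.support_smul,
    Pt_apply (Finset.Subset.refl _), smul_eq_mul, Finset.mul_sum]
  refine Finset.sum_congr rfl fun k _ => ?_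
  rw [Finsupp.smul_apply, smul_eq_mul, mul_assoc]

/-- multiplier -/
def ml (m : ℤ × ℤ → ℂ) : (ℤ × ℤ →₀ ℂ) →ₗ[ℂ] (ℤ × ℤ →₀ ℂ) where
  toFun c := Finsupp.onFinset c.support (fun k => m k * c k) (by
    intro k hk
    rw [Finsupp.mem_support_iff]
    exact right_ne_zero_of_mul hk)
  map_add' c d := by
    ext k
    simp [mul_add]
  map_smul' z c := by
    ext k
    simp
    ring

theorem ml_apply (m : ℤ × ℤ → ℂ) (c : ℤ × ℤ →₀ ℂ) (k : ℤ × ℤ) : ml m c k = m k * c k := rfl

theorem ml_support (m : ℤ × ℤ → ℂ) (c : ℤ × ℤ →₀ ℂ) : (ml m c).support ⊆ c.support := by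
  intro k hk
  rw [Finsupp.mem_support_iff, ml_apply] at hk
  rw [Finsupp.mem_support_iff]
  exact right_ne_zero_of_mul hk

/-- norm of a multiplier -/
theorem norm_ml_le {m : ℤ × ℤ → ℂ} {C : ℝ} (hC : 0 ≤ C) {c d : ℤ × ℤ →₀ ℂ}
    (h : ∀ k, ‖m k * c k‖ ≤ C * ‖d k‖) : ‖L (Pt (ml m c))‖ ≤ C * ‖L (Pt d)‖ := by
  classical
  rw [← io_bas, ← io_bas]
  refine le_of_sq_le_sq ?_ (by positivity)
  rw [mul_pow, norm_io_sq bas (S := c.support ∪ d.support)
    ((ml_support m c).trans Finset.subset_union_left),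
    norm_io_sq bas (S := c.support ∪ d.support) Finset.subset_union_right, Finset.mul_sum]
  refine Finset.sum_le_sum fun k _ => ?_
  rw [ml_apply, ← mul_pow]
  exact pow_le_pow_left₀ (norm_nonneg _) (h k) 2

end Helper76.IF
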