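import Pool.Agent.Helper76.IF.Tor1

/-!
Realization of the abstract flow on the torus.
-/

open MeasureTheory Complex Filter Topology
open scoped ENNReal NNReal ComplexConjugate

noncomputable section

namespace Helper76.IF

open Helper87.NF Helper85.IW Pool.Agent.Helper76.IF

attribute [local instance] instMeasureSpaceUnitAddCircle

local instance instHaar2 : Measure.IsAddHaarMeasure (volume : Measure UnitAddCircle) :=
  inferInstanceAs (Measure.IsAddHaarMeasure AddCircle.haarAddCircle)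

local instance instProb2 : IsProbabilityMeasure (volume : Measure UnitAddCircle) :=
  inferInstanceAs (IsProbabilityMeasure AddCircle.haarAddCircle)

/-- the weights -/
def wt (k : ℤ × ℤ) : ℝ := if k = 0 then 1 else 4 * normSq (om k)

theorem normSq_om (k : ℤ × ℤ) : normSq (om k) = Real.pi ^ 2 * ((k.1 : ℝ) ^ 2 + (k.2 : ℝ) ^ 2) := by
  unfold om
  rw [map_mul, Complex.normSq_ofReal]
  have h1 : ((k.1 : ℂ) + (k.2 : ℂ) * I) = ⟨(k.1 : ℝ), (k.2 : ℝ)⟩ := by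
    apply Complex.ext <;> simp
  rw [h1, Complex.normSq_mk]
  ring

theorem sq_ge_one {k : ℤ × ℤ} (hk : k ≠ 0) : (1 : ℝ) ≤ (k.1 : ℝ) ^ 2 + (k.2 : ℝ) ^ 2 := by
  have h1 : (1 : ℤ) ≤ k.1 ^ 2 + k.2 ^ 2 := by
    by_contra h
    have h2 : k.1 ^ 2 + k.2 ^ 2 ≤ 0 := by omega
    have h3 : k.1 = 0 := by nlinarith [sq_nonneg k.1, sq_nonneg k.2]
    have h4 : k.2 = 0 := by nlinarith [sq_nonneg k.1, sq_nonneg k.2]
    exact hk (Prod.ext h3 h4)
  exact_mod_cast h1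

theorem pi_sq_ge : (1 : ℝ) ≤ Real.pi ^ 2 := by
  have := Real.pi_gt_three
  nlinarith

theorem normSq_om_ge {k : ℤ × ℤ} (hk : k ≠ 0) : 1 ≤ normSq (om k) := by
  rw [normSq_om]
  have h1 := sq_ge_one hk
  have h2 := pi_sq_ge
  nlinarith

theorem om_zero : om 0 = 0 := by
  unfold om
  simp

theorem wt_ge (k : ℤ × ℤ) : 1 ≤ wt k := by
  unfold wt
  split_ifs with h
  · exact le_refl 1
  · have := normSq_om_ge h
    linarith

theorem wt_ge_om (k : ℤ × ℤ) : 4 * normSq (om k) ≤ wt k := by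
  unfold wt
  split_ifs with h
  · rw [h, om_zero]
    simp
  · exact le_refl _

theorem mem_Bx {N : ℕ} {k : ℤ × ℤ} : k ∈ Bx N ↔ (|k.1| ≤ N ∧ |k.2| ≤ N) := by
  unfold Bx
  rw [Finset.mem_product, Finset.mem_Icc, Finset.mem_Icc, abs_le, abs_le]

theorem exists_Bx (s : Finset (ℤ × ℤ)) : ∃ N : ℕ, s ⊆ Bx N := by
  refine ⟨∑ k ∈ s, (k.1.natAbs + k.2.natAbs), fun k hk => mem_Bx.mpr ?_⟩
  have h1 : k.1.natAbs + k.2.natAbs ≤ ∑ k ∈ s, (k.1.natAbs + k.2.natAbs) :=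
    Finset.single_le_sum (f := fun k : ℤ × ℤ => k.1.natAbs + k.2.natAbs)
      (fun _ _ => Nat.zero_le _) hk
  constructor
  · rw [Int.abs_eq_natAbs]
    exact_mod_cast (Nat.le_add_right _ _).trans h1
  · rw [Int.abs_eq_natAbs]
    exact_mod_cast (Nat.le_add_left _ _).trans h1

theorem Bx_mono {N M : ℕ} (h : N ≤ M) : Bx N ⊆ Bx M := fun k hk => by
  rw [mem_Bx] at hk ⊢
  have : (N : ℤ) ≤ M := by exact_mod_cast h
  omega

theorem wt_fin (R : ℝ) : {k | wt k ≤ R}.Finite := by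
  refine Set.Finite.subset (Bx ⌈R⌉₊).finite_toSet fun k hk => ?_
  have hk' : wt k ≤ R := hk
  rw [Finset.mem_coe, mem_Bx]
  have h1 : (k.1 : ℝ) ^ 2 + (k.2 : ℝ) ^ 2 ≤ R := by
    have h2 := (wt_ge_om k).trans hk'
    rw [normSq_om] at h2
    have h3 := pi_sq_ge
    nlinarith [sq_nonneg (k.1 : ℝ), sq_nonneg (k.2 : ℝ)]
  have h2 : R ≤ ⌈R⌉₊ := Nat.le_ceil R
  have key : ∀ a : ℤ, (a : ℝ) ^ 2 ≤ R → |a| ≤ (⌈R⌉₊ : ℤ) := by
    intro a ha
    have h3 : ((|a| : ℤ) : ℝ) ≤ (⌈R⌉₊ : ℝ) := by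
      have h4 : ((|a| : ℤ) : ℝ) ≤ (a : ℝ) ^ 2 := by
        have h5 : |a| ≤ a ^ 2 := by
          rw [← sq_abs]
          nlinarith [abs_nonneg a, Int.le_self_sq |a|]
        exact_mod_cast h5
      linarith
    exact_mod_cast h3
  exact ⟨key _ (by nlinarith [sq_nonneg (k.2 : ℝ)]), key _ (by nlinarith [sq_nonneg (k.1 : ℝ)])⟩

/-- multipliers of `B` -/
def rA (k : ℤ × ℤ) : ℂ := mA k / (-(wt k : ℂ))
def rB (k : ℤ × ℤ) : ℂ := mB k / (-(wt k : ℂ))

theorem norm_mA (k : ℤ × ℤ) : ‖mA k‖ = normSq (om k) := by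
  unfold mA
  rw [norm_neg, norm_pow, Complex.normSq_eq_norm_sq]

theorem norm_mB (k : ℤ × ℤ) : ‖mB k‖ = normSq (om k) := by
  unfold mB
  rw [norm_neg, norm_pow, Complex.norm_conj, Complex.normSq_eq_norm_sq]

theorem norm_mC (k : ℤ × ℤ) : ‖mC k‖ = normSq (om k) := by
  unfold mC
  rw [norm_neg, Complex.norm_real, Real.norm_eq_abs, abs_of_nonneg (Complex.normSq_nonneg _)]

theorem norm_rA (k : ℤ × ℤ) : ‖rA k‖ ≤ 1 / 4 := by
  unfold rA
  have h0 := wt_ge k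
  rw [norm_div, norm_neg, Complex.norm_real, norm_mA, Real.norm_eq_abs,
    abs_of_pos (by linarith), div_le_iff₀ (by linarith)]
  linarith [wt_ge_om k]

theorem norm_rB (k : ℤ × ℤ) : ‖rB k‖ ≤ 1 / 4 := by
  unfold rB
  have h0 := wt_ge k
  rw [norm_div, norm_neg, Complex.norm_real, norm_mB, Real.norm_eq_abs,
    abs_of_pos (by linarith), div_le_iff₀ (by linarith)]
  linarith [wt_ge_om k]

theorem ml_rA_Lap (c : ℤ × ℤ →₀ ℂ) : ml rA (Lap wt c) = ml mA c := by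
  ext k
  rw [ml_apply, ml_apply, Lap_apply]
  unfold rA
  have h0 := wt_ge k
  have h1 : (wt k : ℂ) ≠ 0 := by
    exact_mod_cast (by linarith : wt k ≠ 0)
  field_simp

theorem ml_rB_Lap (c : ℤ × ℤ →₀ ℂ) : ml rB (Lap wt c) = ml mB c := by
  ext k
  rw [ml_apply, ml_apply, Lap_apply]
  unfold rB
  have h0 := wt_ge k
  have h1 : (wt k : ℂ) ≠ 0 := by
    exact_mod_cast (by linarith : wt k ≠ 0)
  field_simp

/-- first derivatives -/
def Ff (c : ℤ × ℤ →₀ ℂ) (x : TT) : E := (Pt (ml mF c) x, Pt (ml mG c) x)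

theorem Ff_cont (c : ℤ × ℤ →₀ ℂ) : Continuous (Ff c) := by
  unfold Ff
  fun_prop

theorem Ff_tau {N : ℕ} {c : ℤ × ℤ →₀ ℂ} (h : c.support ⊆ Bx N) (z : ℂ) :
    Ff c (tau z) = tF N c z := by
  unfold Ff tF
  rw [Pt_tau ((ml_support mF c).trans h), Pt_tau ((ml_support mG c).trans h)]
  rfl

theorem Ff_add (c d : ℤ × ℤ →₀ ℂ) (x : TT) : Ff (c + d) x = Ff c x + Ff d x := by
  unfold Ff
  rw [map_add, map_add, Pt_add, Pt_add]
  rfl

theorem Ff_sub (c d : ℤ × ℤ →₀ ℂ) (x : TT) : Ff c x - Ff d x = Ff (c - d) x := by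
  have := Ff_add (c - d) d x
  rw [sub_add_cancel] at this
  rw [this]
  abel

/-- second derivatives -/
def XX (c : ℤ × ℤ →₀ ℂ) (x : TT) : E :=
  (Pt (ml mA c) x + Pt (ml mC c) x, Pt (ml mC c) x + Pt (ml mB c) x)
def YY (c : ℤ × ℤ →₀ ℂ) (x : TT) : E :=
  (I * (Pt (ml mC c) x - Pt (ml mA c) x), I * (Pt (ml mB c) x - Pt (ml mC c) x))

theorem XX_cont (c : ℤ × ℤ →₀ ℂ) : Continuous (XX c) := by
  unfold XX
  fun_prop

theorem YY_cont (c : ℤ × ℤ →₀ ℂ) : Continuous (YY c) := by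
  unfold YY
  fun_prop

theorem XX_tau {N : ℕ} {c : ℤ × ℤ →₀ ℂ} (h : c.support ⊆ Bx N) (z : ℂ) :
    XX c (tau z) = tX1 N c z := by
  unfold XX tX1 tA tB tC
  rw [Pt_tau ((ml_support mA c).trans h), Pt_tau ((ml_support mB c).trans h),
    Pt_tau ((ml_support mC c).trans h)]
  rfl

theorem YY_tau {N : ℕ} {c : ℤ × ℤ →₀ ℂ} (h : c.support ⊆ Bx N) (z : ℂ) :
    YY c (tau z) = tX2 N c z := by
  unfold YY tX2 tA tB tC
  rw [Pt_tau ((ml_support mA c).trans h), Pt_tau ((ml_support mB c).trans h),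
    Pt_tau ((ml_support mC c).trans h)]
  rfl

theorem CR_XY (c : ℤ × ℤ →₀ ℂ) (x : TT) : CR (XX c x) (YY c x) := by
  unfold CR XX YY
  have h1 : I * I = -1 := Complex.I_mul_I
  linear_combination (Pt (ml mB c) x - Pt (ml mA c) x) * h1

/-- energy bound of the first derivatives -/
theorem int_Ff (d : ℤ × ℤ →₀ ℂ) : ∫ x, ‖Ff d x‖ ^ 2 ≤ En wt d := by
  have h1 : ∀ x, ‖Ff d x‖ ^ 2 ≤ ‖Pt (ml mF d) x‖ ^ 2 + ‖Pt (ml mG d) x‖ ^ 2 := by
    intro x
    unfold Ff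
    rw [Prod.norm_def]
    simp only
    rcases le_total ‖Pt (ml mF d) x‖ ‖Pt (ml mG d) x‖ with h | h
    · rw [max_eq_right h]
      nlinarith [sq_nonneg ‖Pt (ml mF d) x‖]
    · rw [max_eq_left h]
      nlinarith [sq_nonneg ‖Pt (ml mG d) x‖]
  have h2 : ∫ x, ‖Ff d x‖ ^ 2 ≤ ∫ x, (‖Pt (ml mF d) x‖ ^ 2 + ‖Pt (ml mG d) x‖ ^ 2) :=
    integral_mono (integrable_of_cont ((Ff_cont d).norm.pow 2))
      (integrable_of_cont (by fun_prop)) h1
  refine h2.trans ?_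
  rw [integral_add (integrable_of_cont (by fun_prop)) (integrable_of_cont (by fun_prop)),
    ← norm_L_sq, ← norm_L_sq, ← io_bas, ← io_bas, norm_io_sq bas (ml_support mF d),
    norm_io_sq bas (ml_support mG d), ← Finset.sum_add_distrib,
    En_eq wt (Finset.Subset.refl d.support)]
  refine Finset.sum_le_sum fun k _ => ?_
  rw [ml_apply, ml_apply, norm_mul, norm_mul]
  have h3 : ‖mF k‖ ^ 2 = normSq (om k) := by
    unfold mF
    rw [norm_mul, Complex.norm_I, one_mul, Complex.normSq_eq_norm_sq]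
  have h4 : ‖mG k‖ ^ 2 = normSq (om k) := by
    unfold mG
    rw [norm_mul, Complex.norm_I, one_mul, Complex.norm_conj, Complex.normSq_eq_norm_sq]
  rw [mul_pow, mul_pow, h3, h4]
  have h5 := wt_ge_om k
  have h6 := Complex.normSq_nonneg (om k)
  have h7 : 0 ≤ ‖d k‖ ^ 2 := by positivity
  nlinarith

variable {μ : E → ℂ}

/-- the coefficient along the state -/
def mu (hμ : Continuous μ) (c : ℤ × ℤ →₀ ℂ) : C(TT, ℂ) := ⟨fun x => μ (Ff c x),
  hμ.comp (Ff_cont c)⟩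
def cmu (hμ : Continuous μ) (c : ℤ × ℤ →₀ ℂ) : C(TT, ℂ) := ⟨fun x => conj (μ (Ff c x)),
  Complex.continuous_conj.comp (hμ.comp (Ff_cont c))⟩

/-- the operator `B` -/
def Bop (hμ : Continuous μ) (c : ℤ × ℤ →₀ ℂ) : (ℤ × ℤ →₀ ℂ) →ₗ[ℂ] HH where
  toFun d := L (cmu hμ c * Pt (ml rA d) + mu hμ c * Pt (ml rB d))
  map_add' d e := by
    rw [← L_add]
    congr 1
    rw [map_add, map_add, Pt_add, Pt_add]
    ring
  map_smul' z d := by
    rw [map_smul, map_smul, Pt_smul, Pt_smul, RingHom.id_apply, ← L_smul]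
    congr 1
    ext x
    simp only [ContinuousMap.add_apply, ContinuousMap.mul_apply, ContinuousMap.smul_apply,
      smul_eq_mul]
    ring

theorem Bop_apply (hμ : Continuous μ) (c d : ℤ × ℤ →₀ ℂ) :
    Bop hμ c d = L (cmu hμ c * Pt (ml rA d) + mu hμ c * Pt (ml rB d)) := rfl

theorem Bop_bound (hμ : Continuous μ) {θ : ℝ} (hθ : 0 ≤ θ) (hb : ∀ z, ‖μ z‖ ≤ 2 * θ)
    (c d : ℤ × ℤ →₀ ℂ) : ‖Bop hμ c d‖ ≤ θ * ‖io bas d‖ := by
  rw [Bop_apply, L_add, io_bas]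
  have h1 : ‖L (cmu hμ c * Pt (ml rA d))‖ ≤ 2 * θ * ‖L (Pt (ml rA d))‖ := by
    refine norm_L_le (by linarith) fun x => ?_
    rw [ContinuousMap.mul_apply, norm_mul]
    refine mul_le_mul_of_nonneg_right ?_ (norm_nonneg _)
    show ‖conj (μ (Ff c x))‖ ≤ 2 * θ
    rw [Complex.norm_conj]
    exact hb _
  have h2 : ‖L (mu hμ c * Pt (ml rB d))‖ ≤ 2 * θ * ‖L (Pt (ml rB d))‖ := by
    refine norm_L_le (by linarith) fun x => ?_
    rw [ContinuousMap.mul_apply, norm_mul]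
    exact mul_le_mul_of_nonneg_right (hb _) (norm_nonneg _)
  have h3 : ‖L (Pt (ml rA d))‖ ≤ 1 / 4 * ‖L (Pt d)‖ :=
    norm_ml_le (by norm_num) fun k => by
      rw [norm_mul]
      exact mul_le_mul_of_nonneg_right (norm_rA k) (norm_nonneg _)
  have h4 : ‖L (Pt (ml rB d))‖ ≤ 1 / 4 * ‖L (Pt d)‖ :=
    norm_ml_le (by norm_num) fun k => by
      rw [norm_mul]
      exact mul_le_mul_of_nonneg_right (norm_rB k) (norm_nonneg _)
  have h5 := norm_add_le (L (cmu hμ c * Pt (ml rA d))) (L (mu hμ c * Pt (ml rB d)))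
  have h6 := mul_le_mul_of_nonneg_left h3 (show 0 ≤ 2 * θ by linarith)
  have h7 := mul_le_mul_of_nonneg_left h4 (show 0 ≤ 2 * θ by linarith)
  nlinarith

theorem norm_ee (k : ℤ × ℤ) (x : TT) : ‖ee k x‖ = 1 := by
  obtain ⟨z, rfl⟩ := tau_surj x
  rw [ee_tau]
  unfold ek
  rw [Complex.norm_exp]
  simp

theorem Pt_single (k : ℤ × ℤ) (w : ℂ) (x : TT) : Pt (Finsupp.single k w) x = w * ee k x := by
  classical
  rw [Pt_apply (Finsupp.support_single_subset) x, Finset.sum_singleton, Finsupp.single_eq_same]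

theorem ml_single (m : ℤ × ℤ → ℂ) (k : ℤ × ℤ) (w : ℂ) :
    ml m (Finsupp.single k w) = Finsupp.single k (m k * w) := by
  classical
  ext j
  rw [ml_apply, Finsupp.single_apply, Finsupp.single_apply]
  split_ifs with h
  · rw [h]
  · rw [mul_zero]

theorem Bop_lip (hμ : Continuous μ) {Lm : ℝ≥0} (hL : LipschitzWith Lm μ)
    (c c' : ℤ × ℤ →₀ ℂ) (k : ℤ × ℤ) :
    ‖Bop hμ c (Finsupp.single k 1) - Bop hμ c' (Finsupp.single k 1)‖ ^ 2 ≤
      (Lm : ℝ) ^ 2 * En wt (c - c') := by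
  rw [Bop_apply, Bop_apply, ← L_sub, norm_L_sq]
  have h1 : ∀ x, ‖(cmu hμ c * Pt (ml rA (Finsupp.single k 1)) +
      mu hμ c * Pt (ml rB (Finsupp.single k 1)) - (cmu hμ c' * Pt (ml rA (Finsupp.single k 1)) +
      mu hμ c' * Pt (ml rB (Finsupp.single k 1)))) x‖ ^ 2 ≤
      (Lm : ℝ) ^ 2 * ‖Ff (c - c') x‖ ^ 2 := by
    intro x
    rw [← mul_pow]
    refine pow_le_pow_left₀ (norm_nonneg _) ?_ 2
    have h2 : (cmu hμ c * Pt (ml rA (Finsupp.single k 1)) +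
      mu hμ c * Pt (ml rB (Finsupp.single k 1)) - (cmu hμ c' * Pt (ml rA (Finsupp.single k 1)) +
      mu hμ c' * Pt (ml rB (Finsupp.single k 1)))) x =
      conj (μ (Ff c x) - μ (Ff c' x)) * (rA k * ee k x) +
      (μ (Ff c x) - μ (Ff c' x)) * (rB k * ee k x) := by
      simp only [ContinuousMap.sub_apply, ContinuousMap.add_apply, ContinuousMap.mul_apply,
        ml_single, mul_one, Pt_single, map_sub]
      show conj (μ (Ff c x)) * (rA k * ee k x) + μ (Ff c x) * (rB k * ee k x) -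
        (conj (μ (Ff c' x)) * (rA k * ee k x) + μ (Ff c' x) * (rB k * ee k x)) = _
      ring
    rw [h2]
    have h3 : ‖μ (Ff c x) - μ (Ff c' x)‖ ≤ Lm * ‖Ff (c - c') x‖ := by
      have := hL.dist_le_mul (Ff c x) (Ff c' x)
      rw [dist_eq_norm, dist_eq_norm, Ff_sub] at this
      exact this
    have h4 : ‖conj (μ (Ff c x) - μ (Ff c' x)) * (rA k * ee k x)‖ ≤
        Lm * ‖Ff (c - c') x‖ * (1 / 4) := by
      rw [norm_mul, Complex.norm_conj, norm_mul, norm_ee, mul_one]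
      exact mul_le_mul h3 (norm_rA k) (norm_nonneg _) (by positivity)
    have h5 : ‖(μ (Ff c x) - μ (Ff c' x)) * (rB k * ee k x)‖ ≤
        Lm * ‖Ff (c - c') x‖ * (1 / 4) := by
      rw [norm_mul, norm_mul, norm_ee, mul_one]
      exact mul_le_mul h3 (norm_rB k) (norm_nonneg _) (by positivity)
    have h6 := norm_add_le (conj (μ (Ff c x) - μ (Ff c' x)) * (rA k * ee k x))
      ((μ (Ff c x) - μ (Ff c' x)) * (rB k * ee k x))
    have h7 : 0 ≤ (Lm : ℝ) * ‖Ff (c - c') x‖ := by positivity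
    linarith
  have h8 : ∫ x, (Lm : ℝ) ^ 2 * ‖Ff (c - c') x‖ ^ 2 ≤ (Lm : ℝ) ^ 2 * En wt (c - c') := by
    rw [integral_const_mul]
    exact mul_le_mul_of_nonneg_left (int_Ff _) (by positivity)
  refine le_trans ?_ h8
  exact integral_mono (integrable_of_cont (by fun_prop))
    (integrable_of_cont (continuous_const.mul ((Ff_cont _).norm.pow 2))) h1

/-- the flow on the torus -/
def fl (hμ : Continuous μ) {θ : ℝ} (hθ : 0 ≤ θ) (hθ1 : θ < 1) (hb : ∀ z, ‖μ z‖ ≤ 2 * θ)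
    {Lm : ℝ≥0} (hL : LipschitzWith Lm μ) : Flow bas where
  lam := wt
  lam0 := 1
  lam0_pos := one_pos
  lam_ge := wt_ge
  fin := wt_fin
  B := Bop hμ
  th := θ
  th_nonneg := hθ
  th_lt := hθ1
  B_bound := Bop_bound hμ hθ hb
  L := fun _ => (Lm : ℝ) ^ 2
  B_lip := fun c c' k => Bop_lip hμ hL c c' k

end Helper76.IF
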